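import Pool.Agent.H781.KP.A
import Pool.Agent.H781.CM.SA

/-!
Project DF (MP_4e0d62_gt): closed oriented 4-manifolds with sectional curvature at least `κ > 0` and
curvature operator at least `-c κ`: the intersection form is definite if `c < √3 - 1`, and
`b_2 ≤ 1` if `c ≤ 1 / 12`. Algebraic and analytic part: statements.
-/

set_option autoImplicit false
set_option synthInstance.maxHeartbeats 400000
set_option maxHeartbeats 4000000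
set_option linter.unusedSectionVars false

open MeasureTheory Filter
open scoped Topology ContDiff

noncomputable section

namespace Pool.Agent.H781.DF

open Pool.Agent.H781.NG Pool.Agent.H781.CM Pool.Agent.H781.H6 Pool.Agent.H781.KP

/-! ### Algebra of 2-forms on `ℝ⁴` -/

/-- the 2-form with coordinates `x` and `Gam 4 * u = l u` (`l = ±1`) -/
def sd (l : ℝ) (x : Fin 3 → ℝ) : Fk 4 ℝ := fun S =>
  if S = {0, 1} then x 0 / √2 else if S = {2, 3} then - (l * x 0) / √2 else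
  if S = {0, 2} then x 1 / √2 else if S = {1, 3} then l * x 1 / √2 else
  if S = {0, 3} then x 2 / √2 else if S = {1, 2} then - (l * x 2) / √2 else 0

/-- the corresponding skew-symmetric matrix (times `√2`) -/
def JJ (l : ℝ) (x : Fin 3 → ℝ) : Fin 4 → Fin 4 → ℝ :=
  ![![0, x 0, x 1, x 2], ![- x 0, 0, - (l * x 2), l * x 1], ![- x 1, l * x 2, 0, - (l * x 0)],
    ![- x 2, - (l * x 1), l * x 0, 0]]

/-- the curvature operator on the 2-forms `sd l x` -/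
def AA (R : T4 4) (l : ℝ) (x y : Fin 3 → ℝ) : ℝ :=
  - (∑ a, ∑ b, ∑ c, ∑ d, R a b c d * JJ l x a b * JJ l y c d) / 8

/-- its trace -/
def trA (R : T4 4) (l : ℝ) : ℝ := ∑ i : Fin 3, AA R l (fun j => if j = i then 1 else 0)
  (fun j => if j = i then 1 else 0)

/-- the (anti-)self-dual 2-forms -/
def S_SD : Prop := ∀ l : ℝ, l ^ 2 = 1 →
  (∀ u : Fk 4 ℝ, Deg 2 u → mulF (Gam 4) u = l • u → ∃ x, u = sd l x) ∧
  (∀ x y, ip (sd l x) (sd l y) = ∑ i, x i * y i) ∧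
  (∀ T : Fin 4 → Fin 3 → ℝ, ∑ a, an a (sd l (T a)) = 0 →
    T 1 0 + T 2 1 + T 3 2 = 0 ∧ T 0 0 + l * T 2 2 - l * T 3 1 = 0 ∧
    T 0 1 - l * T 1 2 + l * T 3 0 = 0 ∧ T 0 2 + l * T 1 1 - l * T 2 0 = 0)

/-- the Weitzenböck form on 2-forms and the curvature operator -/
def S_WPA : Prop := ∀ R : T4 4, IsAC R →
  (∀ (l : ℝ) (x : Fin 3 → ℝ), l ^ 2 = 1 →
    rc R (sd l x) = 2 * (trA R l * ∑ i, x i ^ 2 - AA R l x x)) ∧
  trA R 1 = trA R (-1) ∧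
  (∀ κ : ℝ, KGE R κ → ∀ x y : Fin 3 → ℝ, ∑ i, x i ^ 2 = 1 → ∑ i, y i ^ 2 = 1 →
    2 * κ ≤ AA R 1 x x + AA R (-1) y y) ∧
  ∀ (ε l : ℝ) (x : Fin 3 → ℝ), l ^ 2 = 1 → COp R ε → - (ε / 2) * ∑ i, x i ^ 2 ≤ AA R l x x

/-- the two lower bounds of the Weitzenböck form -/
def S_WP : Prop := ∀ (R : T4 4) (κ c : ℝ), IsAC R → 0 < κ → 0 ≤ c → KGE R κ →
  COp R (2 * (c * κ)) →
  (∃ a b : ℝ, -(c * κ) ≤ a ∧ -(c * κ) ≤ b ∧ 2 * κ ≤ a + b ∧
    (∀ u : Fk 4 ℝ, Deg 2 u → mulF (Gam 4) u = u → 4 * a * ip u u ≤ rc R u) ∧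
    (∀ u : Fk 4 ℝ, Deg 2 u → mulF (Gam 4) u = - u → 4 * b * ip u u ≤ rc R u)) ∧
  ∀ l : ℝ, l ^ 2 = 1 → ∀ u v : Fk 4 ℝ, Deg 2 u → Deg 2 v → mulF (Gam 4) u = l • u →
    mulF (Gam 4) v = l • v →
    4 * κ * (ip u u + ip v v) -
      4 * κ * (1 + c) * √((ip u u - ip v v) ^ 2 + 4 * ip u v ^ 2) ≤ rc R u + rc R v

/-- refined Kato inequality, algebraic version -/
def S_KT : Prop := ∀ (l : ℝ) (h : Fk 4 ℝ) (T : Fin 4 → Fk 4 ℝ), l ^ 2 = 1 → Deg 2 h →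
  (∀ i, Deg 2 (T i)) → mulF (Gam 4) h = l • h → (∀ i, mulF (Gam 4) (T i) = l • T i) →
  ∑ i, an i (T i) = 0 →
  3 * ∑ i, ip (T i) h ^ 2 ≤ 2 * (ip h h * ∑ i, ip (T i) (T i))

/-! ### The same on a 4-manifold -/

/-- lower bounds of the Weitzenböck term -/
def S_WPC : Prop := ∀ (M : Type) [TopologicalSpace M] [CompactSpace M] [MeasurableSpace M]
  [BorelSpace M] (N : ℕ) (C : CD M N) (W : Fk N C.A) (κ c : ℝ), W4 C W → 0 < κ → 0 ≤ c →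
  PtK C 4 κ → CurvGE C (2 * (c * κ)) → ∀ q : M,
  (∃ a b : ℝ, -(c * κ) ≤ a ∧ -(c * κ) ≤ b ∧ 2 * κ ≤ a + b ∧
    (∀ u : Fk N C.A, Hor C u → Deg 2 u → mulF W u = u →
      4 * a * C.ev q (ip u u) ≤ C.ev q (ric C.F u)) ∧
    (∀ u : Fk N C.A, Hor C u → Deg 2 u → mulF W u = - u →
      4 * b * C.ev q (ip u u) ≤ C.ev q (ric C.F u))) ∧
  ∀ l : ℝ, l ^ 2 = 1 → ∀ u v : Fk N C.A, Hor C u → Hor C v → Deg 2 u → Deg 2 v →
    mulF W u = l • u → mulF W v = l • v →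
    4 * κ * (C.ev q (ip u u) + C.ev q (ip v v)) - 4 * κ * (1 + c) *
      √((C.ev q (ip u u) - C.ev q (ip v v)) ^ 2 + 4 * C.ev q (ip u v) ^ 2) ≤
    C.ev q (ric C.F u) + C.ev q (ric C.F v)

/-- refined Kato inequality -/
def S_KTC : Prop := ∀ (M : Type) [TopologicalSpace M] [CompactSpace M] [MeasurableSpace M]
  [BorelSpace M] (N : ℕ) (C : CD M N) (W : Fk N C.A) (κ : ℝ), W4 C W → PtK C 4 κ →
  ∀ (l : ℝ) (h : Fk N C.A), l ^ 2 = 1 → Hor C h → Deg 2 h → de C.F h = 0 → mulF W h = l • h →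
  ∀ q : M, 3 * ∑ a, C.ev q (ip (nab C.F a h) h) ^ 2 ≤
    2 * (C.ev q (ip h h) * ∑ a, C.ev q (ip (nab C.F a h) (nab C.F a h)))

/-- sharp estimate of Lichnerowicz -/
def S_LICHN : Prop := ∀ (M : Type) [TopologicalSpace M] [CompactSpace M] [MeasurableSpace M]
  [BorelSpace M] (N : ℕ) (C : CD M N) (n : ℕ) (κ : ℝ), 2 ≤ n → 0 < κ → PtK C n κ →
  ∀ (u : C.A) (l : ℝ), 0 < l → Lap C u = - (l • u) → u ≠ 0 → n * κ ≤ l

/-- sharp Poincaré inequality -/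
def S_POINN : Prop := ∀ (M : Type) [TopologicalSpace M] [CompactSpace M] [MeasurableSpace M]
  [BorelSpace M] (N : ℕ) (C : CD M N) (n : ℕ) (κ : ℝ), 2 ≤ n → 0 < κ → PtK C n κ → Conn C →
  Moll C → Dense2 C → Reg C → Poin C (1 / (n * κ))

/-- energy inequality for the square root of the length of a harmonic form -/
def S_KEN : Prop := ∀ (M : Type) [TopologicalSpace M] [CompactSpace M] [MeasurableSpace M]
  [BorelSpace M] (N : ℕ) (C : CD M N) (W : Fk N C.A) (κ : ℝ), W4 C W → PtK C 4 κ →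
  ∀ (l : ℝ) (h : Fk N C.A), l ^ 2 = 1 → Hor C h → Deg 2 h → DD C h = 0 → mulF W h = l • h →
  ∀ δ : ℝ, 0 < δ → ∃ φ ψ : C.A, (∀ q, 0 < C.ev q φ ∧ C.ev q φ ^ 4 = C.ev q (ip h h) + δ ∧
    C.ev q ψ * C.ev q φ ^ 2 = 1) ∧ 2 * ig C (gsq C φ) + ig C (ψ * ric C.F h) ≤ 0

/-- an inequality for two functions -/
def S_L2 : Prop := ∀ (M : Type) [TopologicalSpace M] [CompactSpace M] [MeasurableSpace M]
  [BorelSpace M] (N : ℕ) (C : CD M N) (κ : ℝ), 0 < κ → Poin C (1 / (4 * κ)) → ∀ P Q : C.A,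
  ig C (P ^ 2) = 1 → ig C (Q ^ 2) = 1 →
  4 * κ * √3 * ∫ q, |C.ev q P ^ 2 - C.ev q Q ^ 2| ∂C.μ ≤
    2 * (ig C (gsq C P) + ig C (gsq C Q)) + 8 * κ

/-- there are no harmonic self-dual and anti-self-dual forms at the same time -/
def S_DEFA : Prop := ∀ (M : Type) [TopologicalSpace M] [CompactSpace M] [MeasurableSpace M]
  [BorelSpace M] (N : ℕ) (C : CD M N) (W : Fk N C.A) (κ c : ℝ), W4 C W → 0 < κ → 0 ≤ c →
  c < √3 - 1 → PtK C 4 κ → CurvGE C (2 * (c * κ)) → Poin C (1 / (4 * κ)) →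
  ∀ u v : Fk N C.A, Hor C u → Hor C v → Deg 2 u → Deg 2 v → DD C u = 0 → DD C v = 0 →
    mulF W u = u → mulF W v = - v → u = 0 ∨ v = 0

/-- the lengths of two harmonic self-dual forms are almost equal -/
def S_PAIR : Prop := ∀ (M : Type) [TopologicalSpace M] [CompactSpace M] [MeasurableSpace M]
  [BorelSpace M] (N : ℕ) (C : CD M N) (W : Fk N C.A) (κ c : ℝ), W4 C W → 0 < κ → 0 ≤ c →
  c ≤ 1 / 2 → PtK C 4 κ → Poin C (1 / (4 * κ)) →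
  ∀ (l : ℝ) (u v : Fk N C.A), l ^ 2 = 1 → Hor C u → Hor C v → Deg 2 u → Deg 2 v →
    DD C u = 0 → DD C v = 0 → mulF W u = l • u → mulF W v = l • v → nq C u = 1 → nq C v = 1 →
    en C u ≤ 4 * (c * κ) → en C v ≤ 4 * (c * κ) →
    ∫ q, |C.ev q (ip u u) - C.ev q (ip v v)| ∂C.μ ≤ √(8 / 3 * c * (4 - 8 / 3 * c))

/-- there are no two orthogonal harmonic self-dual forms -/
def S_DEFB : Prop := ∀ (M : Type) [TopologicalSpace M] [CompactSpace M] [MeasurableSpace M]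
  [BorelSpace M] (N : ℕ) (C : CD M N) (W : Fk N C.A) (κ : ℝ), W4 C W → 0 < κ →
  PtK C 4 κ → CurvGE C (κ / 6) → Poin C (1 / (4 * κ)) →
  ∀ (l : ℝ) (u v : Fk N C.A), l ^ 2 = 1 → Hor C u → Hor C v → Deg 2 u → Deg 2 v →
    DD C u = 0 → DD C v = 0 → mulF W u = l • u → mulF W v = l • v → nq C u = 1 → nq C v = 1 →
    pr C u v = 0 → False

/-- the abstract theorem -/
def S_DEF : Prop := ∀ (M : Type) [TopologicalSpace M] [CompactSpace M] [MeasurableSpace M]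
  [BorelSpace M] (N : ℕ) (C : CD M N) (W : Fk N C.A) (κ : ℝ), W4 C W → 0 < κ →
  PtK C 4 κ → Conn C → Moll C → Dense2 C → Reg C →
  (∀ c : ℝ, 0 ≤ c → c < √3 - 1 → CurvGE C (2 * (c * κ)) →
    ∀ u ∈ Zp C 2, pr C (mulF u u) W = 0 → u ∈ Bp C 2) ∧
  (CurvGE C (κ / 6) → bet C 2 ≤ 1)

end Pool.Agent.H781.DF
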