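import Pool.Agent.H781.DF.A
import Pool.Agent.H781.CM.App
import Pool.Agent.H781.CM.Clif

/-!
Project DF, the abstract theorem (task Def, helper379).
-/

set_option autoImplicit false
set_option synthInstance.maxHeartbeats 400000
set_option maxHeartbeats 4000000
set_option linter.unusedSectionVars false

open MeasureTheory Filter
open scoped Topology ContDiff

noncomputable section

namespace Pool.Agent.H781.DF

open Pool.Agent.H781.NG Pool.Agent.H781.CM Pool.Agent.H781.H6 Pool.Agent.H781.KP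

namespace Def

variable {M : Type} [TopologicalSpace M] [CompactSpace M] [MeasurableSpace M] [BorelSpace M]
  {N : ℕ} {C : CD M N}

theorem mulF_smulR (c : ℝ) (u v : Fk N C.A) : mulF u (c • v) = c • mulF u v := by
  funext R
  simp only [mulF, Pi.smul_apply, Finset.smul_sum, mul_smul_comm]

theorem mulF_zeroR (u : Fk N C.A) : mulF u (0 : Fk N C.A) = 0 := by
  funext R
  simp only [mulF, Pi.zero_apply, mul_zero, Finset.sum_const_zero]

/-- harmonic 2-forms -/
structure H2 (C : CD M N) (h : Fk N C.A) : Prop where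
  hor : Hor C h
  deg : Deg 2 h
  dd0 : dd C.F h = 0
  de0 : de C.F h = 0

theorem H2_of {h : Fk N C.A} (hh : h ∈ Hm C 2) : H2 C h := by
  obtain ⟨⟨⟨h1, h2⟩, h3⟩, h4⟩ := hh
  exact ⟨h1, h2, LinearMap.mem_ker.1 h3, LinearMap.mem_ker.1 h4⟩

theorem H2.DD {h : Fk N C.A} (hh : H2 C h) : DD C h = 0 := by
  unfold Pool.Agent.H781.CM.DD
  rw [hh.dd0, hh.de0, add_zero]

/-- the two parts of a 2-form -/
def pt (W : Fk N C.A) (l : ℝ) (h : Fk N C.A) : Fk N C.A := (1 / 2 : ℝ) • (h + l • mulF W h)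

theorem hor_add {u v : Fk N C.A} (hu : Hor C u) (hv : Hor C v) : Hor C (u + v) :=
  (HorS C).add_mem hu hv

theorem hor_smul (c : ℝ) {u : Fk N C.A} (hu : Hor C u) : Hor C (c • u) := (HorS C).smul_mem c hu

theorem deg_add {p : ℕ} {u v : Fk N C.A} (hu : Deg p u) (hv : Deg p v) : Deg p (u + v) :=
  (DegS N C.A p).add_mem hu hv

theorem deg_smul {p : ℕ} (c : ℝ) {u : Fk N C.A} (hu : Deg p u) : Deg p (c • u) :=
  (DegS N C.A p).smul_mem c hu

theorem DD_add (u v : Fk N C.A) : DD C (u + v) = DD C u + DD C v := map_add (DDL C) u v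

theorem DD_smul (c : ℝ) (u : Fk N C.A) : DD C (c • u) = c • DD C u := map_smul (DDL C) c u

section

variable (h5 : S_W4) {W : Fk N C.A} (hW : W4 C W)
include h5 hW

theorem pt_hor (l : ℝ) {h : Fk N C.A} (hh : Hor C h) : Hor C (pt W l h) := by
  obtain ⟨-, -, -, -, -, a6, -, -⟩ := h5 M N C W hW
  exact hor_smul _ (hor_add hh (hor_smul _ (a6 h hh)))

theorem pt_deg (l : ℝ) {h : Fk N C.A} (hh : Hor C h) (hd : Deg 2 h) : Deg 2 (pt W l h) := by
  obtain ⟨-, -, a3, -, -, -, -, -⟩ := h5 M N C W hW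
  exact deg_smul _ (deg_add hd (deg_smul _ (a3 2 h (by norm_num) hh hd)))

theorem pt_DD (l : ℝ) {h : Fk N C.A} (hh : DD C h = 0) : DD C (pt W l h) = 0 := by
  obtain ⟨-, -, -, -, -, -, -, a8⟩ := h5 M N C W hW
  unfold pt
  rw [DD_smul, DD_add, DD_smul, a8, hh, mulF_zeroR, smul_zero, add_zero, smul_zero]

theorem WW (h : Fk N C.A) : mulF W (mulF W h) = h := by
  obtain ⟨a1, -, -, -, -, -, -, -⟩ := h5 M N C W hW
  rw [← Clif.assoc, a1, Clif.vac_mul]

theorem pt_W (l : ℝ) (hl : l ^ 2 = 1) (h : Fk N C.A) : mulF W (pt W l h) = l • pt W l h := by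
  have e : l • (h + l • mulF W h) = mulF W h + l • h := by
    rw [smul_add, smul_smul, ← sq, hl, one_smul, add_comm]
  unfold pt
  rw [mulF_smulR, App.mulF_add_right, mulF_smulR, WW h5 hW, smul_comm l (1 / 2 : ℝ), e]

end

theorem pt_add (W h : Fk N C.A) : pt W 1 h + pt W (-1) h = h := by
  unfold pt
  rw [← smul_add, one_smul, neg_smul, one_smul]
  have e : h + mulF W h + (h + -mulF W h) = (2 : ℝ) • h := by
    rw [two_smul]; abel
  rw [e, smul_smul]
  norm_num

theorem pt_sub (W h : Fk N C.A) : pt W 1 h - pt W (-1) h = mulF W h := by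
  unfold pt
  rw [← smul_sub, one_smul, neg_smul, one_smul]
  have e : h + mulF W h - (h + -mulF W h) = (2 : ℝ) • mulF W h := by
    rw [two_smul]; abel
  rw [e, smul_smul]
  norm_num

theorem pr_W (W h : Fk N C.A) : pr C h (mulF W h) = nq C (pt W 1 h) - nq C (pt W (-1) h) := by
  have e1 : pr C h (mulF W h) = pr C (pt W 1 h + pt W (-1) h) (pt W 1 h - pt W (-1) h) := by
    rw [pt_add, pt_sub]
  rw [e1, pr_add_left, pr_sub_right, pr_sub_right, pr_self, pr_self, pr_comm C (pt W (-1) h)]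
  ring

end Def

open Def in
theorem s_def (h1 : S_POINN) (h2 : S_DEFA) (h3 : S_DEFB) (h4 : S_HARM) (h5 : S_W4) (h6 : S_STK)
    (h7 : S_DDH) : S_DEF := by
  intro M _ _ _ _ N C W κ hW hκ hPt hConn hMoll hD hReg
  have hPoin : Poin C (1 / (4 * κ)) := by
    have h := h1 M N C 4 κ (by norm_num) hκ hPt hConn hMoll hD hReg
    rwa [Nat.cast_ofNat] at h
  obtain ⟨hfin, hbet, hdec, -⟩ := h4 M N C hMoll hD hReg 2
  obtain ⟨hs1, hs2⟩ := h6 M N C W hW
  -- the alternative
  have halt : ∀ c : ℝ, 0 ≤ c → c < √3 - 1 → CurvGE C (2 * (c * κ)) → ∀ h h' : Fk N C.A,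
      H2 C h → H2 C h' → pt W 1 h = 0 ∨ pt W (-1) h' = 0 := by
    intro c hc0 hc1 hcv h h' hh hh'
    refine h2 M N C W κ c hW hκ hc0 hc1 hPt hcv hPoin (pt W 1 h) (pt W (-1) h')
      (pt_hor h5 hW 1 hh.hor) (pt_hor h5 hW (-1) hh'.hor) (pt_deg h5 hW 1 hh.hor hh.deg)
      (pt_deg h5 hW (-1) hh'.hor hh'.deg) (pt_DD h5 hW 1 hh.DD) (pt_DD h5 hW (-1) hh'.DD) ?_ ?_
    · rw [pt_W h5 hW 1 (by norm_num), one_smul]
    · rw [pt_W h5 hW (-1) (by norm_num), neg_smul, one_smul]
  constructor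
  · intro c hc0 hc1 hcv u hu hpr
    obtain ⟨h, hh, hd⟩ := hdec u hu
    obtain ⟨a, ha, hda⟩ := hd
    have hH := H2_of hh
    have hda' : dd C.F a = u - h := hda
    have huH : Hor C u := hu.1.1
    have huD : Deg 2 u := hu.1.2
    have hhZ : h ∈ Zp C 2 := ⟨hh.1.1, hh.1.2⟩
    have hdaH : Hor C (dd C.F a) := by
      rw [hda']
      exact (HorS C).sub_mem huH hH.hor
    have hdaD : Deg 2 (dd C.F a) := by
      rw [hda']
      exact (DegS N C.A 2).sub_mem huD hH.deg
    have e1 : mulF u u = mulF h h + mulF h (dd C.F a) + mulF (dd C.F a) u := by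
      have e2 : u = h + dd C.F a := by rw [hda']; abel
      calc mulF u u = mulF (h + dd C.F a) u := by rw [← e2]
        _ = mulF h u + mulF (dd C.F a) u := App.mulF_add_left _ _ _
        _ = mulF h (h + dd C.F a) + mulF (dd C.F a) u := by rw [← e2]
        _ = _ := by rw [App.mulF_add_right]
    have e3 : pr C (mulF (dd C.F a) u) W = 0 := hs2 a ha u hu
    have e4 : pr C (mulF h (dd C.F a)) W = 0 := by
      rw [(hs1 h (dd C.F a) hH.hor hH.deg hdaH hdaD).2]
      exact hs2 a ha h hhZ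
    have e5 : pr C (mulF h h) W = - pr C h (mulF W h) := (hs1 h h hH.hor hH.deg hH.hor hH.deg).1
    rw [e1, pr_add_left, pr_add_left, e3, e4, e5, pr_W] at hpr
    have e6 : nq C (pt W 1 h) = nq C (pt W (-1) h) := by linarith
    have e7 : h = 0 := by
      rw [← pt_add W h]
      rcases halt c hc0 hc1 hcv h h hH hH with h0 | h0
      · have e8 : pt W (-1) h = 0 := by
          apply nq_eq_zero C
          rw [← e6, h0]
          exact pr_zero_left C 0
        rw [h0, e8, add_zero]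
      · have e8 : pt W 1 h = 0 := by
          apply nq_eq_zero C
          rw [e6, h0]
          exact pr_zero_left C 0
        rw [h0, e8, add_zero]
    refine ⟨a, ha, ?_⟩
    change dd C.F a = u
    rw [hda', e7, sub_zero]
  · intro hcv
    have hs3 : (17 / 10 : ℝ) < √3 := by
      rw [Real.lt_sqrt (by norm_num)]
      norm_num
    have hcv' : CurvGE C (2 * ((1 / 12) * κ)) := by
      have : 2 * ((1 / 12) * κ) = κ / 6 := by ring
      rwa [this]
    have halt' := halt (1 / 12) (by norm_num) (by linarith) hcv'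
    -- the sign
    have hl : ∃ l : ℝ, l ^ 2 = 1 ∧ ∀ h : Fk N C.A, H2 C h → mulF W h = l • h := by
      by_cases hall : ∀ h : Fk N C.A, H2 C h → pt W (-1) h = 0
      · refine ⟨1, by norm_num, fun h hh => ?_⟩
        rw [← pt_sub, hall h hh, sub_zero, one_smul]
        conv_rhs => rw [← pt_add W h, hall h hh, add_zero]
      · push Not at hall
        obtain ⟨h', hh', hne⟩ := hall
        refine ⟨-1, by norm_num, fun h hh => ?_⟩
        have h0 : pt W 1 h = 0 := (halt' h h' hh hh').resolve_right hne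
        rw [← pt_sub, h0, zero_sub, neg_smul, one_smul]
        conv_rhs => rw [← pt_add W h, h0, zero_add]
    obtain ⟨l, hl1, hl2⟩ := hl
    rw [← hbet]
    by_contra hcon
    rw [not_le] at hcon
    have hV : FiniteDimensional ℝ (Hm C 2) := hfin
    let B : (Hm C 2) →ₗ[ℝ] (Hm C 2) →ₗ[ℝ] ℝ :=
      (prL C).compl₁₂ (Hm C 2).subtype (Hm C 2).subtype
    have hB : ∀ x y : Hm C 2, B x y = pr C x.1 y.1 := fun x y => rfl
    obtain ⟨b, hb⟩ := App.onb B (fun x y => by rw [hB, hB, pr_comm]) (fun x hx => by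
      rw [hB, pr_self]
      refine lt_of_le_of_ne (nq_nonneg C _) (fun h0 => hx ?_)
      exact Subtype.ext (nq_eq_zero C h0.symm))
    let i : Fin (Module.finrank ℝ (Hm C 2)) := ⟨0, by omega⟩
    let j : Fin (Module.finrank ℝ (Hm C 2)) := ⟨1, hcon⟩
    have hij : i ≠ j := by
      intro h
      exact absurd (congrArg Fin.val h) (by simp [i, j])
    have hu := H2_of (b i).2
    have hv := H2_of (b j).2
    refine h3 M N C W κ hW hκ hPt hcv hPoin l (b i).1 (b j).1 hl1 hu.hor hv.hor hu.deg hv.deg hu.DD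
      hv.DD (hl2 _ hu) (hl2 _ hv) ?_ ?_ ?_
    · have := hb i i
      rwa [hB, if_pos rfl] at this
    · have := hb j j
      rwa [hB, if_pos rfl] at this
    · have := hb i j
      rwa [hB, if_neg hij] at this

end Pool.Agent.H781.DF
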