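import Pool.Agent.H781.DF.A
import Pool.Agent.H781.CM.Base

set_option autoImplicit false
set_option synthInstance.maxHeartbeats 400000
set_option maxHeartbeats 4000000
set_option linter.unusedSectionVars false

open MeasureTheory Filter
open scoped Topology ContDiff

noncomputable section

namespace Pool.Agent.H781.DF

open Pool.Agent.H781.NG Pool.Agent.H781.CM Pool.Agent.H781.H6 Pool.Agent.H781.KP

namespace Defa

theorem alg1 {κ c a b x y : ℝ} (ha : -(c * κ) ≤ a) (hb : -(c * κ) ≤ b) (hab : 2 * κ ≤ a + b)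
    (hx : 0 ≤ x) (hy : 0 ≤ y) : κ * (x + y) - κ * (1 + c) * |x - y| ≤ a * x + b * y := by
  rcases le_total y x with h | h
  · rw [abs_of_nonneg (by linarith)]
    have h1 := mul_le_mul_of_nonneg_right ha (sub_nonneg.2 h)
    have h2 := mul_le_mul_of_nonneg_right hab hy
    nlinarith
  · rw [abs_of_nonpos (by linarith)]
    have h1 := mul_le_mul_of_nonneg_right hb (sub_nonneg.2 h)
    have h2 := mul_le_mul_of_nonneg_right hab hx
    nlinarith

theorem alg2 {p ψ f s : ℝ} (hs : 0 < s) (hp : 0 < p) (hpf : p ^ 2 = f + s ^ 2) (hψ : ψ * p = 1)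
    (hf : 0 ≤ f) : 0 < ψ ∧ p - s ≤ ψ * f ∧ ψ * f ≤ p := by
  have hψ0 : 0 < ψ := by
    by_contra h
    push Not at h
    nlinarith
  have hsp : s ≤ p := by
    by_contra h
    push Not at h
    nlinarith
  have e1 : ψ * f = p - s * (s * ψ) := by
    have : f = p ^ 2 - s ^ 2 := by linarith
    rw [this]
    linear_combination p * hψ
  have e2 : s * ψ ≤ 1 := by
    rw [← hψ, mul_comm]
    exact mul_le_mul_of_nonneg_left hsp hψ0.le
  have e3 : 0 ≤ s * ψ := by positivity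
  refine ⟨hψ0, ?_, ?_⟩
  · rw [e1]
    nlinarith
  · rw [e1]
    nlinarith

theorem pt {κ c a b A B p p' ψ ψ' f f' R R' s : ℝ} (hκ : 0 < κ) (hc : 0 ≤ c)
    (ha : -(c * κ) ≤ a) (hb : -(c * κ) ≤ b) (hab : 2 * κ ≤ a + b) (hA : 0 < A) (hB : 0 < B)
    (hs : 0 < s) (hp : 0 < p) (hp' : 0 < p') (hpf : p ^ 2 = f + s ^ 2)
    (hpf' : p' ^ 2 = f' + s ^ 2) (hψ : ψ * p = 1) (hψ' : ψ' * p' = 1) (hf : 0 ≤ f) (hf' : 0 ≤ f')
    (hR : 4 * a * f ≤ R) (hR' : 4 * b * f' ≤ R') :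
    4 * κ * (p / A + p' / B - s * (1 / A + 1 / B)) -
      4 * κ * (1 + c) * (|p / A - p' / B| + s * (1 / A + 1 / B)) ≤
      1 / A * (ψ * R) + 1 / B * (ψ' * R') := by
  obtain ⟨h1, h2, h3⟩ := alg2 hs hp hpf hψ hf
  obtain ⟨h1', h2', h3'⟩ := alg2 hs hp' hpf' hψ' hf'
  set x : ℝ := 1 / A * (ψ * f) with hx
  set y : ℝ := 1 / B * (ψ' * f') with hy
  have hA1 : 0 < 1 / A := by positivity
  have hB1 : 0 < 1 / B := by positivity
  have hx0 : 0 ≤ x := by positivity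
  have hy0 : 0 ≤ y := by positivity
  have k1 : p / A - s * (1 / A) ≤ x := by
    have := mul_le_mul_of_nonneg_left h2 hA1.le
    have e : p / A = 1 / A * p := by ring
    rw [e]
    linarith
  have k2 : x ≤ p / A := by
    have := mul_le_mul_of_nonneg_left h3 hA1.le
    have e : p / A = 1 / A * p := by ring
    rw [e]
    linarith
  have k1' : p' / B - s * (1 / B) ≤ y := by
    have := mul_le_mul_of_nonneg_left h2' hB1.le
    have e : p' / B = 1 / B * p' := by ring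
    rw [e]
    linarith
  have k2' : y ≤ p' / B := by
    have := mul_le_mul_of_nonneg_left h3' hB1.le
    have e : p' / B = 1 / B * p' := by ring
    rw [e]
    linarith
  have hsA : 0 < s * (1 / A) := by positivity
  have hsB : 0 < s * (1 / B) := by positivity
  have k3 : |x - y| ≤ |p / A - p' / B| + s * (1 / A + 1 / B) := by
    rw [abs_le]
    have m1 := le_abs_self (p / A - p' / B)
    have m2 := neg_abs_le (p / A - p' / B)
    constructor <;> nlinarith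
  have k4 := alg1 ha hb hab hx0 hy0
  have k5 : 4 * (a * x) ≤ 1 / A * (ψ * R) := by
    have := mul_le_mul_of_nonneg_left (mul_le_mul_of_nonneg_left hR h1.le) hA1.le
    rw [hx]
    linarith
  have k5' : 4 * (b * y) ≤ 1 / B * (ψ' * R') := by
    have := mul_le_mul_of_nonneg_left (mul_le_mul_of_nonneg_left hR' h1'.le) hB1.le
    rw [hy]
    linarith
  have k6 : κ * (p / A + p' / B - s * (1 / A + 1 / B)) ≤ κ * (x + y) :=
    mul_le_mul_of_nonneg_left (by linarith) hκ.le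
  have k7 : κ * (1 + c) * |x - y| ≤ κ * (1 + c) * (|p / A - p' / B| + s * (1 / A + 1 / B)) :=
    mul_le_mul_of_nonneg_left k3 (by positivity)
  linarith

section

variable {M : Type} [TopologicalSpace M] [CompactSpace M] [MeasurableSpace M] [BorelSpace M]
  {N : ℕ} (C : CD M N)

/-- a lower bound for the integral of the length, independent of the parameter -/
theorem low {u : Fk N C.A} (hu : u ≠ 0) : ∃ A0 : ℝ, 0 < A0 ∧ ∀ (s : ℝ) (φ : C.A), 0 < s → s ≤ 1 →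
    (∀ q, 0 < C.ev q φ) → (∀ q, C.ev q φ ^ 4 = C.ev q (ip u u) + s ^ 2) → A0 ≤ ig C (φ ^ 2) := by
  obtain ⟨K, hK0, hK⟩ := bdd C (ip u u)
  have hn : 0 < nq C u := lt_of_le_of_ne (nq_nonneg C u) fun h => hu (nq_eq_zero C h.symm)
  refine ⟨nq C u / (K + 1), by positivity, ?_⟩
  intro s φ hs hs1 h1 h2
  rw [div_le_iff₀ (by positivity), mul_comm]
  have e1 : (K + 1) * ig C (φ ^ 2) = ig C ((K + 1) • φ ^ 2) := (ig_smul C _ _).symm
  rw [e1]
  refine ig_mono C fun q => ?_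
  rw [ev_smul, map_pow]
  have h3 := h2 q
  have h4 : C.ev q (ip u u) ≤ K := (le_abs_self _).trans (hK q)
  have h5 : 0 < C.ev q φ ^ 2 := pow_pos (h1 q) 2
  have h6 : C.ev q φ ^ 2 ≤ K + 1 := by
    by_contra h
    push Not at h
    have h7 : (C.ev q φ ^ 2) ^ 2 = C.ev q (ip u u) + s ^ 2 := by rw [← h3]; ring
    nlinarith
  have h7 : C.ev q (ip u u) ≤ (C.ev q φ ^ 2) * C.ev q φ ^ 2 := by
    have : (C.ev q φ ^ 2) * C.ev q φ ^ 2 = C.ev q (ip u u) + s ^ 2 := by rw [← h3]; ring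
    nlinarith
  exact h7.trans (mul_le_mul_of_nonneg_right h6 h5.le)

theorem gsq_smul (t : ℝ) (φ : C.A) : gsq C (t • φ) = (t ^ 2) • gsq C φ := by
  unfold gsq
  rw [Finset.smul_sum]
  refine Finset.sum_congr rfl fun a _ => ?_
  rw [Derivation.map_smul, smul_mul_smul_comm, pow_two]

theorem gsq_nonneg (φ : C.A) : 0 ≤ ig C (gsq C φ) := by
  refine ig_nonneg C fun q => ?_
  unfold gsq
  rw [ev_sum]
  exact Finset.sum_nonneg fun a _ => by rw [map_mul]; exact mul_self_nonneg _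

end

/-- the main inequality -/
theorem main (h1 : S_WPC) (h2 : S_KEN) (h3 : S_L2) {M : Type} [TopologicalSpace M]
    [CompactSpace M] [MeasurableSpace M] [BorelSpace M] {N : ℕ} (C : CD M N) (W : Fk N C.A)
    {κ c : ℝ} (hW : W4 C W) (hκ : 0 < κ) (hc : 0 ≤ c) (hc3 : c < √3 - 1) (hP : PtK C 4 κ)
    (hCG : CurvGE C (2 * (c * κ))) (hPo : Poin C (1 / (4 * κ))) {u v : Fk N C.A}
    (hu : Hor C u) (hv : Hor C v) (du : Deg 2 u) (dv : Deg 2 v) (Du : DD C u = 0)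
    (Dv : DD C v = 0) (Wu : mulF W u = u) (Wv : mulF W v = - v) {A0 B0 : ℝ} (hA0 : 0 < A0)
    (hB0 : 0 < B0)
    (hA : ∀ (s : ℝ) (φ : C.A), 0 < s → s ≤ 1 →
      (∀ q, 0 < C.ev q φ) → (∀ q, C.ev q φ ^ 4 = C.ev q (ip u u) + s ^ 2) → A0 ≤ ig C (φ ^ 2))
    (hB : ∀ (s : ℝ) (φ : C.A), 0 < s → s ≤ 1 →
      (∀ q, 0 < C.ev q φ) → (∀ q, C.ev q φ ^ 4 = C.ev q (ip v v) + s ^ 2) → B0 ≤ ig C (φ ^ 2))
    {s : ℝ} (hs : 0 < s) (hs1 : s ≤ 1) :
    2 * (√3 - 1 - c) ≤ √3 * (2 + c) * (s * (1 / A0 + 1 / B0)) := by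
  obtain ⟨φ, ψ, hφ, hen⟩ := h2 M N C W κ hW hP 1 u (by norm_num) hu du Du (by rw [one_smul, Wu])
    (s ^ 2) (by positivity)
  obtain ⟨φ', ψ', hφ', hen'⟩ := h2 M N C W κ hW hP (-1) v (by norm_num) hv dv Dv
    (by rw [neg_smul, one_smul, Wv]) (s ^ 2) (by positivity)
  set A : ℝ := ig C (φ ^ 2) with hAdef
  set B : ℝ := ig C (φ' ^ 2) with hBdef
  have hAA := hA s φ hs hs1 (fun q => (hφ q).1) (fun q => (hφ q).2.1)
  have hBB := hB s φ' hs hs1 (fun q => (hφ' q).1) (fun q => (hφ' q).2.1)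
  rw [← hAdef] at hAA
  rw [← hBdef] at hBB
  have hA1 : 0 < A := lt_of_lt_of_le hA0 hAA
  have hB1 : 0 < B := lt_of_lt_of_le hB0 hBB
  set P : C.A := (√A)⁻¹ • φ with hPdef
  set Q : C.A := (√B)⁻¹ • φ' with hQdef
  have sA : ((√A)⁻¹) ^ 2 = 1 / A := by rw [inv_pow, Real.sq_sqrt hA1.le, one_div]
  have sB : ((√B)⁻¹) ^ 2 = 1 / B := by rw [inv_pow, Real.sq_sqrt hB1.le, one_div]
  have hP2 : P ^ 2 = (1 / A) • φ ^ 2 := by rw [hPdef, smul_pow, sA]
  have hQ2 : Q ^ 2 = (1 / B) • φ' ^ 2 := by rw [hQdef, smul_pow, sB]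
  have iP : ig C (P ^ 2) = 1 := by
    rw [hP2, ig_smul, ← hAdef]
    field_simp
  have iQ : ig C (Q ^ 2) = 1 := by
    rw [hQ2, ig_smul, ← hBdef]
    field_simp
  have eP : ∀ q, C.ev q P ^ 2 = C.ev q φ ^ 2 / A := by
    intro q
    rw [← map_pow, hP2, ev_smul, map_pow]
    ring
  have eQ : ∀ q, C.ev q Q ^ 2 = C.ev q φ' ^ 2 / B := by
    intro q
    rw [← map_pow, hQ2, ev_smul, map_pow]
    ring
  have h4 := h3 M N C κ hκ hPo P Q iP iQ
  set Z : ℝ := ∫ q, |C.ev q P ^ 2 - C.ev q Q ^ 2| ∂C.μ with hZ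
  set e : ℝ := s * (1 / A + 1 / B) with he
  have he0 : 0 < e := by positivity
  have hcP : Continuous fun q => C.ev q P ^ 2 := (C.cont P).pow 2
  have hcQ : Continuous fun q => C.ev q Q ^ 2 := (C.cont Q).pow 2
  have hcZ : Continuous fun q => |C.ev q P ^ 2 - C.ev q Q ^ 2| := (hcP.sub hcQ).abs
  -- the pointwise inequality
  have hpt : ∀ q, 4 * κ * (C.ev q P ^ 2 + C.ev q Q ^ 2 - e) -
      4 * κ * (1 + c) * (|C.ev q P ^ 2 - C.ev q Q ^ 2| + e) ≤
      C.ev q ((1 / A) • (ψ * ric C.F u) + (1 / B) • (ψ' * ric C.F v)) := by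
    intro q
    obtain ⟨⟨a, b, ha, hb, hab, hRu, hRv⟩, -⟩ := h1 M N C W κ c hW hκ hc hP hCG q
    have hRu' := hRu u hu du Wu
    have hRv' := hRv v hv dv Wv
    obtain ⟨g1, g2, g3⟩ := hφ q
    obtain ⟨g1', g2', g3'⟩ := hφ' q
    have f0 : 0 ≤ C.ev q (ip u u) := by rw [ev_ip]; exact ip_self_nonneg _
    have f0' : 0 ≤ C.ev q (ip v v) := by rw [ev_ip]; exact ip_self_nonneg _
    rw [eP, eQ, map_add, ev_smul, ev_smul, map_mul, map_mul]
    exact pt hκ hc ha hb hab hA1 hB1 hs (pow_pos g1 2) (pow_pos g1' 2)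
      (by rw [← g2]; ring) (by rw [← g2']; ring) g3 g3' f0 f0' hRu' hRv'
  have hint : ∫ q, (4 * κ * (C.ev q P ^ 2 + C.ev q Q ^ 2 - e) -
      4 * κ * (1 + c) * (|C.ev q P ^ 2 - C.ev q Q ^ 2| + e)) ∂C.μ ≤
      ig C ((1 / A) • (ψ * ric C.F u) + (1 / B) • (ψ' * ric C.F v)) :=
    integral_mono (int_cont C (by fun_prop)) (int_ev C _) hpt
  have iP' : ∫ q, C.ev q P ^ 2 ∂C.μ = 1 := by
    rw [← iP]
    unfold ig
    simp only [map_pow]
  have iQ' : ∫ q, C.ev q Q ^ 2 ∂C.μ = 1 := by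
    rw [← iQ]
    unfold ig
    simp only [map_pow]
  have hval : ∫ q, (4 * κ * (C.ev q P ^ 2 + C.ev q Q ^ 2 - e) -
      4 * κ * (1 + c) * (|C.ev q P ^ 2 - C.ev q Q ^ 2| + e)) ∂C.μ =
      4 * κ * (2 - e) - 4 * κ * (1 + c) * (Z + e) := by
    have c1 : Integrable (fun q => C.ev q P ^ 2 + C.ev q Q ^ 2) C.μ := int_cont C (by fun_prop)
    have c2 : Integrable (fun q => C.ev q P ^ 2 + C.ev q Q ^ 2 - e) C.μ :=
      int_cont C (by fun_prop)
    have c3 : Integrable (fun q => |C.ev q P ^ 2 - C.ev q Q ^ 2|) C.μ := int_cont C hcZ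
    have c4 : Integrable (fun q => |C.ev q P ^ 2 - C.ev q Q ^ 2| + e) C.μ :=
      int_cont C (by fun_prop)
    have c5 : Integrable (fun _ : M => e) C.μ := int_cont C continuous_const
    have k1 : ∫ q, (C.ev q P ^ 2 + C.ev q Q ^ 2 - e) ∂C.μ = 2 - e := by
      rw [integral_sub c1 c5, integral_add (int_cont C hcP) (int_cont C hcQ), iP', iQ']
      simp
      norm_num
    have k2 : ∫ q, (|C.ev q P ^ 2 - C.ev q Q ^ 2| + e) ∂C.μ = Z + e := by
      rw [integral_add c3 c5]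
      simp
      rfl
    rw [integral_sub (c2.const_mul _) (c4.const_mul _), integral_const_mul, integral_const_mul,
      k1, k2]
  rw [hval, ig_add, ig_smul, ig_smul] at hint
  have gP : ig C (gsq C P) = 1 / A * ig C (gsq C φ) := by rw [hPdef, gsq_smul, sA, ig_smul]
  have gQ : ig C (gsq C Q) = 1 / B * ig C (gsq C φ') := by rw [hQdef, gsq_smul, sB, ig_smul]
  have n1 : 1 / A * ig C (ψ * ric C.F u) ≤ - 2 * ig C (gsq C P) := by
    rw [gP]
    have := mul_le_mul_of_nonneg_left hen (by positivity : (0 : ℝ) ≤ 1 / A)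
    linarith
  have n2 : 1 / B * ig C (ψ' * ric C.F v) ≤ - 2 * ig C (gsq C Q) := by
    rw [gQ]
    have := mul_le_mul_of_nonneg_left hen' (by positivity : (0 : ℝ) ≤ 1 / B)
    linarith
  have p1 := gsq_nonneg C P
  have p2 := gsq_nonneg C Q
  set t : ℝ := √3 - 1 - c with ht
  have ht0 : 0 < t := by rw [ht]; linarith
  have hZ0 : 0 ≤ Z := integral_nonneg fun q => abs_nonneg _
  -- first inequality
  have q1 : 4 * κ * (t * Z) ≤ 4 * κ * ((2 + c) * e) := by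
    rw [ht]
    nlinarith
  have q1' : t * Z ≤ (2 + c) * e := le_of_mul_le_mul_left q1 (by positivity)
  have q2 : 4 * κ * 2 ≤ 4 * κ * ((1 + c) * Z + (2 + c) * e) := by nlinarith
  have q2' : 2 ≤ (1 + c) * Z + (2 + c) * e := le_of_mul_le_mul_left q2 (by positivity)
  have q3 : 2 * t ≤ √3 * (2 + c) * e := by
    have r1 := mul_le_mul_of_nonneg_left q2' ht0.le
    have r2 := mul_le_mul_of_nonneg_left q1' (by linarith : (0 : ℝ) ≤ 1 + c)
    have r3 : √3 = 1 + c + t := by rw [ht]; ring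
    rw [r3]
    nlinarith
  refine q3.trans ?_
  have hee : e ≤ s * (1 / A0 + 1 / B0) := by
    rw [he]
    have a1 : 1 / A ≤ 1 / A0 := one_div_le_one_div_of_le hA0 hAA
    have a2 : 1 / B ≤ 1 / B0 := one_div_le_one_div_of_le hB0 hBB
    exact mul_le_mul_of_nonneg_left (by linarith) hs.le
  exact mul_le_mul_of_nonneg_left hee (by positivity)

end Defa

theorem s_defa (h1 : S_WPC) (h2 : S_KEN) (h3 : S_L2) : S_DEFA := by
  intro M _ _ _ _ N C W κ c hW hκ hc hc3 hP hCG hPo u v hu hv du dv Du Dv Wu Wv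
  by_contra hne
  push Not at hne
  obtain ⟨hu0, hv0⟩ := hne
  obtain ⟨A0, hA0, hA⟩ := Defa.low C hu0
  obtain ⟨B0, hB0, hB⟩ := Defa.low C hv0
  have ht : 0 < √3 - 1 - c := by linarith
  set K : ℝ := √3 * (2 + c) * (1 / A0 + 1 / B0) with hK
  have hK0 : 0 < K := by positivity
  have key : ∀ s : ℝ, 0 < s → s ≤ 1 → 2 * (√3 - 1 - c) ≤ K * s := by
    intro s hs hs1
    have := Defa.main h1 h2 h3 C W hW hκ hc hc3 hP hCG hPo hu hv du dv Du Dv Wu Wv hA0 hB0 hA hB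
      hs hs1
    refine this.trans (le_of_eq ?_)
    rw [hK]
    ring
  have h4 := key (min 1 ((√3 - 1 - c) / K)) (lt_min one_pos (by positivity)) (min_le_left _ _)
  have h5 : K * min 1 ((√3 - 1 - c) / K) ≤ K * ((√3 - 1 - c) / K) :=
    mul_le_mul_of_nonneg_left (min_le_right _ _) hK0.le
  rw [mul_div_cancel₀ _ hK0.ne'] at h5
  linarith

end Pool.Agent.H781.DF
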