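import Pool.Agent.H781.DF.A
import Pool.Agent.H781.CM.Base
import Pool.Agent.H781.CM.Bo
import Pool.Agent.H781.CM.Ddh

/-!
Project DF: there are no two orthogonal harmonic self-dual forms (`S_DEFB`).
-/

set_option autoImplicit false
set_option synthInstance.maxHeartbeats 400000
set_option maxHeartbeats 4000000
set_option linter.unusedSectionVars false

open MeasureTheory Filter
open scoped Topology ContDiff

noncomputable section

namespace Pool.Agent.H781.DF

open Pool.Agent.H781.NG Pool.Agent.H781.CM Pool.Agent.H781.H6 Pool.Agent.H781.KP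

namespace Defb

variable {M : Type} [TopologicalSpace M] [CompactSpace M] [MeasurableSpace M] [BorelSpace M]
  {N : ℕ} (C : CD M N)

/-- Clifford multiplication is additive in the second argument -/
theorem mulF_ar' (u v w : Fk N C.A) : mulF u (v + w) = mulF u v + mulF u w := by
  funext S
  simp only [mulF, Pi.add_apply]
  rw [← Finset.sum_add_distrib]
  refine Finset.sum_congr rfl fun T _ => ?_
  ring

theorem mulF_sr' (u v : Fk N C.A) (c : ℝ) : mulF u (c • v) = c • mulF u v := by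
  funext S
  simp only [mulF, Pi.smul_apply]
  rw [Finset.smul_sum]
  refine Finset.sum_congr rfl fun T _ => ?_
  rw [mul_smul_comm]

/-- a homogeneous form in the kernel of the Dirac operator is closed and coclosed -/
theorem closed {u : Fk N C.A} (hd : Deg 2 u) (h0 : DD C u = 0) :
    nq C (dd C.F u) + nq C (de C.F u) = 0 := by
  have h1 : Deg 3 (dd C.F u) := Ddh.deg_dd C.F 2 u hd
  have h2 : Deg 1 (de C.F u) := Ddh.deg_de C.F 1 u hd
  have h3 : ∀ S, dd C.F u S = 0 ∧ de C.F u S = 0 := by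
    intro S
    have h4 : dd C.F u S + de C.F u S = 0 := congrFun h0 S
    by_cases hS : S.card = 3
    · have h5 := h2 S (by omega)
      rw [h5, add_zero] at h4
      exact ⟨h4, h5⟩
    · have h5 := h1 S hS
      rw [h5, zero_add] at h4
      exact ⟨h5, h4⟩
  have e1 : dd C.F u = 0 := funext fun S => (h3 S).1
  have e2 : de C.F u = 0 := funext fun S => (h3 S).2
  rw [e1, e2, ← pr_self, pr_zero_left, add_zero]

/-- harmonic forms of degree two in the eigenspace -/
structure Har (W : Fk N C.A) (l : ℝ) (u : Fk N C.A) : Prop where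
  hor : Hor C u
  deg : Deg 2 u
  dir : DD C u = 0
  eig : mulF W u = l • u

theorem Har.add {W : Fk N C.A} {l : ℝ} {u v : Fk N C.A} (hu : Har C W l u) (hv : Har C W l v) :
    Har C W l (u + v) where
  hor := (HorS C).add_mem hu.hor hv.hor
  deg := by
    intro S hS
    rw [Pi.add_apply, hu.deg S hS, hv.deg S hS, add_zero]
  dir := by
    have h := map_add (DDL C) u v
    rw [DDL_apply, DDL_apply, DDL_apply, hu.dir, hv.dir, add_zero] at h
    exact h
  eig := by rw [mulF_ar' C, hu.eig, hv.eig, smul_add]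

theorem Har.smul {W : Fk N C.A} {l : ℝ} {u : Fk N C.A} (c : ℝ) (hu : Har C W l u) :
    Har C W l (c • u) where
  hor := (HorS C).smul_mem c hu.hor
  deg := by
    intro S hS
    rw [Pi.smul_apply, hu.deg S hS, smul_zero]
  dir := by
    have h := map_smul (DDL C) c u
    rw [DDL_apply, DDL_apply, hu.dir, smul_zero] at h
    exact h
  eig := by rw [mulF_sr' C, hu.eig, smul_comm]

/-- the integral of the Weitzenböck term of a harmonic form -/
theorem ig_ric {W : Fk N C.A} {l : ℝ} {u : Fk N C.A} (hu : Har C W l u) :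
    ig C (ric C.F u) = - en C u := by
  have h1 := bochner C u
  rw [closed C hu.deg hu.dir] at h1
  linarith

theorem sqrt_le (x g : ℝ) : √(x ^ 2 + 4 * g ^ 2) ≤ |x| + |2 * g| := by
  apply Real.sqrt_le_iff.2
  refine ⟨by positivity, ?_⟩
  have h1 : |x| ^ 2 = x ^ 2 := sq_abs x
  have h2 : |2 * g| ^ 2 = 4 * g ^ 2 := by rw [sq_abs]; ring
  have h3 : 0 ≤ |x| * |2 * g| := by positivity
  nlinarith

end Defb

open Defb in
theorem s_defb (h1 : S_WPC) (h2 : S_PAIR) : S_DEFB := by
  intro M _ _ _ _ N C W κ hW hκ hPt hcv hPo l u v hl hu hv hdu hdv hDu hDv hmu hmv hnu hnv huv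
  have hcv' : CurvGE C (2 * (1 / 12 * κ)) := by
    have e : 2 * (1 / 12 * κ) = κ / 6 := by ring
    rw [e]
    exact hcv
  have hW1 := h1 M N C W κ (1 / 12) hW hκ (by norm_num) hPt hcv'
  have Hu : Har C W l u := ⟨hu, hdu, hDu, hmu⟩
  have Hv : Har C W l v := ⟨hv, hdv, hDv, hmv⟩
  have hl1 : l = 1 ∨ l = -1 := by
    have h3 : (l - 1) * (l + 1) = 0 := by linear_combination hl
    rcases mul_eq_zero.1 h3 with h | h
    · exact Or.inl (by linarith)
    · exact Or.inr (by linarith)
  -- energy bound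
  have hen : ∀ w : Fk N C.A, Har C W l w → nq C w = 1 → en C w ≤ 4 * (1 / 12 * κ) := by
    intro w hw hn
    have h3 : (-(4 * (1 / 12 * κ))) * nq C w ≤ ig C (ric C.F w) := by
      unfold nq
      rw [← ig_smul]
      refine ig_mono C fun q => ?_
      rw [ev_smul]
      obtain ⟨⟨a, b, ha, hb, _, hpa, hpb⟩, _⟩ := hW1 q
      have h0 : 0 ≤ C.ev q (ip w w) := by rw [ev_ip]; exact ip_self_nonneg _
      rcases hl1 with h | h
      · have h4 := hpa w hw.hor hw.deg (by rw [hw.eig, h, one_smul])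
        nlinarith
      · have h4 := hpb w hw.hor hw.deg (by rw [hw.eig, h, neg_smul, one_smul])
        nlinarith
    rw [hn, ig_ric C hw] at h3
    linarith
  -- the rotated pair
  have hs2 : (√2 : ℝ) ^ 2 = 2 := Real.sq_sqrt (by norm_num)
  have hs0 : (√2 : ℝ) ≠ 0 := by positivity
  set c2 : ℝ := 1 / √2 with hc2
  have hcc : c2 * c2 = 1 / 2 := by
    rw [hc2]
    field_simp
    rw [hs2]
  have Hw : Har C W l (c2 • (u + v)) := (Hu.add C Hv).smul C c2
  have Hw' : Har C W l (c2 • (u + (-1 : ℝ) • v)) := (Hu.add C (Hv.smul C (-1))).smul C c2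
  have hnw : nq C (c2 • (u + v)) = 1 := by
    rw [nq_smul, nq_add, hnu, hnv, huv, pow_two, hcc]
    norm_num
  have hnw' : nq C (c2 • (u + (-1 : ℝ) • v)) = 1 := by
    rw [nq_smul, nq_add, hnu, nq_smul, hnv, pr_smul_right, huv, pow_two, hcc]
    norm_num
  have hip : ∀ q, C.ev q (ip (c2 • (u + v)) (c2 • (u + v))) -
      C.ev q (ip (c2 • (u + (-1 : ℝ) • v)) (c2 • (u + (-1 : ℝ) • v))) = 2 * C.ev q (ip u v) := by
    intro q
    have e1 : (-1 : ℝ) • v = -v := by rw [neg_smul, one_smul]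
    rw [e1, ← sub_eq_add_neg, ip_smulR, ip_smulR', ip_smulR, ip_smulR', ev_smul, ev_smul, ev_smul,
      ev_smul, ip_add_left, ip_add_right, ip_add_right, ip_sub_left, ip_sub_right, ip_sub_right,
      ip_comm v u, map_add, map_add, map_add, map_sub, map_sub, map_sub]
    linear_combination (4 * C.ev q (ip u v)) * hcc
  have p1 := h2 M N C W κ (1 / 12) hW hκ (by norm_num) (by norm_num) hPt hPo l u v hl hu hv hdu hdv
    hDu hDv hmu hmv hnu hnv (hen u Hu hnu) (hen v Hv hnv)
  have p2 := h2 M N C W κ (1 / 12) hW hκ (by norm_num) (by norm_num) hPt hPo l _ _ hl Hw.hor Hw'.hor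
    Hw.deg Hw'.deg Hw.dir Hw'.dir Hw.eig Hw'.eig hnw hnw' (hen _ Hw hnw) (hen _ Hw' hnw')
  have e2 : ∫ q, |C.ev q (ip (c2 • (u + v)) (c2 • (u + v))) -
      C.ev q (ip (c2 • (u + (-1 : ℝ) • v)) (c2 • (u + (-1 : ℝ) • v)))| ∂C.μ =
      ∫ q, |2 * C.ev q (ip u v)| ∂C.μ := by
    congr 1
    funext q
    rw [hip q]
  rw [e2] at p2
  set s : ℝ := √(8 / 3 * (1 / 12) * (4 - 8 / 3 * (1 / 12))) with hs
  have hsb : 13 * s < 12 := by
    have h5 : s < 12 / 13 := by
      rw [hs, Real.sqrt_lt' (by norm_num)]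
      norm_num
    linarith
  -- continuity
  have cA : Continuous fun q => C.ev q (ip u u) - C.ev q (ip v v) := (C.cont _).sub (C.cont _)
  have cB : Continuous fun q => C.ev q (ip u v) := C.cont _
  have i1 : Integrable (fun q => |C.ev q (ip u u) - C.ev q (ip v v)|) C.μ := int_cont C cA.abs
  have i2 : Integrable (fun q => |2 * C.ev q (ip u v)|) C.μ := int_cont C (cB.const_mul 2).abs
  have i3 : Integrable (fun q => √((C.ev q (ip u u) - C.ev q (ip v v)) ^ 2 +
      4 * C.ev q (ip u v) ^ 2)) C.μ :=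
    int_cont C (((cA.pow 2).add ((cB.pow 2).const_mul 4)).sqrt)
  have hI : ∫ q, √((C.ev q (ip u u) - C.ev q (ip v v)) ^ 2 + 4 * C.ev q (ip u v) ^ 2) ∂C.μ ≤
      s + s := by
    calc ∫ q, √((C.ev q (ip u u) - C.ev q (ip v v)) ^ 2 + 4 * C.ev q (ip u v) ^ 2) ∂C.μ
        ≤ ∫ q, (|C.ev q (ip u u) - C.ev q (ip v v)| + |2 * C.ev q (ip u v)|) ∂C.μ :=
          integral_mono i3 (i1.add i2) fun q => sqrt_le _ _
      _ = ∫ q, |C.ev q (ip u u) - C.ev q (ip v v)| ∂C.μ + ∫ q, |2 * C.ev q (ip u v)| ∂C.μ :=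
          integral_add i1 i2
      _ ≤ s + s := add_le_add p1 p2
  have hJ : 4 * κ * (ig C (ip u u) + ig C (ip v v)) - 4 * κ * (1 + 1 / 12) *
      ∫ q, √((C.ev q (ip u u) - C.ev q (ip v v)) ^ 2 + 4 * C.ev q (ip u v) ^ 2) ∂C.μ ≤
      ig C (ric C.F u) + ig C (ric C.F v) := by
    unfold ig
    rw [← integral_add (int_ev C _) (int_ev C _), ← integral_add (int_ev C _) (int_ev C _),
      ← integral_const_mul, ← integral_const_mul, ← integral_sub]
    · refine integral_mono ?_ ((int_ev C _).add (int_ev C _)) fun q => ?_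
      · exact (((int_ev C _).add (int_ev C _)).const_mul _).sub (i3.const_mul _)
      · exact (hW1 q).2 l hl u v hu hv hdu hdv hmu hmv
    · exact ((int_ev C _).add (int_ev C _)).const_mul _
    · exact i3.const_mul _
  have hnu' : ig C (ip u u) = 1 := hnu
  have hnv' : ig C (ip v v) = 1 := hnv
  rw [hnu', hnv', ig_ric C Hu, ig_ric C Hv] at hJ
  have h6 := en_nonneg C u
  have h7 := en_nonneg C v
  set Jt := ∫ q, √((C.ev q (ip u u) - C.ev q (ip v v)) ^ 2 + 4 * C.ev q (ip u v) ^ 2) ∂C.μ with hJt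
  have h8 : 4 * κ * (1 + 1 / 12) * Jt ≤ 4 * κ * (1 + 1 / 12) * (s + s) :=
    mul_le_mul_of_nonneg_left hI (by positivity)
  have h9 : 4 * κ * (1 + 1) ≤ 4 * κ * (1 + 1 / 12) * (s + s) := by linarith
  have h10 : 4 * κ * (1 + 1 / 12) * (s + s) = 2 * κ / 3 * (13 * s) := by ring
  rw [h10] at h9
  have h11 : 2 * κ / 3 * (13 * s) < 2 * κ / 3 * 12 := mul_lt_mul_of_pos_left hsb (by positivity)
  linarith

end Pool.Agent.H781.DF
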