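import Pool.Agent.H781.DF.A
import Pool.Agent.H781.CM.Base
import Pool.Agent.H781.CM.Bo

/-!
Project DF: energy inequality for the square root of the length of a harmonic form.
-/

set_option autoImplicit false
set_option synthInstance.maxHeartbeats 400000
set_option maxHeartbeats 4000000
set_option linter.unusedSectionVars false

open MeasureTheory Filter
open scoped Topology ContDiff

noncomputable section

namespace Pool.Agent.H781.DF

open Pool.Agent.H781.NG Pool.Agent.H781.CM Pool.Agent.H781.H6 Pool.Agent.H781.KP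

namespace Ken

section alg

variable {N : ℕ} {A : Type*} [CommRing A] [Algebra ℝ A] (F : Fr N A)

theorem nab_smul (a : Fin N) (g : A) (u : Fk N A) :
    nab F a (g • u) = F.e a g • u + g • nab F a u := by
  rw [Boch.nab_def, Boch.nab_def, Boch.ee_smul, Boch.gam_smul, smul_add, add_assoc]

theorem ric_smul (g : A) (u : Fk N A) : ric F (g • u) = g ^ 2 * ric F u := by
  unfold ric
  simp only [map_smul, ip_smul_left, ip_smul_right]
  rw [mul_neg, neg_inj]
  simp only [Finset.mul_sum]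
  refine Finset.sum_congr rfl fun a _ => Finset.sum_congr rfl fun b _ =>
    Finset.sum_congr rfl fun c _ => Finset.sum_congr rfl fun d _ => ?_
  ring

theorem ip_comb (x y : A) (h k : Fk N A) :
    ip (x • h + y • k) (x • h + y • k) =
      x ^ 2 * ip h h + 2 * x * y * ip k h + y ^ 2 * ip k k := by
  simp only [ip_add_left, ip_add_right, ip_smul_left, ip_smul_right]
  rw [ip_comm h k]
  ring

theorem e_self (a : Fin N) (h : Fk N A) : F.e a (ip h h) = 2 * ip (nab F a h) h := by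
  rw [Boch.e_ip, ip_comm h (nab F a h)]
  ring

end alg

variable {M : Type} [TopologicalSpace M] [CompactSpace M] [MeasurableSpace M] [BorelSpace M]
  {N : ℕ} (C : CD M N)

theorem hor_smul {u : Fk N C.A} (hu : Hor C u) (g : C.A) : Hor C (g • u) := by
  intro c
  rw [map_smul, hu c, Finset.smul_sum]
  refine Finset.sum_congr rfl fun a _ => ?_
  rw [map_smul, smul_comm]

/-- the density in the first variation of the Bochner formula -/
def Z (ψ : C.A) (h : Fk N C.A) (a : Fin N) : C.A :=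
  C.F.e a ψ * ip (nab C.F a h) h + ψ * ip (nab C.F a h) (nab C.F a h)

theorem four (f : C.A) : ig C (f + f + (f + f)) = 4 * ig C f := by
  rw [ig_add, ig_add]
  ring

/-- the Bochner formula, tested with `ψ h` -/
theorem key (h2 : S_DDH) (h : Fk N C.A) (hH : Hor C h) (hD : DD C h = 0) (ψ : C.A) :
    ∑ a, ig C (Z C ψ h a) + ig C (ψ * ric C.F h) = 0 := by
  obtain ⟨_, _, _, _, _, _, _, _, _, _, _, hN, _⟩ := h2 M N C
  have e1 : (1 + ψ) • h = h + ψ • h := by rw [add_smul, one_smul]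
  have e2 : (1 - ψ) • h = h - ψ • h := by rw [sub_smul, one_smul]
  have n1 : nq C (DD C ((1 + ψ) • h)) = nq C (DD C (ψ • h)) := by
    rw [e1, ← DDL_apply, map_add, DDL_apply, DDL_apply, hD, zero_add]
  have n2 : nq C (DD C ((1 - ψ) • h)) = nq C (DD C (ψ • h)) := by
    rw [e2, ← DDL_apply, map_sub, DDL_apply, DDL_apply, hD, zero_sub, nq_neg]
  have b1 := bochner C ((1 + ψ) • h)
  have b2 := bochner C ((1 - ψ) • h)
  rw [← hN _ (hor_smul C hH _), n1, ric_smul] at b1
  rw [← hN _ (hor_smul C hH _), n2, ric_smul] at b2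
  have r1 : ig C ((1 + ψ) ^ 2 * ric C.F h) =
      ig C ((1 - ψ) ^ 2 * ric C.F h) + 4 * ig C (ψ * ric C.F h) := by
    have : (1 + ψ) ^ 2 * ric C.F h = (1 - ψ) ^ 2 * ric C.F h + (ψ * ric C.F h +
      ψ * ric C.F h + (ψ * ric C.F h + ψ * ric C.F h)) := by ring
    rw [this, ig_add, four]
  have r2 : en C ((1 + ψ) • h) = en C ((1 - ψ) • h) + 4 * ∑ a, ig C (Z C ψ h a) := by
    unfold en
    rw [Finset.mul_sum, ← Finset.sum_add_distrib]
    refine Finset.sum_congr rfl fun a _ => ?_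
    unfold nq
    have d1 : C.F.e a (1 + ψ) = C.F.e a ψ := by
      rw [map_add, Derivation.map_one_eq_zero, zero_add]
    have d2 : C.F.e a (1 - ψ) = - C.F.e a ψ := by
      rw [map_sub, Derivation.map_one_eq_zero, zero_sub]
    rw [nab_smul, nab_smul, ip_comb, ip_comb, d1, d2]
    have : (C.F.e a ψ) ^ 2 * ip h h + 2 * C.F.e a ψ * (1 + ψ) * ip (nab C.F a h) h +
        (1 + ψ) ^ 2 * ip (nab C.F a h) (nab C.F a h) =
        (- C.F.e a ψ) ^ 2 * ip h h + 2 * (- C.F.e a ψ) * (1 - ψ) * ip (nab C.F a h) h +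
        (1 - ψ) ^ 2 * ip (nab C.F a h) (nab C.F a h) + (Z C ψ h a + Z C ψ h a +
          (Z C ψ h a + Z C ψ h a)) := by
      unfold Z
      ring
    rw [this, ig_add C _ (Z C ψ h a + Z C ψ h a + (Z C ψ h a + Z C ψ h a)), four]
  rw [r1, r2] at b1
  linarith

/-- the pointwise inequality -/
theorem pt {X Y e x : Fin N → ℝ} {f δ F P : ℝ} (_hf : 0 ≤ f) (hδ : 0 < δ) (hF : 0 < F)
    (h4 : F ^ 4 = f + δ) (hP : P * F ^ 2 = 1) (hx : ∀ a, 4 * F ^ 3 * x a = 2 * X a)
    (he : ∀ a, e a * F ^ 2 + P * (2 * F * x a) = 0) (hY : ∀ a, 0 ≤ Y a)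
    (hK : 3 * ∑ a, X a ^ 2 ≤ 2 * (f * ∑ a, Y a)) :
    2 * ∑ a, x a * x a ≤ ∑ a, (e a * X a + P * Y a) := by
  have hX : ∀ a, X a = 2 * F ^ 3 * x a := fun a => by
    have := hx a
    linarith
  have hPp : 0 < P := by
    by_contra hn
    have : P * F ^ 2 ≤ 0 := mul_nonpos_of_nonpos_of_nonneg (not_lt.1 hn) (by positivity)
    linarith
  have hee : ∀ a, e a * F ^ 3 = - 2 * x a := fun a => by
    have h3 : e a * F ^ 3 + 2 * x a * (P * F ^ 2) = 0 := by
      calc e a * F ^ 3 + 2 * x a * (P * F ^ 2) = (e a * F ^ 2 + P * (2 * F * x a)) * F := by ring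
        _ = 0 := by rw [he a, zero_mul]
    rw [hP] at h3
    linarith
  have h1 : ∑ a, e a * X a = - 4 * ∑ a, x a * x a := by
    rw [Finset.mul_sum]
    refine Finset.sum_congr rfl fun a _ => ?_
    rw [hX a]
    have := hee a
    calc e a * (2 * F ^ 3 * x a) = 2 * x a * (e a * F ^ 3) := by ring
      _ = -4 * (x a * x a) := by rw [this]; ring
  have h2 : ∑ a, X a ^ 2 = 4 * F ^ 6 * ∑ a, x a * x a := by
    rw [Finset.mul_sum]
    refine Finset.sum_congr rfl fun a _ => ?_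
    rw [hX a]
    ring
  have hY0 : 0 ≤ ∑ a, Y a := Finset.sum_nonneg fun a _ => hY a
  have h3 : f * ∑ a, Y a ≤ F ^ 4 * ∑ a, Y a :=
    mul_le_mul_of_nonneg_right (by linarith) hY0
  have h5 : 6 * ∑ a, x a * x a ≤ P * ∑ a, Y a := by
    have h6 : 0 < F ^ 6 := by positivity
    have h7 : F ^ 6 * (6 * ∑ a, x a * x a) ≤ F ^ 6 * (P * ∑ a, Y a) := by
      have h8 : F ^ 6 * (P * ∑ a, Y a) = F ^ 4 * (P * F ^ 2) * ∑ a, Y a := by ring
      rw [h8, hP, mul_one]
      rw [h2] at hK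
      nlinarith
    exact le_of_mul_le_mul_left h7 h6
  rw [Finset.sum_add_distrib, h1, ← Finset.mul_sum]
  linarith

/-- the two functions -/
theorem fns (f : C.A) (hf : ∀ q, 0 ≤ C.ev q f) (δ : ℝ) (hδ : 0 < δ) : ∃ φ ψ : C.A,
    ∀ q, 0 < C.ev q φ ∧ C.ev q φ ^ 4 = C.ev q f + δ ∧ C.ev q ψ * C.ev q φ ^ 2 = 1 := by
  have hU : IsOpen (Set.Ioi (-δ)) := isOpen_Ioi
  have hfU : ∀ q, C.ev q f ∈ Set.Ioi (-δ) := fun q => by
    have := hf q
    rw [Set.mem_Ioi]
    linarith
  have c0 : ContDiffOn ℝ ∞ (fun t : ℝ => t + δ) (Set.Ioi (-δ)) :=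
    (contDiff_id.add contDiff_const).contDiffOn
  have c1 : ContDiffOn ℝ ∞ (fun t : ℝ => √(t + δ)) (Set.Ioi (-δ)) :=
    c0.sqrt fun t ht => by
      rw [Set.mem_Ioi] at ht
      linarith
  have s1 : ∀ t ∈ Set.Ioi (-δ), √(t + δ) ≠ 0 := fun t ht => by
    rw [Set.mem_Ioi] at ht
    exact (Real.sqrt_pos.2 (by linarith)).ne'
  have c2 : ContDiffOn ℝ ∞ (fun t : ℝ => √(√(t + δ))) (Set.Ioi (-δ)) := c1.sqrt s1
  have c3 : ContDiffOn ℝ ∞ (fun t : ℝ => (√(t + δ))⁻¹) (Set.Ioi (-δ)) := c1.inv s1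
  obtain ⟨φ, hφ⟩ := C.comp f _ _ hU c2 hfU
  obtain ⟨ψ, hψ⟩ := C.comp f _ _ hU c3 hfU
  refine ⟨φ, ψ, fun q => ?_⟩
  have h1 : 0 < C.ev q f + δ := by
    have := hf q
    linarith
  have h2 : 0 < √(C.ev q f + δ) := Real.sqrt_pos.2 h1
  have h3 : 0 < √(√(C.ev q f + δ)) := Real.sqrt_pos.2 h2
  have h4 : √(√(C.ev q f + δ)) ^ 2 = √(C.ev q f + δ) := Real.sq_sqrt h2.le
  rw [hφ q, hψ q]
  refine ⟨h3, ?_, ?_⟩
  · calc √(√(C.ev q f + δ)) ^ 4 = (√(√(C.ev q f + δ)) ^ 2) ^ 2 := by ring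
      _ = C.ev q f + δ := by rw [h4, Real.sq_sqrt h1.le]
  · rw [h4]
    exact inv_mul_cancel₀ h2.ne'

end Ken

open Ken in
/-- energy inequality for the square root of the length of a harmonic form -/
theorem s_ken (h1 : S_KTC) (h2 : S_DDH) : S_KEN := by
  intro M _ _ _ _ N C W κ hW hPt l h hl hH hdeg hD hWh δ hδ
  have hde : de C.F h = 0 := by
    obtain ⟨_, _, _, _, _, _, _, _, _, _, _, hN, _⟩ := h2 M N C
    have e1 := hN h hH
    have e2 : nq C (DD C h) = 0 := by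
      rw [hD, ← pr_self, pr_zero_left]
    have e3 := nq_nonneg C (dd C.F h)
    have e4 := nq_nonneg C (de C.F h)
    exact nq_eq_zero C (by linarith)
  have hf : ∀ q, 0 ≤ C.ev q (ip h h) := fun q => by
    rw [ev_ip]
    exact ip_self_nonneg _
  obtain ⟨φ, ψ, hφ⟩ := fns C (ip h h) hf δ hδ
  refine ⟨φ, ψ, hφ, ?_⟩
  have hk := key C h2 h hH hD ψ
  -- identities in the algebra
  have i1 : φ ^ 4 = ip h h + cs C δ := C.ext_ev _ _ fun q => by
    rw [map_pow, map_add, ev_cs]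
    exact (hφ q).2.1
  have i2 : ψ * φ ^ 2 = 1 := C.ext_ev _ _ fun q => by
    rw [map_mul, map_pow, map_one]
    exact (hφ q).2.2
  have d1 : ∀ a, 4 * φ ^ 3 * C.F.e a φ = 2 * ip (nab C.F a h) h := fun a => by
    have e1 : C.F.e a (φ ^ 4) = C.F.e a (ip h h + cs C δ) := by rw [i1]
    have e2 : C.F.e a (cs C δ) = 0 := Derivation.map_algebraMap _ _
    rw [map_add, e2, add_zero, e_self, Derivation.leibniz_pow] at e1
    rw [← e1]
    simp only [smul_eq_mul, nsmul_eq_mul]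
    push_cast
    ring
  have d2 : ∀ a, C.F.e a ψ * φ ^ 2 + ψ * (2 * φ * C.F.e a φ) = 0 := fun a => by
    have e1 : C.F.e a (ψ * φ ^ 2) = C.F.e a 1 := by rw [i2]
    rw [Derivation.map_one_eq_zero, Derivation.leibniz, Derivation.leibniz_pow] at e1
    rw [← e1]
    simp only [smul_eq_mul, nsmul_eq_mul]
    push_cast
    ring
  have hpt : ∀ q, C.ev q (gsq C φ + gsq C φ) ≤ C.ev q (∑ a, Z C ψ h a) := fun q => by
    have hK := h1 M N C W κ hW hPt l h hl hH hdeg hde hWh q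
    have key2 := pt (X := fun a => C.ev q (ip (nab C.F a h) h))
      (Y := fun a => C.ev q (ip (nab C.F a h) (nab C.F a h)))
      (e := fun a => C.ev q (C.F.e a ψ)) (x := fun a => C.ev q (C.F.e a φ))
      (hf q) hδ (hφ q).1 (hφ q).2.1 (hφ q).2.2
      (fun a => by
        have := congrArg (C.ev q) (d1 a)
        simp only [map_mul, map_pow, map_ofNat] at this
        exact this)
      (fun a => by
        have := congrArg (C.ev q) (d2 a)
        simp only [map_mul, map_pow, map_ofNat, map_add, map_zero] at this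
        exact this)
      (fun a => by
        rw [ev_ip]
        exact ip_self_nonneg _)
      hK
    have l1 : C.ev q (gsq C φ) = ∑ a, C.ev q (C.F.e a φ) * C.ev q (C.F.e a φ) := by
      unfold gsq
      rw [ev_sum]
      refine Finset.sum_congr rfl fun a _ => ?_
      rw [map_mul]
    have l2 : C.ev q (∑ a, Z C ψ h a) = ∑ a, (C.ev q (C.F.e a ψ) *
        C.ev q (ip (nab C.F a h) h) + C.ev q ψ * C.ev q (ip (nab C.F a h) (nab C.F a h))) := by
      rw [ev_sum]
      refine Finset.sum_congr rfl fun a _ => ?_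
      unfold Z
      rw [map_add, map_mul, map_mul]
    rw [map_add, l1, l2]
    linarith
  have hi := ig_mono C hpt
  rw [ig_add, ig_sum] at hi
  linarith

end Pool.Agent.H781.DF
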