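import Pool.Agent.H781.DF.A

/-! Project DF: the refined Kato inequality, algebraic version (`S_KT`). -/

set_option autoImplicit false
set_option synthInstance.maxHeartbeats 400000
set_option maxHeartbeats 4000000
set_option linter.unusedSectionVars false

open MeasureTheory Filter
open scoped Topology ContDiff

noncomputable section

namespace Pool.Agent.H781.DF

open Pool.Agent.H781.NG Pool.Agent.H781.CM Pool.Agent.H781.H6 Pool.Agent.H781.KP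

namespace Kt

theorem key (l n x0 x1 x2 t00 t01 t02 t10 t11 t12 t20 t21 t22 t30 t31 t32 y0 y1 y2 y3
    w0 w1 w2 w3 : ℝ) (hl : l = 1 ∨ l = -1) (hn : n = x0 ^ 2 + x1 ^ 2 + x2 ^ 2)
    (hy0 : y0 = x0 * t00 + x1 * t01 + x2 * t02) (hy1 : y1 = x0 * t10 + x1 * t11 + x2 * t12)
    (hy2 : y2 = x0 * t20 + x1 * t21 + x2 * t22) (hy3 : y3 = x0 * t30 + x1 * t31 + x2 * t32)
    (hw0 : w0 = x0 * y1 + x1 * y2 + x2 * y3) (hw1 : w1 = -x0 * y0 - l * x2 * y2 + l * x1 * y3)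
    (hw2 : w2 = -x1 * y0 + l * x2 * y1 - l * x0 * y3)
    (hw3 : w3 = -x2 * y0 - l * x1 * y1 + l * x0 * y2)
    (e0 : t10 + t21 + t32 = 0) (e1 : t00 + l * t22 - l * t31 = 0)
    (e2 : t01 - l * t12 + l * t30 = 0) (e3 : t02 + l * t11 - l * t20 = 0) :
    0 ≤ n * (2 * (n * (t00 ^ 2 + t01 ^ 2 + t02 ^ 2 + t10 ^ 2 + t11 ^ 2 + t12 ^ 2 + t20 ^ 2 +
      t21 ^ 2 + t22 ^ 2 + t30 ^ 2 + t31 ^ 2 + t32 ^ 2)) -
      3 * (y0 ^ 2 + y1 ^ 2 + y2 ^ 2 + y3 ^ 2)) := by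
  have hw : w0 ^ 2 + w1 ^ 2 + w2 ^ 2 + w3 ^ 2 = n * (y0 ^ 2 + y1 ^ 2 + y2 ^ 2 + y3 ^ 2) := by
    rw [hw0, hw1, hw2, hw3, hn]
    rcases hl with rfl | rfl <;> ring
  have hl2 : l ^ 2 = 1 := by
    rcases hl with rfl | rfl <;> norm_num
  have hs : (2 * n * t00 - 3 * x0 * y0 - w1) ^ 2 + (2 * n * t10 - 3 * x0 * y1 + w0) ^ 2 +
      (2 * n * t20 - 3 * x0 * y2 + l * w3) ^ 2 + (2 * n * t30 - 3 * x0 * y3 - l * w2) ^ 2 +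
      ((2 * n * t01 - 3 * x1 * y0 - w2) ^ 2 + (2 * n * t11 - 3 * x1 * y1 - l * w3) ^ 2 +
      (2 * n * t21 - 3 * x1 * y2 + w0) ^ 2 + (2 * n * t31 - 3 * x1 * y3 + l * w1) ^ 2) +
      ((2 * n * t02 - 3 * x2 * y0 - w3) ^ 2 + (2 * n * t12 - 3 * x2 * y1 + l * w2) ^ 2 +
      (2 * n * t22 - 3 * x2 * y2 - l * w1) ^ 2 + (2 * n * t32 - 3 * x2 * y3 + w0) ^ 2) =
      4 * n ^ 2 * (t00 ^ 2 + t01 ^ 2 + t02 ^ 2 + t10 ^ 2 + t11 ^ 2 + t12 ^ 2 + t20 ^ 2 +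
      t21 ^ 2 + t22 ^ 2 + t30 ^ 2 + t31 ^ 2 + t32 ^ 2) -
      3 * n * (y0 ^ 2 + y1 ^ 2 + y2 ^ 2 + y3 ^ 2) - 3 * (w0 ^ 2 + w1 ^ 2 + w2 ^ 2 + w3 ^ 2) := by
    linear_combination (-9 * (y0 ^ 2 + y1 ^ 2 + y2 ^ 2 + y3 ^ 2)) * hn + 12 * n * y0 * hy0 +
      12 * n * y1 * hy1 + 12 * n * y2 * hy2 + 12 * n * y3 * hy3 +
      2 * (w1 ^ 2 + w2 ^ 2 + w3 ^ 2) * hl2 - 4 * n * w1 * e1 - 4 * n * w2 * e2 -
      4 * n * w3 * e3 + 4 * n * w0 * e0 + 6 * w0 * hw0 + 6 * w1 * hw1 + 6 * w2 * hw2 + 6 * w3 * hw3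
  have h0 : 0 ≤ (2 * n * t00 - 3 * x0 * y0 - w1) ^ 2 + (2 * n * t10 - 3 * x0 * y1 + w0) ^ 2 +
      (2 * n * t20 - 3 * x0 * y2 + l * w3) ^ 2 + (2 * n * t30 - 3 * x0 * y3 - l * w2) ^ 2 +
      ((2 * n * t01 - 3 * x1 * y0 - w2) ^ 2 + (2 * n * t11 - 3 * x1 * y1 - l * w3) ^ 2 +
      (2 * n * t21 - 3 * x1 * y2 + w0) ^ 2 + (2 * n * t31 - 3 * x1 * y3 + l * w1) ^ 2) +
      ((2 * n * t02 - 3 * x2 * y0 - w3) ^ 2 + (2 * n * t12 - 3 * x2 * y1 + l * w2) ^ 2 +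
      (2 * n * t22 - 3 * x2 * y2 - l * w1) ^ 2 + (2 * n * t32 - 3 * x2 * y3 + w0) ^ 2) := by
    positivity
  rw [hs, hw] at h0
  linarith

theorem real (l : ℝ) (x : Fin 3 → ℝ) (t : Fin 4 → Fin 3 → ℝ) (hl : l ^ 2 = 1)
    (e0 : t 1 0 + t 2 1 + t 3 2 = 0) (e1 : t 0 0 + l * t 2 2 - l * t 3 1 = 0)
    (e2 : t 0 1 - l * t 1 2 + l * t 3 0 = 0) (e3 : t 0 2 + l * t 1 1 - l * t 2 0 = 0) :
    3 * ∑ i : Fin 4, (∑ j : Fin 3, t i j * x j) ^ 2 ≤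
      2 * ((∑ j : Fin 3, x j * x j) * ∑ i : Fin 4, ∑ j : Fin 3, t i j * t i j) := by
  have hl' : l = 1 ∨ l = -1 := by
    have h : (l - 1) * (l + 1) = 0 := by linear_combination hl
    rcases mul_eq_zero.mp h with h | h
    · exact Or.inl (by linarith)
    · exact Or.inr (by linarith)
  have hk := Kt.key l (x 0 ^ 2 + x 1 ^ 2 + x 2 ^ 2) (x 0) (x 1) (x 2) (t 0 0) (t 0 1) (t 0 2)
    (t 1 0) (t 1 1) (t 1 2) (t 2 0) (t 2 1) (t 2 2) (t 3 0) (t 3 1) (t 3 2) _ _ _ _ _ _ _ _ hl' rfl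
    rfl rfl rfl rfl rfl rfl rfl rfl e0 e1 e2 e3
  have hL : ∑ i : Fin 4, (∑ j : Fin 3, t i j * x j) ^ 2 =
      (x 0 * t 0 0 + x 1 * t 0 1 + x 2 * t 0 2) ^ 2 + (x 0 * t 1 0 + x 1 * t 1 1 + x 2 * t 1 2) ^ 2 +
      (x 0 * t 2 0 + x 1 * t 2 1 + x 2 * t 2 2) ^ 2 +
      (x 0 * t 3 0 + x 1 * t 3 1 + x 2 * t 3 2) ^ 2 := by
    simp only [Fin.sum_univ_four, Fin.sum_univ_three]
    ring
  have hT : ∑ i : Fin 4, ∑ j : Fin 3, t i j * t i j = t 0 0 ^ 2 + t 0 1 ^ 2 + t 0 2 ^ 2 +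
      t 1 0 ^ 2 + t 1 1 ^ 2 + t 1 2 ^ 2 + t 2 0 ^ 2 + t 2 1 ^ 2 + t 2 2 ^ 2 + t 3 0 ^ 2 +
      t 3 1 ^ 2 + t 3 2 ^ 2 := by
    simp only [Fin.sum_univ_four, Fin.sum_univ_three]
    ring
  have hX : ∑ j : Fin 3, x j * x j = x 0 ^ 2 + x 1 ^ 2 + x 2 ^ 2 := by
    simp only [Fin.sum_univ_three]
    ring
  rw [hL, hT, hX]
  rcases eq_or_lt_of_le (by positivity : 0 ≤ x 0 ^ 2 + x 1 ^ 2 + x 2 ^ 2) with hn | hn
  · have b0 : x 0 ^ 2 = 0 :=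
      le_antisymm (by linarith [sq_nonneg (x 1), sq_nonneg (x 2)]) (sq_nonneg _)
    have b1 : x 1 ^ 2 = 0 :=
      le_antisymm (by linarith [sq_nonneg (x 0), sq_nonneg (x 2)]) (sq_nonneg _)
    have b2 : x 2 ^ 2 = 0 :=
      le_antisymm (by linarith [sq_nonneg (x 0), sq_nonneg (x 1)]) (sq_nonneg _)
    have a0 : x 0 = 0 := (pow_eq_zero_iff two_ne_zero).mp b0
    have a1 : x 1 = 0 := (pow_eq_zero_iff two_ne_zero).mp b1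
    have a2 : x 2 = 0 := (pow_eq_zero_iff two_ne_zero).mp b2
    simp [a0, a1, a2]
  · have hk' := nonneg_of_mul_nonneg_right hk hn
    exact sub_nonneg.mp hk'

end Kt

theorem s_kt (h1 : S_SD) : S_KT := by
  intro l h T hl hh hT hlh hlT hsum
  obtain ⟨hA, hB, hC⟩ := h1 l hl
  obtain ⟨x, rfl⟩ := hA h hh hlh
  have hex : ∀ i, ∃ y, T i = sd l y := fun i => hA (T i) (hT i) (hlT i)
  choose t ht using hex
  have hs2 : ∑ a, an a (sd l (t a)) = 0 := by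
    rw [← hsum]
    exact Finset.sum_congr rfl fun i _ => by rw [ht i]
  obtain ⟨e0, e1, e2, e3⟩ := hC t hs2
  have a1 : ∑ i, ip (T i) (sd l x) ^ 2 = ∑ i : Fin 4, (∑ j : Fin 3, t i j * x j) ^ 2 :=
    Finset.sum_congr rfl fun i _ => by rw [ht i, hB]
  have a2 : ∑ i, ip (T i) (T i) = ∑ i : Fin 4, ∑ j : Fin 3, t i j * t i j :=
    Finset.sum_congr rfl fun i _ => by rw [ht i, hB]
  rw [a1, a2, hB]
  exact Kt.real l x t hl e0 e1 e2 e3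

end Pool.Agent.H781.DF

end
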