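import Pool.Agent.H781.DF.A
import Pool.Agent.H781.CM.Base
import Pool.Agent.H781.CM.Ddh

/-!
Project DF: the refined Kato inequality on the manifold (`S_KTC`).
-/

set_option autoImplicit false
set_option synthInstance.maxHeartbeats 400000
set_option maxHeartbeats 4000000
set_option linter.unusedSectionVars false

open MeasureTheory Filter
open scoped Topology ContDiff

noncomputable section

namespace Pool.Agent.H781.DF

open Pool.Agent.H781.NG Pool.Agent.H781.CM Pool.Agent.H781.H6 Pool.Agent.H781.KP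

namespace Ktc

section alg

variable {m : ℕ}

theorem add_r (u v w : Fk m ℝ) : mulF u (v + w) = mulF u v + mulF u w := by
  funext R
  simp only [mulF, Pi.add_apply]
  rw [← Finset.sum_add_distrib]
  exact Finset.sum_congr rfl fun S _ => by ring

theorem smul_r (c : ℝ) (u v : Fk m ℝ) : mulF u (c • v) = c • mulF u v := by
  funext R
  simp only [mulF, Pi.smul_apply, smul_eq_mul]
  rw [Finset.mul_sum]
  exact Finset.sum_congr rfl fun S _ => by ring

theorem smul_l (c : ℝ) (u v : Fk m ℝ) : mulF (c • u) v = c • mulF u v := by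
  funext R
  simp only [mulF, Pi.smul_apply, smul_eq_mul]
  rw [Finset.mul_sum]
  exact Finset.sum_congr rfl fun S _ => by ring

theorem zero_r (u : Fk m ℝ) : mulF u 0 = 0 := by
  funext R
  simp [mulF]

theorem sum_r {ι : Type} (s : Finset ι) (u : Fk m ℝ) (f : ι → Fk m ℝ) :
    mulF u (∑ x ∈ s, f x) = ∑ x ∈ s, mulF u (f x) := by
  classical
  induction s using Finset.induction_on with
  | empty => rw [Finset.sum_empty, Finset.sum_empty, zero_r]
  | insert a s ha ih => rw [Finset.sum_insert ha, Finset.sum_insert ha, add_r, ih]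

theorem zero_l {A : Type*} [CommRing A] (v : Fk m A) : mulF (0 : Fk m A) v = 0 := by
  funext R
  simp [mulF]

end alg

section tau

variable {N n : ℕ} {b : Fin n → Fin N → ℝ} {τ : Fk n ℝ →ₗ[ℝ] Fk N ℝ}

theorem tau_inj (hτ : IsTau b τ) {s t : Fk n ℝ} (h : τ s = τ t) : s = t := by
  have e1 : NG.ip (s - t) (s - t) = 0 := by
    rw [← hτ.ip, map_sub, h, sub_self, ip_zero_left]
  exact sub_eq_zero.1 (ip_self_eq_zero e1)

/-- squares of the coordinates in an orthonormal family -/
theorem on_sum {c : ℕ} (hb : ON b) (x : Fin n → Fin c → ℝ) :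
    ∑ a, ∑ S, (∑ i, b i a * x i S) ^ 2 = ∑ i, ∑ S, x i S ^ 2 := by
  rw [Finset.sum_comm, Finset.sum_comm (f := fun i S => x i S ^ 2)]
  refine Finset.sum_congr rfl fun S _ => ?_
  have h1 : ∀ a, (∑ i, b i a * x i S) ^ 2 = ∑ i, ∑ j, x i S * x j S * (b i a * b j a) := by
    intro a
    rw [sq, Finset.sum_mul_sum]
    exact Finset.sum_congr rfl fun i _ => Finset.sum_congr rfl fun j _ => by ring
  calc ∑ a, (∑ i, b i a * x i S) ^ 2 = ∑ a, ∑ i, ∑ j, x i S * x j S * (b i a * b j a) :=
        Finset.sum_congr rfl fun a _ => h1 a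
    _ = ∑ i, ∑ a, ∑ j, x i S * x j S * (b i a * b j a) := Finset.sum_comm
    _ = ∑ i, ∑ j, ∑ a, x i S * x j S * (b i a * b j a) :=
        Finset.sum_congr rfl fun i _ => Finset.sum_comm
    _ = ∑ i, ∑ j, x i S * x j S * (if i = j then 1 else 0) := by
        refine Finset.sum_congr rfl fun i _ => Finset.sum_congr rfl fun j _ => ?_
        rw [← Finset.mul_sum, ← hb i j]
        rfl
    _ = ∑ i, x i S ^ 2 := by
        refine Finset.sum_congr rfl fun i _ => ?_
        rw [Finset.sum_eq_single i]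
        · rw [if_pos rfl]
          ring
        · intro j _ hj
          rw [if_neg (Ne.symm hj), mul_zero]
        · intro h
          exact absurd (Finset.mem_univ _) h

theorem on_sum1 (hb : ON b) (x : Fin n → ℝ) :
    ∑ a, (∑ i, b i a * x i) ^ 2 = ∑ i, x i ^ 2 := by
  have h := on_sum hb (c := 1) fun i _ => x i
  simpa using h

/-- the same for vectors of the Fock space -/
theorem on_ip (hb : ON b) {k : ℕ} (T : Fin n → Fk k ℝ) :
    ∑ a, NG.ip (∑ i, b i a • T i) (∑ i, b i a • T i) = ∑ i, NG.ip (T i) (T i) := by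
  have h1 : ∀ S : Finset (Fin k), ∑ a, (∑ i, b i a * T i S) ^ 2 = ∑ i, T i S ^ 2 :=
    fun S => on_sum1 hb fun i => T i S
  have h2 : ∀ a, NG.ip (∑ i, b i a • T i) (∑ i, b i a • T i) =
      ∑ S, (∑ i, b i a * T i S) ^ 2 := by
    intro a
    unfold NG.ip
    refine Finset.sum_congr rfl fun S _ => ?_
    rw [Finset.sum_apply, sq]
    rfl
  rw [Finset.sum_congr rfl fun a _ => h2 a, Finset.sum_comm,
    Finset.sum_congr rfl fun S _ => h1 S, Finset.sum_comm]
  refine Finset.sum_congr rfl fun i _ => ?_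
  unfold NG.ip
  exact Finset.sum_congr rfl fun S _ => sq _

end tau

/-- the values of horizontal forms are in the image of `τ` -/
theorem range {M : Type} [TopologicalSpace M] [CompactSpace M] [MeasurableSpace M]
    [BorelSpace M] {N n : ℕ} (C : CD M N) {b : Fin n → Fin N → ℝ} {τ : Fk n ℝ →ₗ[ℝ] Fk N ℝ}
    (hτ : IsTau b τ) (q : M) (hP : ∀ a c, C.ev q (C.P a c) = ∑ i, b i a * b i c)
    {u : Fk N C.A} (hu : Hor C u) : ∃ a', τ a' = evF C q u := by
  refine hτ.range _ fun c' => ?_
  rw [← evF_an, hu c', evF_sum]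
  refine Finset.sum_congr rfl fun a _ => ?_
  rw [evF_smul, evF_an, hP c' a]

/-- a form of degree four in `Λ ℝ⁴` -/
theorem deg4 {w : Fk 4 ℝ} (hw : Deg 4 w) : w = w Finset.univ • Gam 4 := by
  funext S
  show w S = w Finset.univ * (if S = Finset.univ then 1 else 0)
  split_ifs with h
  · rw [h, mul_one]
  · rw [mul_zero]
    refine hw S fun hc => h ?_
    exact (Finset.card_eq_iff_eq_univ S).1 (by rw [hc, Fintype.card_fin])

theorem ip_Gam4 : NG.ip (Gam 4) (Gam 4) = 1 := by
  unfold NG.ip Gam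
  rw [Finset.sum_eq_single Finset.univ]
  · rw [if_pos rfl, mul_one]
  · intro S _ hS
    rw [if_neg hS, mul_zero]
  · intro h
    exact absurd (Finset.mem_univ _) h

end Ktc

open Ktc in
theorem s_ktc (h1 : S_TAU) (h3 : S_TMUL) (h5 : S_KT) (h6 : S_W4) (h7 : S_CLIM) (h8 : S_DDH) :
    S_KTC := by
  intro M _ _ _ _ N C W κ hW hpt l h hl hH hD hde hWh q
  obtain ⟨b, hb, hP, -, -⟩ := hpt q
  obtain ⟨τ, hτ⟩ := h1 N 4 b hb
  obtain ⟨-, hWn, -⟩ := h6 M N C W hW
  obtain ⟨hmul, -⟩ := h7 M N C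
  obtain ⟨hnh, -, -, hnd, -⟩ := h8 M N C
  -- the vectors in `Λ ℝ⁴`
  obtain ⟨h', hh'⟩ := range C hτ q hP hH
  obtain ⟨W', hW'⟩ := range C hτ q hP hW.hor
  choose t ht using fun a => range C hτ q hP (hnh a h hH)
  have degE : ∀ (p : ℕ) (u : Fk N C.A), Deg p u → Deg p (evF C q u) := by
    intro p u hu S hS
    show C.ev q (u S) = 0
    rw [hu S hS, map_zero]
  have dh : Deg 2 h' := (hτ.deg 2 h').1 (by rw [hh']; exact degE 2 h hD)
  have dt' : ∀ a, Deg 2 (t a) := fun a => (hτ.deg 2 (t a)).1 (by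
    rw [ht]
    exact degE 2 _ (hnd 2 a h hD))
  have dW : Deg 4 W' := (hτ.deg 4 W').1 (by rw [hW']; exact degE 4 W hW.deg)
  obtain ⟨s, hs⟩ : ∃ s : ℝ, W' = s • Gam 4 := ⟨_, deg4 dW⟩
  have hs2 : s * s = 1 := by
    have e1 : NG.ip W' W' = 1 := by
      rw [← hτ.ip, hW', ← ev_ip, hW.one, map_one]
    rw [hs, ip_smul_left, ip_smul_right, ip_Gam4, mul_one] at e1
    exact e1
  -- multiplication by the volume element
  have key : ∀ (u : Fk N C.A) (u' : Fk 4 ℝ), τ u' = evF C q u → mulF W u = l • u →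
      mulF (Gam 4) u' = (s * l) • u' := by
    intro u u' hu hWu
    have e1 : τ (mulF W' u') = τ (l • u') := by
      rw [h3 N 4 b τ hτ, hW', hu, ← evF_mulF, hWu, evF_smulR, map_smul, hu]
    have e2 := tau_inj hτ e1
    rw [hs, smul_l] at e2
    have e3 : mulF (Gam 4) u' = (s * s) • mulF (Gam 4) u' := by rw [hs2, one_smul]
    rw [e3, mul_smul, e2, smul_smul]
  have hGh := key h h' hh' hWh
  have hWnab : ∀ a, mulF W (nab C.F a h) = l • nab C.F a h := by
    intro a
    have e1 := hmul a W h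
    rw [hWn a, zero_l, zero_add] at e1
    rw [← e1, hWh]
    exact nab_smulR C.F a l h
  have hGt : ∀ a, mulF (Gam 4) (t a) = (s * l) • t a := fun a => key _ _ (ht a) (hWnab a)
  -- the derivatives in the directions `b i`
  set T : Fin 4 → Fk 4 ℝ := fun i => ∑ a, b i a • t a with hT
  have dT : ∀ i, Deg 2 (T i) := by
    intro i S hS
    show (∑ a, b i a • t a) S = 0
    rw [Finset.sum_apply]
    refine Finset.sum_eq_zero fun a _ => ?_
    rw [Pi.smul_apply, dt' a S hS, smul_zero]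
  have hGT : ∀ i, mulF (Gam 4) (T i) = (s * l) • T i := by
    intro i
    rw [hT]
    show mulF (Gam 4) (∑ a, b i a • t a) = (s * l) • ∑ a, b i a • t a
    rw [sum_r, Finset.smul_sum]
    refine Finset.sum_congr rfl fun a _ => ?_
    rw [smul_r, hGt, smul_comm]
  have htT : ∀ a, t a = ∑ i, b i a • T i := by
    intro a
    apply tau_inj hτ
    rw [ht a, ← Ddh.nab_P C a h, evF_sum, map_sum]
    have e1 : ∀ c, evF C q (C.P a c • nab C.F c h) = ∑ i, (b i a * b i c) • τ (t c) := by
      intro c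
      rw [evF_smul, hP a c, Finset.sum_smul, ht c]
    rw [Finset.sum_congr rfl fun c _ => e1 c, Finset.sum_comm]
    refine Finset.sum_congr rfl fun i _ => ?_
    rw [map_smul, hT]
    show ∑ c, (b i a * b i c) • τ (t c) = b i a • τ (∑ c, b i c • t c)
    rw [map_sum, Finset.smul_sum]
    refine Finset.sum_congr rfl fun c _ => ?_
    rw [map_smul, smul_smul]
  -- the codifferential
  have hdiv : ∑ i, NG.an i (T i) = 0 := by
    apply tau_inj hτ
    rw [map_zero]
    have e1 : evF C q (de C.F h) = 0 := by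
      rw [hde]
      exact evF_zero C q
    unfold de at e1
    rw [evF_neg, neg_eq_zero, evF_sum] at e1
    rw [← e1, map_sum]
    have e2 : ∀ a, evF C q (NG.an a (nab C.F a h)) = ∑ i, b i a • τ (NG.an i (t a)) := by
      intro a
      rw [evF_an, ← ht a, hτ.an]
    rw [Finset.sum_congr rfl fun a _ => e2 a, Finset.sum_comm]
    refine Finset.sum_congr rfl fun i _ => ?_
    rw [hT]
    show τ (NG.an i (∑ a, b i a • t a)) = ∑ a, b i a • τ (NG.an i (t a))
    rw [map_sum, map_sum]
    refine Finset.sum_congr rfl fun a _ => ?_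
    rw [map_smul, map_smul]
  have hfin := h5 (s * l) h' T (by rw [mul_pow, hl, sq, hs2, one_mul]) dh dT hGh hGT hdiv
  -- back to the manifold
  have f1 : ∑ a, C.ev q (NG.ip (nab C.F a h) h) ^ 2 = ∑ i, NG.ip (T i) h' ^ 2 := by
    have e1 : ∀ a, C.ev q (NG.ip (nab C.F a h) h) = ∑ i, b i a * NG.ip (T i) h' := by
      intro a
      rw [ev_ip, ← ht a, ← hh', hτ.ip, htT a, ip_sum_left]
      exact Finset.sum_congr rfl fun i _ => ip_smul_left _ _ _
    rw [Finset.sum_congr rfl fun a _ => by rw [e1 a], on_sum1 hb]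
  have f2 : ∑ a, C.ev q (NG.ip (nab C.F a h) (nab C.F a h)) = ∑ i, NG.ip (T i) (T i) := by
    rw [← on_ip hb T]
    refine Finset.sum_congr rfl fun a _ => ?_
    rw [ev_ip, ← ht a, hτ.ip, ← htT a]
  have f3 : C.ev q (NG.ip h h) = NG.ip h' h' := by
    rw [ev_ip, ← hh', hτ.ip]
  rw [f1, f2, f3]
  exact hfin

end Pool.Agent.H781.DF
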