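import Pool.Agent.H781.DF.A
import Pool.Agent.H781.CM.Base

/-!
An inequality for two functions.
-/

set_option autoImplicit false
set_option synthInstance.maxHeartbeats 400000
set_option maxHeartbeats 4000000
set_option linter.unusedSectionVars false

open MeasureTheory Filter
open scoped Topology ContDiff

noncomputable section

namespace Pool.Agent.H781.DF

open Pool.Agent.H781.NG Pool.Agent.H781.CM Pool.Agent.H781.H6 Pool.Agent.H781.KP

namespace L2

variable {M : Type} [TopologicalSpace M] [CompactSpace M] [MeasurableSpace M] [BorelSpace M]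
  {N : ℕ} (C : CD M N)

theorem gsq_add_sub (P Q : C.A) : gsq C (P - Q) + gsq C (P + Q) =
    gsq C P + gsq C Q + (gsq C P + gsq C Q) := by
  unfold gsq
  simp only [← Finset.sum_add_distrib]
  refine Finset.sum_congr rfl fun a _ => ?_
  rw [map_sub, map_add]
  ring

/-- Cauchy-Schwarz inequality -/
theorem cs_abs (u v : C.A) :
    (∫ q, |C.ev q u * C.ev q v| ∂C.μ) ^ 2 ≤ ig C (u ^ 2) * ig C (v ^ 2) := by
  set L := ∫ q, |C.ev q u * C.ev q v| ∂C.μ with hL
  have hi : Integrable (fun q => |C.ev q u * C.ev q v|) C.μ :=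
    int_cont C ((C.cont u).mul (C.cont v)).abs
  have h : ∀ x : ℝ, 0 ≤ ig C (u ^ 2) * (x * x) + (-2 * L) * x + ig C (v ^ 2) := by
    intro x
    have e : ∀ q, (x * |C.ev q u| - |C.ev q v|) ^ 2 =
        (x * x) * C.ev q (u ^ 2) + (-2 * x) * |C.ev q u * C.ev q v| + C.ev q (v ^ 2) := by
      intro q
      rw [abs_mul, map_pow, map_pow, ← sq_abs (C.ev q u), ← sq_abs (C.ev q v)]
      ring
    have h1 : 0 ≤ ∫ q, (x * |C.ev q u| - |C.ev q v|) ^ 2 ∂C.μ :=
      integral_nonneg fun q => sq_nonneg _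
    simp only [e] at h1
    have i1 : Integrable (fun q => x * x * C.ev q (u ^ 2)) C.μ := (int_ev C _).const_mul _
    have i2 : Integrable (fun q => -2 * x * |C.ev q u * C.ev q v|) C.μ := hi.const_mul _
    have i3 : Integrable (fun q => x * x * C.ev q (u ^ 2) +
      -2 * x * |C.ev q u * C.ev q v|) C.μ := i1.add i2
    rw [integral_add i3 (int_ev C _), integral_add i1 i2, integral_const_mul,
      integral_const_mul] at h1
    unfold ig
    rw [← hL] at h1
    linarith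
  have h2 := discrim_le_zero h
  unfold discrim at h2
  nlinarith

/-- Bessel's inequality -/
theorem bessel (u v : C.A) (h : ig C (u * v) = 0) (x y : ℝ) :
    0 ≤ 1 - 2 * x * ig C u - 2 * y * ig C v + x ^ 2 * ig C (u ^ 2) + y ^ 2 * ig C (v ^ 2) := by
  have h1 : 0 ≤ ig C ((1 - x • u - y • v) ^ 2) := by
    refine ig_nonneg C fun p => ?_
    rw [map_pow]
    exact sq_nonneg _
  have e : (1 - x • u - y • v) ^ 2 = 1 - (2 * x) • u - (2 * y) • v + (x ^ 2) • (u ^ 2) +
      (y ^ 2) • (v ^ 2) + (2 * x * y) • (u * v) := by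
    simp only [Algebra.smul_def, map_mul, map_pow, map_ofNat]
    ring
  rw [e, ig_add, ig_add, ig_add, ig_sub, ig_sub, ig_one, ig_smul, ig_smul, ig_smul, ig_smul,
    ig_smul, h] at h1
  linarith

end L2


theorem s_l2 : S_L2 := by
  intro M _ _ _ _ N C κ hκ hP P Q hP1 hQ1
  have hst : ig C ((P - Q) ^ 2) + ig C ((P + Q) ^ 2) = 4 := by
    rw [← ig_add]
    have : (P - Q) ^ 2 + (P + Q) ^ 2 = P ^ 2 + Q ^ 2 + (P ^ 2 + Q ^ 2) := by ring
    rw [this, ig_add, ig_add, hP1, hQ1]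
    norm_num
  have huv : ig C ((P - Q) * (P + Q)) = 0 := by
    have : (P - Q) * (P + Q) = P ^ 2 - Q ^ 2 := by ring
    rw [this, ig_sub, hP1, hQ1, sub_self]
  have hg : ig C (gsq C (P - Q)) + ig C (gsq C (P + Q)) =
      2 * (ig C (gsq C P) + ig C (gsq C Q)) := by
    rw [← ig_add, L2.gsq_add_sub, ig_add, ig_add]
    ring
  have hL : ∫ q, |C.ev q P ^ 2 - C.ev q Q ^ 2| ∂C.μ =
      ∫ q, |C.ev q (P - Q) * C.ev q (P + Q)| ∂C.μ := by
    refine integral_congr_ae (Eventually.of_forall fun q => ?_)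
    show |C.ev q P ^ 2 - C.ev q Q ^ 2| = |C.ev q (P - Q) * C.ev q (P + Q)|
    rw [map_sub, map_add]
    congr 1
    ring
  rw [hL, ← hg]
  have p1 := hP (P - Q)
  have p2 := hP (P + Q)
  have c1 := L2.cs_abs C (P - Q) (P + Q)
  have b := L2.bessel C (P - Q) (P + Q) huv
  have s0 : 0 ≤ ig C ((P - Q) ^ 2) := ig_nonneg C fun p => by rw [map_pow]; exact sq_nonneg _
  have t0 : 0 ≤ ig C ((P + Q) ^ 2) := ig_nonneg C fun p => by rw [map_pow]; exact sq_nonneg _
  have L0 : 0 ≤ ∫ q, |C.ev q (P - Q) * C.ev q (P + Q)| ∂C.μ :=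
    integral_nonneg fun q => abs_nonneg _
  generalize ig C ((P - Q) ^ 2) = s at *
  generalize ig C ((P + Q) ^ 2) = t at *
  generalize ig C (P - Q) = m at *
  generalize ig C (P + Q) = k at *
  generalize ig C (gsq C (P - Q)) = g1 at *
  generalize ig C (gsq C (P + Q)) = g2 at *
  generalize ∫ q, |C.ev q (P - Q) * C.ev q (P + Q)| ∂C.μ = L at *
  have q1 : 4 * κ * (s - m ^ 2) ≤ g1 := by
    have := mul_le_mul_of_nonneg_left p1 (show 0 ≤ 4 * κ by positivity)
    have e : 4 * κ * (1 / (4 * κ) * g1) = g1 := by field_simp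
    linarith
  have q2 : 4 * κ * (t - k ^ 2) ≤ g2 := by
    have := mul_le_mul_of_nonneg_left p2 (show 0 ≤ 4 * κ by positivity)
    have e : 4 * κ * (1 / (4 * κ) * g2) = g2 := by field_simp
    linarith
  obtain ⟨S, hS1, hS2, hS3⟩ : ∃ S : ℝ, s ≤ S ∧ t ≤ S ∧ s * t = S * (4 - S) := by
    rcases le_total s t with h | h
    · exact ⟨t, h, le_rfl, by rw [show 4 - t = s by linarith]; ring⟩
    · exact ⟨s, le_rfl, h, by rw [show 4 - s = t by linarith]⟩
  have hS4 : S ≤ 4 := by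
    by_contra hcon
    push Not at hcon
    have h1 : 0 ≤ s * t := mul_nonneg s0 t0
    nlinarith
  have hS0 : 0 < S := by linarith
  have hmk : m ^ 2 + k ^ 2 ≤ S := by
    have h1 := b (m / S) (k / S)
    have h2 : (m / S) ^ 2 * s ≤ (m / S) ^ 2 * S := mul_le_mul_of_nonneg_left hS1 (sq_nonneg _)
    have h3 : (k / S) ^ 2 * t ≤ (k / S) ^ 2 * S := mul_le_mul_of_nonneg_left hS2 (sq_nonneg _)
    have e1 : (m / S) ^ 2 * S = m ^ 2 / S := by field_simp
    have e2 : (k / S) ^ 2 * S = k ^ 2 / S := by field_simp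
    have e3 : 2 * (m / S) * m = 2 * (m ^ 2 / S) := by ring
    have e4 : 2 * (k / S) * k = 2 * (k ^ 2 / S) := by ring
    have h4 : m ^ 2 / S + k ^ 2 / S ≤ 1 := by linarith
    rw [← add_div, div_le_one hS0] at h4
    exact h4
  have h3 : √3 * L ≤ 6 - S := by
    have h5 : (√3 * L) ^ 2 ≤ (6 - S) ^ 2 := by
      rw [mul_pow, Real.sq_sqrt (by norm_num)]
      nlinarith [sq_nonneg (S - 3)]
    have h6 : 0 ≤ √3 * L := mul_nonneg (Real.sqrt_nonneg _) L0
    exact (pow_le_pow_iff_left₀ h6 (by linarith) two_ne_zero).1 h5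
  have h7 := mul_le_mul_of_nonneg_left h3 (show 0 ≤ 4 * κ by positivity)
  have h8 := mul_le_mul_of_nonneg_left hmk (show 0 ≤ 4 * κ by positivity)
  have h9 : 4 * κ * (s + t) = 4 * κ * 4 := by rw [hst]
  nlinarith

end Pool.Agent.H781.DF
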