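import Pool.Agent.H781.DF.A
import Pool.Agent.H781.KP.Lich

/-!
Project DF: the sharp estimate of Lichnerowicz of the eigenvalues of the Laplacian on functions.
-/

set_option autoImplicit false
set_option synthInstance.maxHeartbeats 400000
set_option maxHeartbeats 4000000
set_option linter.unusedSectionVars false

open MeasureTheory Filter
open scoped Topology ContDiff

noncomputable section

namespace Pool.Agent.H781.DF

open Pool.Agent.H781.NG Pool.Agent.H781.CM Pool.Agent.H781.H6 Pool.Agent.H781.KP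

namespace Lichn

open Pool.Agent.H781.KP.Lich

section alg

variable {m : ℕ} {T : T4 m}

/-- the sharp lower bound of the Ricci curvature -/
theorem ricK {κ : ℝ} (hR : IsAC T) (hK : KGE T κ) (y : Fin m → ℝ) :
    ((m : ℝ) - 1) * κ * dt y y ≤ ∑ i, ∑ j, ∑ k, T i j k i * y j * y k := by
  classical
  by_cases hy : dt y y = 0
  · have hy0 := dt_self_eq_zero hy
    rw [hy, mul_zero, hy0]
    refine (Finset.sum_nonneg fun i _ => Finset.sum_nonneg fun j _ =>
      Finset.sum_nonneg fun k _ => ?_)
    simp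
  have hs : 0 < dt y y := lt_of_le_of_ne (dt_self_nonneg y) (Ne.symm hy)
  have h1 : ∀ i, κ * (dt y y - y i * y i) ≤ ∑ j, ∑ k, T i j k i * y j * y k := by
    intro i
    rw [← R4_single]
    have h2 : dt (dt y y • (Pi.single i 1 : Fin m → ℝ) - y i • y) y = 0 := by
      have e : dt (dt y y • (Pi.single i 1 : Fin m → ℝ) - y i • y) y =
          dt y y * dt (Pi.single i 1) y - y i * dt y y := by
        unfold dt
        rw [Finset.mul_sum, Finset.mul_sum, ← Finset.sum_sub_distrib]
        refine Finset.sum_congr rfl fun a _ => ?_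
        rw [Pi.sub_apply, Pi.smul_apply, Pi.smul_apply, smul_eq_mul, smul_eq_mul]
        ring
      have e2 : dt (Pi.single i 1) y = y i := by
        unfold dt
        rw [Finset.sum_eq_single i]
        · rw [Pi.single_eq_same, one_mul]
        · intro a _ ha
          rw [Pi.single_eq_of_ne ha, zero_mul]
        · intro h
          exact absurd (Finset.mem_univ i) h
      rw [e, e2]
      ring
    have h3 : dt (dt y y • (Pi.single i 1 : Fin m → ℝ) - y i • y)
        (dt y y • (Pi.single i 1 : Fin m → ℝ) - y i • y) = dt y y * (dt y y - y i * y i) := by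
      have e : dt (dt y y • (Pi.single i 1 : Fin m → ℝ) - y i • y)
          (dt y y • (Pi.single i 1 : Fin m → ℝ) - y i • y) =
          dt y y * dt (dt y y • (Pi.single i 1 : Fin m → ℝ) - y i • y) (Pi.single i 1) -
            y i * dt (dt y y • (Pi.single i 1 : Fin m → ℝ) - y i • y) y := by
        unfold dt
        rw [Finset.mul_sum, Finset.mul_sum, ← Finset.sum_sub_distrib]
        refine Finset.sum_congr rfl fun a _ => ?_
        rw [Pi.sub_apply, Pi.smul_apply, Pi.smul_apply, smul_eq_mul, smul_eq_mul]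
        ring
      have e2 : dt (dt y y • (Pi.single i 1 : Fin m → ℝ) - y i • y) (Pi.single i 1) =
          dt y y - y i * y i := by
        conv_lhs => unfold dt
        rw [Finset.sum_eq_single i]
        · rw [Pi.single_eq_same, mul_one, Pi.sub_apply, Pi.smul_apply, Pi.smul_apply,
            smul_eq_mul, smul_eq_mul, Pi.single_eq_same, mul_one]
          rfl
        · intro a _ ha
          rw [Pi.single_eq_of_ne ha, mul_zero]
        · intro h
          exact absurd (Finset.mem_univ i) h
      rw [e, h2, e2, mul_zero, sub_zero]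
    have h4 := kge hK h2
    rw [h3, sub4, smul4, smul4, skew34 hR.a34, mul_zero, sub_zero, sub1, smul1, smul1,
      skew12 hR.a12, mul_zero, sub_zero] at h4
    have h5 : (dt y y * dt y y) * (κ * (dt y y - y i * y i)) ≤
        (dt y y * dt y y) * R4 T (Pi.single i 1) y y (Pi.single i 1) := by
      calc (dt y y * dt y y) * (κ * (dt y y - y i * y i)) =
          κ * (dt y y * (dt y y - y i * y i) * dt y y) := by ring
        _ ≤ _ := h4
        _ = _ := by ring
    exact le_of_mul_le_mul_left h5 (mul_pos hs hs)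
  refine le_trans (le_of_eq ?_) (Finset.sum_le_sum fun i _ => h1 i)
  rw [← Finset.mul_sum, Finset.sum_sub_distrib, Finset.sum_const, Finset.card_univ,
    Fintype.card_fin, nsmul_eq_mul]
  have e : ∑ i, y i * y i = dt y y := rfl
  rw [e]
  ring

end alg

section pt

variable {M : Type} [TopologicalSpace M] [CompactSpace M] [MeasurableSpace M] [BorelSpace M]
  {N : ℕ} (C : CD M N)

/-- sharp lower bound of the Ricci curvature -/
theorem ric_ge (h2 : S_RMP) {n : ℕ} {κ : ℝ} (hC : PtK C n κ)
    (u : C.A) (q : M) : ((n : ℝ) - 1) * κ * C.ev q (gsq C u) ≤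
      C.ev q (- ∑ a, ∑ b, ∑ d, Rm C.F a b a d * C.F.e b u * C.F.e d u) := by
  obtain ⟨b, hb, hP, hR, hK⟩ := hC q
  obtain ⟨-, r2, -, r4⟩ := h2 M N C
  have q2 : ∀ a b c d, ∑ a', C.ev q (C.P a a') * Rq C q a' b c d = Rq C q a b c d := by
    intro a b c d
    have h := congrArg (C.ev q) (r2 a b c d)
    rw [map_sum] at h
    refine Eq.trans (Finset.sum_congr rfl fun a' _ => ?_) h
    rw [map_mul]
    rfl
  have q4 : ∀ a b c d, Rq C q a b c d = - Rq C q a b d c := by
    intro a b c d
    have h := congrArg (C.ev q) (r4 a b c d)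
    rw [map_neg] at h
    exact h
  set X : Fin N → ℝ := fun a => C.ev q (C.F.e a u) with hX
  set y : Fin n → ℝ := fun i => ∑ a, b i a * X a with hy
  have hXe : X = ∑ j, y j • b j := by
    funext c
    rw [Finset.sum_apply]
    have h := congrArg (C.ev q) (C.Pe c u)
    rw [map_sum] at h
    have h1 : X c = ∑ a, (∑ j, b j c * b j a) * X a := by
      refine Eq.trans h.symm (Finset.sum_congr rfl fun a _ => ?_)
      rw [map_mul, hP]
    rw [h1]
    have h3 : ∀ j, (y j • b j) c = ∑ a, b j c * b j a * X a := by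
      intro j
      rw [Pi.smul_apply, smul_eq_mul, hy, Finset.sum_mul]
      refine Finset.sum_congr rfl fun a _ => ?_
      ring
    rw [Finset.sum_congr rfl fun j _ => h3 j, Finset.sum_comm]
    refine Finset.sum_congr rfl fun a _ => ?_
    rw [Finset.sum_mul]
  have hg : C.ev q (gsq C u) = dt y y := by
    have h1 : C.ev q (gsq C u) = ∑ a, X a * X a := by
      unfold gsq
      rw [map_sum]
      refine Finset.sum_congr rfl fun a _ => ?_
      rw [map_mul]
    have h3 : ∀ a, X a * X a = ∑ j, y j * (b j a * X a) := by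
      intro a
      have h := congrFun hXe a
      rw [Finset.sum_apply] at h
      conv_lhs => rw [h]
      rw [Finset.sum_mul]
      refine Finset.sum_congr rfl fun j _ => ?_
      rw [Pi.smul_apply, smul_eq_mul, ← h]
      ring
    rw [h1, Finset.sum_congr rfl fun a _ => h3 a, Finset.sum_comm]
    unfold dt
    refine Finset.sum_congr rfl fun j _ => ?_
    rw [← Finset.mul_sum]
  have h5 := ricK hR hK y
  have h6 : ∑ i, ∑ j, ∑ k, Rb C q b i j k i * y j * y k =
      ∑ i, R4 (Rq C q) (b i) X X (b i) := by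
    refine Finset.sum_congr rfl fun i _ => ?_
    rw [hXe, sum2]
    refine Finset.sum_congr rfl fun j _ => ?_
    rw [sum3, Finset.mul_sum]
    refine Finset.sum_congr rfl fun k _ => ?_
    unfold Rb
    ring
  rw [h6, tr (fun a c => C.ev q (C.P a c)) b hP q2 q4] at h5
  rw [hg]
  refine h5.trans (le_of_eq ?_)
  rw [map_neg, map_sum]
  congr 1
  refine Finset.sum_congr rfl fun a _ => ?_
  rw [map_sum]
  refine Finset.sum_congr rfl fun b _ => ?_
  rw [map_sum]
  refine Finset.sum_congr rfl fun d _ => ?_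
  rw [map_mul, map_mul]
  rfl

/-- the hessian is a tensor on the tangent space -/
theorem hs_P (u : C.A) (a b : Fin N) : ∑ c, C.P a c * Hs C u c b = Hs C u a b := by
  unfold Hs
  have h1 : ∀ c, C.P a c * (C.F.e c (C.F.e b u) - ∑ d, C.F.Γ c b d * C.F.e d u) =
      C.P a c * C.F.e c (C.F.e b u) - ∑ d, C.P a c * C.F.Γ c b d * C.F.e d u := by
    intro c
    rw [mul_sub, Finset.mul_sum]
    congr 1
    refine Finset.sum_congr rfl fun d _ => ?_
    ring
  rw [Finset.sum_congr rfl fun c _ => h1 c, Finset.sum_sub_distrib, C.Pe]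
  congr 1
  rw [Finset.sum_comm]
  refine Finset.sum_congr rfl fun d _ => ?_
  rw [← Finset.sum_mul, C.PG]

/-- the trace of the projection -/
theorem P_sq {n : ℕ} {κ : ℝ} (hC : PtK C n κ) (q : M) :
    ∑ x : Fin N × Fin N, C.ev q (C.P x.1 x.2) ^ 2 = n := by
  obtain ⟨b, hb, hP, -, -⟩ := hC q
  rw [Fintype.sum_prod_type]
  have h1 : ∀ a, ∑ c, C.ev q (C.P a c) ^ 2 = ∑ i, b i a * b i a := by
    intro a
    rw [← hP, ← C.Pidem a a, map_sum]
    refine Finset.sum_congr rfl fun c _ => ?_
    rw [map_mul, C.Psymm c a, pow_two]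
  have hb' : ∀ i, ∑ a, b i a * b i a = 1 := by
    intro i
    have h := hb i i
    rw [if_pos rfl] at h
    exact h
  rw [Finset.sum_congr rfl fun a _ => h1 a, Finset.sum_comm,
    Finset.sum_congr rfl fun i _ => hb' i, Finset.sum_const, Finset.card_univ, Fintype.card_fin,
    nsmul_eq_mul, mul_one]

/-- the trace of the hessian -/
theorem lap_sq {n : ℕ} {κ : ℝ} (hC : PtK C n κ) (u : C.A) (q : M) :
    C.ev q (Lap C u * Lap C u) ≤ n * C.ev q (∑ a, ∑ b, Hs C u a b ^ 2) := by
  have h1 : C.ev q (Lap C u) =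
      ∑ x : Fin N × Fin N, C.ev q (C.P x.1 x.2) * C.ev q (Hs C u x.2 x.1) := by
    rw [Fintype.sum_prod_type]
    unfold Lap
    rw [map_sum]
    refine Finset.sum_congr rfl fun a _ => ?_
    rw [← hs_P C u a a, map_sum]
    refine Finset.sum_congr rfl fun c _ => ?_
    rw [map_mul]
  have h2 : C.ev q (∑ a, ∑ b, Hs C u a b ^ 2) =
      ∑ x : Fin N × Fin N, C.ev q (Hs C u x.2 x.1) ^ 2 := by
    rw [Fintype.sum_prod_type, Finset.sum_comm, map_sum]
    refine Finset.sum_congr rfl fun a _ => ?_
    rw [map_sum]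
    refine Finset.sum_congr rfl fun c _ => ?_
    rw [map_pow]
  rw [map_mul, ← pow_two, h1, h2, ← P_sq C hC q]
  exact Finset.sum_mul_sq_le_sq_mul_sq _ _ _

end pt

end Lichn

open Pool.Agent.H781.KP.Lich in
/-- the sharp estimate of Lichnerowicz -/
theorem s_lichn (h : S_BOCHF) (h2 : S_RMP) : S_LICHN := by
  intro M _ _ _ _ N C n κ hn hκ hC u l hl hu hu0
  have hn2 : (2 : ℝ) ≤ n := by exact_mod_cast hn
  have hpos : 0 < ig C (u * u) := by
    have h0 : 0 ≤ ig C (u * u) := ig_nonneg C fun p => by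
      rw [map_mul]
      exact mul_self_nonneg _
    refine lt_of_le_of_ne h0 fun hz => hu0 ?_
    have h1 := ig_eq_zero C (fun p => by rw [map_mul]; exact mul_self_nonneg _) hz.symm
    refine C.ext_ev _ _ fun p => ?_
    have := congrArg (C.ev p) h1
    rw [map_mul, map_zero] at this
    rw [map_zero]
    exact mul_self_eq_zero.1 this
  have hg : ig C (gsq C u) = l * ig C (u * u) := by
    rw [green, hu, mul_neg, mul_smul_comm, ig_neg, ig_smul]
    ring
  have hb := LY.ig_lap C (gsq C u)
  rw [h M N C u] at hb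
  have e1 : ∑ b, C.F.e b u * C.F.e b (Lap C u) = - (l • gsq C u) := by
    unfold gsq
    rw [hu, Finset.smul_sum, ← Finset.sum_neg_distrib]
    refine Finset.sum_congr rfl fun b _ => ?_
    rw [map_neg, Derivation.map_smul, mul_neg, mul_smul_comm]
  have e2 : 2 * ∑ a, ∑ b, Hs C u a b ^ 2 + 2 * ∑ b, C.F.e b u * C.F.e b (Lap C u) -
      2 * ∑ a, ∑ b, ∑ d, Rm C.F a b a d * C.F.e b u * C.F.e d u =
      (2 : ℝ) • (∑ a, ∑ b, Hs C u a b ^ 2 + - (l • gsq C u) +
        - ∑ a, ∑ b, ∑ d, Rm C.F a b a d * C.F.e b u * C.F.e d u) := by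
    rw [e1, two_smul]
    ring
  rw [e2, ig_smul, ig_add, ig_add, ig_neg, ig_smul] at hb
  have h5 : l * (l * ig C (u * u)) ≤ n * ig C (∑ a, ∑ b, Hs C u a b ^ 2) := by
    have h5' : ig C (Lap C u * Lap C u) ≤ n * ig C (∑ a, ∑ b, Hs C u a b ^ 2) := by
      rw [← ig_smul]
      refine ig_mono C fun p => ?_
      rw [ev_smul]
      exact Lichn.lap_sq C hC u p
    rw [hu, neg_mul_neg, smul_mul_smul_comm, ig_smul, mul_assoc] at h5'
    exact h5'
  have h6 : ((n : ℝ) - 1) * κ * ig C (gsq C u) ≤
      ig C (- ∑ a, ∑ b, ∑ d, Rm C.F a b a d * C.F.e b u * C.F.e d u) := by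
    rw [← ig_smul]
    refine ig_mono C fun p => ?_
    rw [ev_smul]
    exact Lichn.ric_ge C h2 hC u p
  rw [hg] at h6 hb
  set U : ℝ := ig C (u * u) with hU
  set H : ℝ := ig C (∑ a, ∑ b, Hs C u a b ^ 2) with hH
  set K : ℝ := ig C (- ∑ a, ∑ b, ∑ d, Rm C.F a b a d * C.F.e b u * C.F.e d u) with hK
  have hb' : H + K = l * (l * U) := by linarith
  have h7 : ((n : ℝ) - 1) * ((n * κ) * (l * U)) ≤ ((n : ℝ) - 1) * (l * (l * U)) := by
    have h8 : (n : ℝ) * (((n : ℝ) - 1) * κ * (l * U)) ≤ n * K :=
      mul_le_mul_of_nonneg_left h6 (by linarith)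
    have h9 : (n : ℝ) * K = n * (l * (l * U)) - n * H := by
      rw [← hb']
      ring
    calc ((n : ℝ) - 1) * ((n * κ) * (l * U)) = (n : ℝ) * (((n : ℝ) - 1) * κ * (l * U)) := by ring
      _ ≤ n * (l * (l * U)) - n * H := by rw [← h9]; exact h8
      _ ≤ n * (l * (l * U)) - l * (l * U) := by linarith
      _ = _ := by ring
  have h10 : (n * κ) * (l * U) ≤ l * (l * U) := le_of_mul_le_mul_left h7 (by linarith)
  exact le_of_mul_le_mul_right h10 (mul_pos hl hpos)

end Pool.Agent.H781.DF
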