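import Pool.Agent.H781.DF.G
import Pool.Agent.H781.KP.AllK
import Pool.Agent.H781.CM.Nanco
import Pool.Agent.H781.CM.W4f
import Pool.Agent.H781.CM.Lin4
import Pool.Agent.H781.CM.Gtr
import Pool.Agent.H781.CM.Phiw
import Pool.Agent.H781.CM.Gw4

/-!
Project DF: the geometric theorem from the abstract theorem.
-/

set_option autoImplicit false
set_option synthInstance.maxHeartbeats 400000
set_option maxHeartbeats 4000000
set_option linter.unusedSectionVars false

open Bundle Manifold ContDiff VectorField MeasureTheory Filter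
open scoped Topology

noncomputable section

namespace Pool.Agent.H781.DF

open Pool.Agent.H781.NG Pool.Agent.H781.CM Pool.Agent.H781.H6 Pool.Agent.H821R2
  Pool.Agent.H821R3 Pool.Agent.H893R5.HO Pool.Agent.H781.S22 Pool.Agent.H781.KP

namespace Main4

theorem lin4' : S_LIN4 := s_lin4 s_clif

theorem clim' : S_CLIM := s_clim s_clif

theorem w4' : S_W4 := s_w4 lin4' s_clif clim' ddh

theorem phiw' : S_PHIW := s_phiw s_clif s_phi

theorem gw4' : S_GW4 := s_gw4 (s_drf s_phi) s_gtr s_phi lin4'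

section

variable {M : Type} [TopologicalSpace M] [CompactSpace M] [MeasurableSpace M] [BorelSpace M]
  {N : ℕ}

/-- an exact form of degree four is orthogonal to the volume form -/
theorem pr_exact {C : CD M N} {W : Fk N C.A} (hW : W4 C W) {w : Fk N C.A} (hw : w ∈ Bp C 4) :
    pr C w W = 0 := by
  obtain ⟨v, -, hv⟩ := hw
  have hv' : dd C.F v = w := hv
  obtain ⟨-, -, -, -, -, -, -, -, -, hadj, -, -, -⟩ := ddh M N C
  obtain ⟨-, hnab, -, -, -, -, -, -⟩ := w4' M N C W hW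
  have hde : de C.F W = 0 := by
    unfold de
    rw [Finset.sum_eq_zero fun a _ => by rw [hnab a, map_zero], neg_zero]
  rw [← hv', hadj, hde]
  unfold pr
  have h0 : ip v (0 : Fk N C.A) = 0 := by
    unfold ip
    refine Finset.sum_eq_zero fun S _ => ?_
    rw [Pi.zero_apply, mul_zero]
  rw [h0]
  exact ig_zero C

end

section

variable {M : Type} [TopologicalSpace M] [T2Space M] [CompactSpace M]
  [ChartedSpace (EU 4) M] [IsManifold (𝓡 4) ∞ M] [MeasurableSpace M] [BorelSpace M] {N : ℕ}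

/-- if the square of a 2-form is exact then its integral is zero -/
theorem pr_wedge (D : GD 4 M N) {W : Fk N D.C.A} {Ω' : AF 4 M 4} {ρ : M → ℝ} (hW : W4 D.C W)
    (hρ : ∀ x, 0 < ρ x)
    (hWρ : ∀ (x : M) (v : Fin 4 → TangentSpace (𝓡 4) x), Ω' x v =
      ρ x * phi 4 (fun i => Drf.Lm D x (v i)) (evF D.C x W))
    {e : AF 4 M 2} {u : Fk N D.C.A} (hu : u ∈ HD D.C 2)
    (he : ∀ (x : M) (v : Fin 2 → TangentSpace (𝓡 4) x), e x v =
      phi 2 (fun i => Drf.Lm D x (v i)) (evF D.C x u))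
    {w' : AF 4 M 4} {w : Fk N D.C.A} (hw : w ∈ HD D.C 4)
    (hw' : ∀ (x : M) (v : Fin 4 → TangentSpace (𝓡 4) x), w' x v =
      phi 4 (fun i => Drf.Lm D x (v i)) (evF D.C x w))
    (hwe : toDF w' = CM.F.wedge22 (toDF e) (toDF e)) (hwB : w ∈ Bp D.C 4) :
    pr D.C (mulF u u) W = 0 := by
  have hr : ∀ (y : M) (v : Fin 4 → TangentSpace (𝓡 4) y), CM.F.wedge22 (toDF e) (toDF e) y v =
      (D.C.ev y (ip w W) / ρ y) * toDF Ω' y v := by
    intro y v
    have h3 : CM.F.wedge22 (toDF e) (toDF e) y v = w' y v := by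
      rw [← hwe]
      rfl
    have h4 : w = ip w W • W := (w4' M N D.C W hW).2.2.2.2.1 w hw.1 hw.2
    have h5 : evF D.C y w = D.C.ev y (ip w W) • evF D.C y W := by
      funext S
      have h6 : w S = ip w W * W S := congrFun h4 S
      show D.C.ev y (w S) = D.C.ev y (ip w W) * D.C.ev y (W S)
      rw [h6, map_mul]
    have h7 : toDF Ω' y v = Ω' y v := rfl
    rw [h3, hw' y v, h5, ((s_phi N 4).1 _).map_smul, smul_eq_mul, h7, hWρ y v]
    have h8 := (hρ y).ne'
    field_simp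
  have h1 : ip (mulF u u) W = ip w W := by
    refine D.C.ext_ev _ _ fun x => ?_
    have h2 := Nanco.ev_ip_mul D phiw' hW hWρ he he hu hu
      (fun y => D.C.ev y (ip w W) / ρ y) hr x
    rw [h2]
    exact div_mul_cancel₀ _ (hρ x).ne'
  have h9 : pr D.C (mulF u u) W = pr D.C w W := by
    unfold pr
    rw [h1]
  rw [h9]
  exact pr_exact hW hwB

end

end Main4

open Main4 in
theorem s_main4 (h : S_DEF) : S_MAIN4 := by
  intro M _ _ _ _ _ _ g Ω κ hΩ hΩ0 hκ hsec
  letI : MeasurableSpace M := borel M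
  haveI : BorelSpace M := ⟨rfl⟩
  have hn : 1 ≤ 4 := by norm_num
  obtain ⟨cov, R, hlc, hrt⟩ := hsec.1
  obtain ⟨D, rfl⟩ := gdu 4 M hn g cov R hlc hrt
  have hmo : Moll D.C := s_gmoll lmoll s_tkp 4 M _ D hn
  have hd : Dense2 D.C := s_gdense 4 M _ D
  have hr : Reg D.C := greg 4 M _ D hn
  have hpt : PtK D.C 4 κ := s_pkx s_frm 4 M _ D κ hn hsec
  have hco : Conn D.C := s_gconn 4 M _ D
  obtain ⟨Ω', rfl⟩ := exists_toDF hΩ
  have hΩne : ∀ x, Ω' x ≠ 0 := by
    intro x hx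
    obtain ⟨v, hv⟩ := hΩ0 x
    apply hv
    show Ω' x v = 0
    rw [hx]
    rfl
  obtain ⟨W, ρ, hW, hρ, -, hWρ⟩ := gw4' M _ D Ω' (isForm_toDF.1 hΩ) hΩne
  have hWρ' : ∀ (x : M) (v : Fin 4 → TangentSpace (𝓡 4) x), Ω' x v =
      ρ x * phi 4 (fun i => Drf.Lm D x (v i)) (evF D.C x W) := hWρ
  obtain ⟨k1, k2⟩ := h M _ D.C W κ hW hκ hpt hco hmo hd hr
  obtain ⟨Φ, hΦ1, hΦ2, hΦ3, hΦZ, hΦB⟩ := Nanco.dict D hn
  refine ⟨?_, ?_⟩
  · intro c hc0 hc1 hop α hα hex
    have hcv : CurvGE D.C (2 * (c * κ)) := gcurv 4 M _ D (c * κ) hn (by positivity) hop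
    obtain ⟨e, rfl⟩ := exists_toDF hα.1
    have hz : e ∈ ZF 4 M 2 := closed_toDF.1 hα
    obtain ⟨f, hf⟩ := hΦ3 2 e hz.1
    have hfz : (f : Fk _ D.C.A) ∈ Zp D.C 2 := (hΦZ 2 f).2 (hf ▸ hz)
    have he : ∀ (x : M) (v : Fin 2 → TangentSpace (𝓡 4) x), e x v =
        phi 2 (fun i => Drf.Lm D x (v i)) (evF D.C x (f : Fk _ D.C.A)) := fun x v => by
      rw [← hf]
      exact hΦ1 2 f x v
    have hwF : CM.F.IsForm (CM.F.wedge22 (toDF e) (toDF e)) := by
      obtain ⟨γ, -, h2, -⟩ := hex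
      exact h2
    obtain ⟨w', hw'⟩ := exists_toDF hwF
    have hwB : w' ∈ BF 4 M 4 := by
      rw [← hw'] at hex
      exact exact_toDF.1 hex
    have hwS : SmF w' := by
      rw [← hw'] at hwF
      exact isForm_toDF.1 hwF
    obtain ⟨w, hw⟩ := hΦ3 4 w' hwS
    have hwB' : (w : Fk _ D.C.A) ∈ Bp D.C 4 := by
      refine (hΦB 3 w).2 ?_
      have h10 := hwB
      rw [← hw] at h10
      exact h10
    have hwv : ∀ (x : M) (v : Fin 4 → TangentSpace (𝓡 4) x), w' x v =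
        phi 4 (fun i => Drf.Lm D x (v i)) (evF D.C x (w : Fk _ D.C.A)) := fun x v => by
      rw [← hw]
      exact hΦ1 4 w x v
    have hpr := pr_wedge D hW hρ hWρ' f.2 he w.2 hwv hw' hwB'
    have h8 := k1 c hc0 hc1 hcv f hfz hpr
    have h9 := (hΦB 1 f).1 h8
    rw [hf] at h9
    exact exact_toDF.2 h9
  · intro hop
    have hcv : CurvGE D.C (κ / 6) := by
      have h1 := gcurv 4 M _ D (κ / 12) hn (by positivity) hop
      have h2 : 2 * (κ / 12) = κ / 6 := by ring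
      rwa [h2] at h1
    have hb := k2 hcv
    obtain ⟨e⟩ := gdr 4 M _ D hn 2
    haveI hfin := (hodge M _ D.C hmo hd hr).1 2
    haveI : Module.Finite ℝ (HF 4 M 2) := Module.Finite.equiv e.symm
    have he : Module.finrank ℝ (HF 4 M 2) = bet D.C 2 := e.finrank_eq
    exact ⟨Module.finrank ℝ (HF 4 M 2), by rw [he]; exact hb, isBetti 2⟩

end Pool.Agent.H781.DF
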