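import Pool.Agent.H781.DF.A
import Pool.Agent.H781.CM.Base
import Pool.Agent.H781.CM.Bo

/-!
Project DF, task DF-12 (helper685): the lengths of two harmonic self-dual forms are almost equal.
-/

set_option autoImplicit false
set_option synthInstance.maxHeartbeats 400000
set_option maxHeartbeats 4000000
set_option linter.unusedSectionVars false

open MeasureTheory Filter
open scoped Topology ContDiff

noncomputable section

namespace Pool.Agent.H781.DF

open Pool.Agent.H781.NG Pool.Agent.H781.CM Pool.Agent.H781.H6 Pool.Agent.H781.KP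

namespace Pair

variable {M : Type} [TopologicalSpace M] [CompactSpace M] [MeasurableSpace M] [BorelSpace M]
  {N : ℕ} (C : CD M N)

/-- the regularised length of a form and its gradient -/
theorem len (h : Fk N C.A)
    (hkt : ∀ q, 3 * ∑ a, C.ev q (ip (nab C.F a h) h) ^ 2 ≤
      2 * (C.ev q (ip h h) * ∑ a, C.ev q (ip (nab C.F a h) (nab C.F a h)))) {δ : ℝ}
    (hδ : 0 < δ) :
    ∃ φ : C.A, (∀ q, 0 < C.ev q φ) ∧ (∀ q, C.ev q φ ^ 2 = C.ev q (ip h h) + δ) ∧
      3 * ig C (gsq C φ) ≤ 2 * en C h := by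
  have hip : ∀ q, 0 ≤ C.ev q (ip h h) := fun q => by
    rw [ev_ip]
    exact ip_self_nonneg _
  set f : C.A := ip h h + cs C δ with hf
  have hev : ∀ q, C.ev q f = C.ev q (ip h h) + δ := fun q => by rw [hf, map_add, ev_cs]
  have hpos : ∀ q, 0 < C.ev q f := fun q => by
    rw [hev]
    linarith [hip q]
  have hsm : ContDiffOn ℝ ∞ Real.sqrt (Set.Ioi 0) := fun x hx =>
    (Real.contDiffAt_sqrt (ne_of_gt hx)).contDiffWithinAt
  obtain ⟨φ, hφ⟩ := C.comp f Real.sqrt (Set.Ioi 0) isOpen_Ioi hsm hpos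
  have hch := C.chain f φ Real.sqrt (Set.Ioi 0) isOpen_Ioi hsm hpos hφ
  have hφpos : ∀ q, 0 < C.ev q φ := fun q => by
    rw [hφ]
    exact Real.sqrt_pos.2 (hpos q)
  have hφ2 : ∀ q, C.ev q φ ^ 2 = C.ev q (ip h h) + δ := fun q => by
    rw [hφ, Real.sq_sqrt (hpos q).le, hev]
  refine ⟨φ, hφpos, hφ2, ?_⟩
  have hder : ∀ a q, C.ev q (C.F.e a φ) * C.ev q φ = C.ev q (ip (nab C.F a h) h) := by
    intro a q
    have h1 : C.F.e a f = ip (nab C.F a h) h + ip (nab C.F a h) h := by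
      have h2 : C.F.e a (cs C δ) = 0 := Derivation.map_algebraMap _ _
      rw [hf, map_add, Boch.e_ip, ip_comm h, h2, add_zero]
    rw [hch a q, (Real.hasDerivAt_sqrt (hpos q).ne').deriv, ← hφ q, h1, map_add]
    have h3 := (hφpos q).ne'
    field_simp
    ring
  have hpt : ∀ q, C.ev q ((3 : ℝ) • gsq C φ) ≤
      C.ev q ((2 : ℝ) • ∑ a, ip (nab C.F a h) (nab C.F a h)) := by
    intro q
    rw [ev_smul, ev_smul, ev_sum]
    have h3 := hkt q
    have h4 : C.ev q (gsq C φ) = ∑ a, C.ev q (C.F.e a φ) ^ 2 := by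
      unfold gsq
      rw [ev_sum]
      refine Finset.sum_congr rfl fun a _ => ?_
      rw [map_mul, pow_two]
    have h5 : ∑ a, C.ev q (ip (nab C.F a h) h) ^ 2 =
        C.ev q φ ^ 2 * ∑ a, C.ev q (C.F.e a φ) ^ 2 := by
      rw [Finset.mul_sum]
      refine Finset.sum_congr rfl fun a _ => ?_
      rw [← hder]
      ring
    rw [h5] at h3
    rw [h4]
    have hT : 0 ≤ ∑ a, C.ev q (ip (nab C.F a h) (nab C.F a h)) :=
      Finset.sum_nonneg fun a _ => by
        rw [ev_ip]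
        exact ip_self_nonneg _
    have h6 : C.ev q (ip h h) * ∑ a, C.ev q (ip (nab C.F a h) (nab C.F a h)) ≤
        C.ev q φ ^ 2 * ∑ a, C.ev q (ip (nab C.F a h) (nab C.F a h)) :=
      mul_le_mul_of_nonneg_right (by rw [hφ2]; linarith) hT
    have h7 : C.ev q φ ^ 2 * (3 * ∑ a, C.ev q (C.F.e a φ) ^ 2) ≤
        C.ev q φ ^ 2 * (2 * ∑ a, C.ev q (ip (nab C.F a h) (nab C.F a h))) := by
      linarith
    exact le_of_mul_le_mul_left h7 (pow_pos (hφpos q) 2)
  have h8 := ig_mono C hpt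
  rw [ig_smul, ig_smul, ig_sum] at h8
  exact h8

/-- the variance is nonnegative -/
theorem jensen (f : C.A) : ig C f ^ 2 ≤ ig C (f ^ 2) := by
  have h1 : 0 ≤ ig C ((f - cs C (ig C f)) ^ 2) := ig_nonneg C fun q => by
    rw [map_pow]
    exact sq_nonneg _
  have h2 : (f - cs C (ig C f)) ^ 2 = f ^ 2 - (2 * ig C f) • f + cs C (ig C f ^ 2) := by
    unfold cs
    rw [Algebra.smul_def, map_mul, map_pow, map_ofNat]
    ring
  rw [h2, ig_add, ig_sub, ig_smul, ig_cs] at h1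
  linarith

/-- Cauchy-Schwarz inequality with absolute values -/
theorem cs_abs (G H : C.A) :
    (∫ q, |C.ev q G * C.ev q H| ∂C.μ) ^ 2 ≤ ig C (G ^ 2) * ig C (H ^ 2) := by
  have hI : Integrable (fun q => |C.ev q G * C.ev q H|) C.μ :=
    int_cont C (((C.cont G).mul (C.cont H)).abs)
  have h : ∀ t : ℝ, 0 ≤ ig C (G ^ 2) * (t * t) +
      2 * (∫ q, |C.ev q G * C.ev q H| ∂C.μ) * t + ig C (H ^ 2) := by
    intro t
    have h1 : 0 ≤ ∫ q, ((t * t) * C.ev q (G ^ 2) + (2 * t) * |C.ev q G * C.ev q H| +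
        C.ev q (H ^ 2)) ∂C.μ := by
      refine integral_nonneg fun q => ?_
      show 0 ≤ (t * t) * C.ev q (G ^ 2) + (2 * t) * |C.ev q G * C.ev q H| + C.ev q (H ^ 2)
      have h2 : (t * t) * C.ev q (G ^ 2) + (2 * t) * |C.ev q G * C.ev q H| + C.ev q (H ^ 2) =
          (t * |C.ev q G| + |C.ev q H|) ^ 2 := by
        rw [map_pow, map_pow, abs_mul, ← sq_abs (C.ev q G), ← sq_abs (C.ev q H)]
        ring
      rw [h2]
      exact sq_nonneg _
    have hG := (int_ev C (G ^ 2)).const_mul (t * t)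
    have hGH := hI.const_mul (2 * t)
    have h6 := integral_add (μ := C.μ)
      (f := fun q => (t * t) * C.ev q (G ^ 2) + (2 * t) * |C.ev q G * C.ev q H|)
      (g := fun q => C.ev q (H ^ 2)) (hG.add hGH) (int_ev C (H ^ 2))
    have h7 := integral_add (μ := C.μ) (f := fun q => (t * t) * C.ev q (G ^ 2))
      (g := fun q => (2 * t) * |C.ev q G * C.ev q H|) hG hGH
    rw [h6, h7, integral_const_mul, integral_const_mul] at h1
    have h3 : (∫ q, C.ev q (G ^ 2) ∂C.μ) = ig C (G ^ 2) := rfl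
    have h4 : (∫ q, C.ev q (H ^ 2) ∂C.μ) = ig C (H ^ 2) := rfl
    rw [h3, h4] at h1
    linarith
  have h5 := discrim_le_zero h
  unfold discrim at h5
  nlinarith

/-- two functions with small variance -/
theorem two (φ χ : C.A) {V δ : ℝ} (hφ : ∀ q, 0 < C.ev q φ) (hχ : ∀ q, 0 < C.ev q χ)
    (h1 : ig C (φ ^ 2) = 1 + δ) (h2 : ig C (χ ^ 2) = 1 + δ)
    (hV1 : ig C (φ ^ 2) - ig C φ ^ 2 ≤ V) (hV2 : ig C (χ ^ 2) - ig C χ ^ 2 ≤ V)
    (hV : V ≤ 1 + δ) :
    0 ≤ ig C ((φ - χ) ^ 2) ∧ ig C ((φ - χ) ^ 2) ≤ 4 * V ∧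
      ig C ((φ + χ) ^ 2) = 4 * (1 + δ) - ig C ((φ - χ) ^ 2) := by
  have hm : 0 ≤ ig C φ := ig_nonneg C fun q => (hφ q).le
  have hn : 0 ≤ ig C χ := ig_nonneg C fun q => (hχ q).le
  have e1 : (φ - χ) ^ 2 = φ ^ 2 - (2 : ℝ) • (φ * χ) + χ ^ 2 := by
    rw [Algebra.smul_def, map_ofNat]
    ring
  have e2 : (φ + χ) ^ 2 = φ ^ 2 + (2 : ℝ) • (φ * χ) + χ ^ 2 := by
    rw [Algebra.smul_def, map_ofNat]
    ring
  have a1 : ig C ((φ - χ) ^ 2) = 2 * (1 + δ) - 2 * ig C (φ * χ) := by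
    rw [e1, ig_add, ig_sub, ig_smul, h1, h2]
    ring
  have a2 : ig C ((φ + χ) ^ 2) = 2 * (1 + δ) + 2 * ig C (φ * χ) := by
    rw [e2, ig_add, ig_add, ig_smul, h1, h2]
    ring
  have h3 := jensen C (φ + χ)
  rw [a2, ig_add] at h3
  rw [h1] at hV1
  rw [h2] at hV2
  have hw : 0 ≤ 1 + δ - V := by linarith
  have hmn : 1 + δ - V ≤ ig C φ * ig C χ := by
    have h4 : (1 + δ - V) ^ 2 ≤ (ig C φ * ig C χ) ^ 2 := by
      rw [mul_pow, pow_two (1 + δ - V)]
      exact mul_le_mul (by linarith) (by linarith) hw (sq_nonneg _)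
    exact (le_abs_self _).trans (abs_le_of_sq_le_sq h4 (mul_nonneg hm hn))
  refine ⟨ig_nonneg C fun q => ?_, ?_, ?_⟩
  · rw [map_pow]
    exact sq_nonneg _
  · rw [a1]
    nlinarith
  · rw [a1, a2]
    ring

end Pair

open Pair in
/-- the lengths of two harmonic self-dual forms are almost equal -/
theorem s_pair (h1 : S_KTC) (h2 : S_DDH) : S_PAIR := by
  intro M _ _ _ _ N C W κ c hW hκ hc0 hc1 hPt hPo l u v hl hHu hHv hDu hDv hu0 hv0 hWu hWv
    hnu hnv heu hev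
  obtain ⟨-, -, -, -, -, -, -, -, -, -, -, hnqD, hnq0⟩ := h2 M N C
  have hde : ∀ w : Fk N C.A, Hor C w → DD C w = 0 → de C.F w = 0 := by
    intro w hw hD
    have h3 := hnqD w hw
    have h4 : nq C (DD C w) = 0 := by
      rw [hD, ← pr_self, pr_zero_left]
    have h5 := nq_nonneg C (dd C.F w)
    have h6 := nq_nonneg C (de C.F w)
    exact hnq0 _ (by linarith)
  have ku := h1 M N C W κ hW hPt l u hl hHu hDu (hde u hHu hu0) hWu
  have kv := h1 M N C W κ hW hPt l v hl hHv hDv (hde v hHv hv0) hWv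
  set I := ∫ q, |C.ev q (ip u u) - C.ev q (ip v v)| ∂C.μ with hI
  have key : ∀ δ : ℝ, 0 < δ →
      I ^ 2 ≤ 8 / 3 * c * (4 - 8 / 3 * c) + 32 / 3 * c * δ := by
    intro δ hδ
    obtain ⟨φ, hφ, hφ2, hφg⟩ := len C u ku hδ
    obtain ⟨χ, hχ, hχ2, hχg⟩ := len C v kv hδ
    have nφ : ig C (φ ^ 2) = 1 + δ := by
      have h3 : φ ^ 2 = ip u u + cs C δ := C.ext_ev _ _ fun q => by
        rw [map_pow, hφ2, map_add, ev_cs]
      rw [h3, ig_add, ig_cs]
      have h4 : ig C (ip u u) = 1 := hnu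
      rw [h4]
    have nχ : ig C (χ ^ 2) = 1 + δ := by
      have h3 : χ ^ 2 = ip v v + cs C δ := C.ext_ev _ _ fun q => by
        rw [map_pow, hχ2, map_add, ev_cs]
      rw [h3, ig_add, ig_cs]
      have h4 : ig C (ip v v) = 1 := hnv
      rw [h4]
    have hvar : ∀ (g : C.A) (w : Fk N C.A), 3 * ig C (gsq C g) ≤ 2 * en C w →
        en C w ≤ 4 * (c * κ) → ig C (g ^ 2) - ig C g ^ 2 ≤ 2 / 3 * c := by
      intro g w h3 h4
      have h5 := hPo g
      have h6 : ig C (gsq C g) ≤ 8 / 3 * (c * κ) := by linarith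
      have h7 : 1 / (4 * κ) * ig C (gsq C g) ≤ 1 / (4 * κ) * (8 / 3 * (c * κ)) :=
        mul_le_mul_of_nonneg_left h6 (by positivity)
      have h8 : 1 / (4 * κ) * (8 / 3 * (c * κ)) = 2 / 3 * c := by
        field_simp
        ring
      linarith
    obtain ⟨b1, b2, b3⟩ := two C φ χ hφ hχ nφ nχ (hvar φ u hφg heu) (hvar χ v hχg hev)
      (by linarith)
    have hcs := cs_abs C (φ - χ) (φ + χ)
    have hII : (∫ q, |C.ev q (φ - χ) * C.ev q (φ + χ)| ∂C.μ) = I := by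
      rw [hI]
      refine integral_congr_ae (Filter.Eventually.of_forall fun q => ?_)
      show |C.ev q (φ - χ) * C.ev q (φ + χ)| = |C.ev q (ip u u) - C.ev q (ip v v)|
      have h3 : C.ev q (φ - χ) * C.ev q (φ + χ) = C.ev q (ip u u) - C.ev q (ip v v) := by
        rw [map_sub, map_add]
        linear_combination hφ2 q - hχ2 q
      rw [h3]
    rw [hII, b3] at hcs
    refine hcs.trans ?_
    set a := ig C ((φ - χ) ^ 2) with ha
    have h9 : 0 ≤ (8 / 3 * c - a) * (4 * (1 + δ) - 8 / 3 * c - a) :=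
      mul_nonneg (by linarith) (by linarith)
    nlinarith
  apply Real.le_sqrt_of_sq_le
  refine le_of_forall_pos_le_add fun ε hε => ?_
  have h3 := key (ε / (32 / 3 * c + 1)) (by positivity)
  have h4 : 32 / 3 * c * (ε / (32 / 3 * c + 1)) ≤ ε := by
    rw [mul_div_assoc', div_le_iff₀ (by positivity)]
    nlinarith
  linarith

end Pool.Agent.H781.DF
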