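import Pool.Agent.H781.DF.A
import Pool.Agent.H781.KP.Poink

/-!
Sharp Poincaré inequality on closed manifolds with sectional curvature at least `κ > 0`, from the
eigenvalue estimate of Lichnerowicz and the spectral theorem (proved by helper218).
-/

set_option autoImplicit false
set_option synthInstance.maxHeartbeats 400000
set_option maxHeartbeats 4000000
set_option linter.unusedSectionVars false

open MeasureTheory Filter
open scoped Topology ContDiff

noncomputable section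

namespace Pool.Agent.H781.DF

open Pool.Agent.H781.NG Pool.Agent.H781.CM Pool.Agent.H781.H6 Pool.Agent.H781.KP

namespace Poinn

variable {M : Type} [TopologicalSpace M] [CompactSpace M] [MeasurableSpace M] [BorelSpace M]
  {N : ℕ} (C : CD M N)

/-- the function part of an element of the sum of the small eigenspaces is constant -/
theorem const_of_mem (h1 : S_LICHN) (h3 : S_DDH) {n : ℕ} {κ t : ℝ} (hn : 2 ≤ n) (hκ : 0 < κ)
    (ht : t < n * κ) (hK : PtK C n κ) (hC : Conn C)
    {u : Fk N C.A} (hu : u ∈ Ev C t) : ∃ c : ℝ, u ∅ = cs C c := by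
  refine Submodule.span_induction (p := fun u _ => ∃ c : ℝ, u ∅ = cs C c) ?_ ?_ ?_ ?_ hu
  · rintro u ⟨hu, l, hl0, hlt, hul⟩
    have hE := Poi.eigen C h3 hul
    rcases hl0.eq_or_lt with h0 | h0
    · have hL : Lap C (u ∅) = 0 := by rw [hE, ← h0, zero_smul, neg_zero]
      apply Poink.const_of_gsq C hC
      obtain ⟨-, -, -, -, -, -, -, -, -, -, hsym, -, -⟩ := h3 M N C
      rw [← Poi.nq_DD_fvac, ← pr_self, hsym, Poi.DDDD_fvac C h3, hL, zero_smul, neg_zero,
        pr_zero_right]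
    · by_cases hf : u ∅ = 0
      · exact ⟨0, by rw [hf]; unfold cs; rw [map_zero]⟩
      · exfalso
        have h5 := h1 M N C n κ hn hκ hK (u ∅) l h0 hE hf
        linarith
  · exact ⟨0, by unfold cs; rw [map_zero]; rfl⟩
  · rintro u v _ _ ⟨c, hc⟩ ⟨d, hd⟩
    exact ⟨c + d, by rw [Pi.add_apply, hc, hd]; unfold cs; rw [map_add]⟩
  · rintro r u _ ⟨c, hc⟩
    exact ⟨r * c, by rw [Pi.smul_apply, hc]; unfold cs; rw [map_mul, Algebra.smul_def]⟩

/-- the inequality with every constant `t < n κ` -/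
theorem poin_t (h1 : S_LICHN) (h2 : S_SPEC) (h3 : S_DDH) {n : ℕ} {κ t : ℝ} (hn : 2 ≤ n) (hκ : 0 < κ)
    (ht0 : 0 < t) (ht : t < n * κ) (hK : PtK C n κ) (hC : Conn C) (hMo : Moll C) (hDe : Dense2 C)
    (hRe : Reg C) (f : C.A) : t * (ig C (f ^ 2) - ig C f ^ 2) ≤ ig C (gsq C f) := by
  obtain ⟨-, -, hgap, -⟩ := h2 M N C hMo hDe hRe t ht0
  have hv := hgap ((f - cs C (ig C f)) • vac) (Poi.hor_fvac C _) (by
    intro u hu
    obtain ⟨c, hc⟩ := const_of_mem C h1 h3 hn hκ ht hK hC hu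
    have e : (f - cs C (ig C f)) * cs C c = c • (f - cs C (ig C f)) := by
      rw [Algebra.smul_def, mul_comm]
      rfl
    rw [Poi.pr_fvac, hc, e, ig_smul, ig_sub, ig_cs, sub_self, mul_zero])
  rw [Poi.nq_DD_fvac] at hv
  have e1 : gsq C (f - cs C (ig C f)) = gsq C f := by
    unfold gsq cs
    simp only [map_sub, Derivation.map_algebraMap, sub_zero]
  have e2 : nq C ((f - cs C (ig C f)) • (vac : Fk N C.A)) = ig C (f ^ 2) - ig C f ^ 2 := by
    rw [← pr_self, Poi.pr_fvac]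
    simp only [Pi.smul_apply, smul_eq_mul, Poi.vac_empty, mul_one]
    have e : (f - cs C (ig C f)) * (f - cs C (ig C f)) =
        f ^ 2 - (2 * ig C f) • f + cs C (ig C f ^ 2) := by
      have e' : (2 * ig C f) • f = 2 * cs C (ig C f) * f := by
        rw [Algebra.smul_def, map_mul, map_ofNat]
        rfl
      have e'' : cs C (ig C f ^ 2) = cs C (ig C f) ^ 2 := by
        unfold cs
        rw [map_pow]
      rw [e', e'']
      ring
    rw [e, ig_add, ig_sub, ig_smul, ig_cs]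
    ring
  rw [e1, e2] at hv
  exact hv

end Poinn

theorem s_poinn (h1 : S_LICHN) (h2 : S_SPEC) (h3 : S_DDH) : S_POINN := by
  intro M _ _ _ _ N C n κ hn hκ hK hC hMo hDe hRe f
  have hn0 : (0 : ℝ) < n := by
    have : 0 < n := by omega
    exact_mod_cast this
  have hnκ : (0 : ℝ) < n * κ := by positivity
  have hlim : Tendsto (fun t : ℝ => t * (ig C (f ^ 2) - ig C f ^ 2)) (𝓝[<] ((n : ℝ) * κ))
      (𝓝 ((n : ℝ) * κ * (ig C (f ^ 2) - ig C f ^ 2))) := by
    have hc : Continuous fun t : ℝ => t * (ig C (f ^ 2) - ig C f ^ 2) := by fun_prop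
    exact (hc.tendsto _).mono_left nhdsWithin_le_nhds
  have hmain : (n : ℝ) * κ * (ig C (f ^ 2) - ig C f ^ 2) ≤ ig C (gsq C f) := by
    refine le_of_tendsto hlim ?_
    have hev : ∀ᶠ t in 𝓝[<] ((n : ℝ) * κ), t ∈ Set.Ioo (0 : ℝ) (n * κ) := Ioo_mem_nhdsLT hnκ
    filter_upwards [hev] with t ht
    exact Poinn.poin_t C h1 h2 h3 hn hκ ht.1 ht.2 hK hC hMo hDe hRe f
  rw [one_div, ← div_eq_inv_mul, le_div_iff₀ hnκ]
  linarith

end Pool.Agent.H781.DF
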