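import Pool.Agent.H781.DF.A

/-!
Project DF, package Wp (helper8): lower bounds of the Weitzenböck form on (anti-)self-dual 2-forms.
-/

set_option autoImplicit false
set_option synthInstance.maxHeartbeats 400000
set_option maxHeartbeats 4000000
set_option linter.unusedSectionVars false

open MeasureTheory Filter
open scoped Topology ContDiff

noncomputable section

namespace Pool.Agent.H781.DF

open Pool.Agent.H781.NG Pool.Agent.H781.CM Pool.Agent.H781.H6 Pool.Agent.H781.KP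

namespace Wp

/-- the unit vectors -/
def ee (i : Fin 3) : Fin 3 → ℝ := fun j => if j = i then 1 else 0

/-- a quadratic form -/
def qq (M : Fin 3 → Fin 3 → ℝ) (x : Fin 3 → ℝ) : ℝ := ∑ i, ∑ j, x i * x j * M i j

/-- the trace -/
def tt (M : Fin 3 → Fin 3 → ℝ) : ℝ := ∑ i, M i i

/-- the square of the length -/
def nn (x : Fin 3 → ℝ) : ℝ := ∑ i, x i ^ 2

/-- cross product -/
def xx (x y : Fin 3 → ℝ) : Fin 3 → ℝ :=
  ![x 1 * y 2 - x 2 * y 1, x 2 * y 0 - x 0 * y 2, x 0 * y 1 - x 1 * y 0]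

theorem nn_eq (x : Fin 3 → ℝ) : nn x = x 0 ^ 2 + x 1 ^ 2 + x 2 ^ 2 := by
  unfold nn; rw [Fin.sum_univ_three]

theorem nn_nonneg (x : Fin 3 → ℝ) : 0 ≤ nn x := Finset.sum_nonneg fun _ _ => sq_nonneg _

theorem tt_eq (M : Fin 3 → Fin 3 → ℝ) : tt M = M 0 0 + M 1 1 + M 2 2 := by
  unfold tt; rw [Fin.sum_univ_three]

theorem qq_eq (M : Fin 3 → Fin 3 → ℝ) (x : Fin 3 → ℝ) :
    qq M x = x 0 * x 0 * M 0 0 + x 0 * x 1 * M 0 1 + x 0 * x 2 * M 0 2 +
      (x 1 * x 0 * M 1 0 + x 1 * x 1 * M 1 1 + x 1 * x 2 * M 1 2) +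
      (x 2 * x 0 * M 2 0 + x 2 * x 1 * M 2 1 + x 2 * x 2 * M 2 2) := by
  unfold qq; simp only [Fin.sum_univ_three]

theorem JJ_lin (l : ℝ) (x : Fin 3 → ℝ) (a b : Fin 4) :
    JJ l x a b = x 0 * JJ l (ee 0) a b + x 1 * JJ l (ee 1) a b + x 2 * JJ l (ee 2) a b := by
  fin_cases a <;> fin_cases b <;> simp [JJ, ee] <;> ring

theorem AA_exp (R : T4 4) (l : ℝ) (x y : Fin 3 → ℝ) :
    AA R l x y = ∑ i, ∑ j, x i * y j * AA R l (ee i) (ee j) := by
  have h : ∀ a b c d, R a b c d * JJ l x a b * JJ l y c d =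
      x 0 * y 0 * (R a b c d * JJ l (ee 0) a b * JJ l (ee 0) c d) +
      x 0 * y 1 * (R a b c d * JJ l (ee 0) a b * JJ l (ee 1) c d) +
      x 0 * y 2 * (R a b c d * JJ l (ee 0) a b * JJ l (ee 2) c d) +
      x 1 * y 0 * (R a b c d * JJ l (ee 1) a b * JJ l (ee 0) c d) +
      x 1 * y 1 * (R a b c d * JJ l (ee 1) a b * JJ l (ee 1) c d) +
      x 1 * y 2 * (R a b c d * JJ l (ee 1) a b * JJ l (ee 2) c d) +
      x 2 * y 0 * (R a b c d * JJ l (ee 2) a b * JJ l (ee 0) c d) +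
      x 2 * y 1 * (R a b c d * JJ l (ee 2) a b * JJ l (ee 1) c d) +
      x 2 * y 2 * (R a b c d * JJ l (ee 2) a b * JJ l (ee 2) c d) := by
    intro a b c d
    rw [JJ_lin l x a b, JJ_lin l y c d]
    ring
  unfold AA
  simp only [h, Finset.sum_add_distrib, ← Finset.mul_sum, Fin.sum_univ_three]
  ring

/-- the matrix of the form -/
def MM (R : T4 4) (l : ℝ) : Fin 3 → Fin 3 → ℝ := fun i j => AA R l (ee i) (ee j)

theorem AA_qq (R : T4 4) (l : ℝ) (x : Fin 3 → ℝ) : AA R l x x = qq (MM R l) x := AA_exp R l x x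

theorem trA_tt (R : T4 4) (l : ℝ) : trA R l = tt (MM R l) := rfl

theorem cross1 (M : Fin 3 → Fin 3 → ℝ) (x : Fin 3 → ℝ) :
    tt M * nn x - qq M x = qq M (xx x (ee 0)) + qq M (xx x (ee 1)) + qq M (xx x (ee 2)) := by
  simp only [nn_eq, qq_eq, tt_eq, xx, ee]
  simp
  ring

theorem cross1n (x : Fin 3 → ℝ) :
    2 * nn x = nn (xx x (ee 0)) + nn (xx x (ee 1)) + nn (xx x (ee 2)) := by
  simp only [nn_eq, xx, ee]
  simp
  ring

theorem L1 (M : Fin 3 → Fin 3 → ℝ) (a : ℝ) (h : ∀ x, a * nn x ≤ qq M x) (x : Fin 3 → ℝ) :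
    2 * a * nn x ≤ tt M * nn x - qq M x := by
  rw [cross1]
  have h1 := h (xx x (ee 0))
  have h2 := h (xx x (ee 1))
  have h3 := h (xx x (ee 2))
  have h4 := cross1n x
  have h5 : 2 * a * nn x = a * nn (xx x (ee 0)) + a * nn (xx x (ee 1)) + a * nn (xx x (ee 2)) := by
    rw [show 2 * a * nn x = a * (2 * nn x) by ring, h4]
    ring
  linarith

theorem cross2 (M : Fin 3 → Fin 3 → ℝ) (x y : Fin 3 → ℝ)
    (hd : x 0 * y 0 + x 1 * y 1 + x 2 * y 2 = 0) :
    tt M * (nn x * nn y) = qq M x * nn y + qq M y * nn x + qq M (xx x y) := by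
  have key : tt M * (nn x * nn y - (x 0 * y 0 + x 1 * y 1 + x 2 * y 2) ^ 2) =
      qq M x * nn y + qq M y * nn x + qq M (xx x y) -
      (x 0 * y 0 + x 1 * y 1 + x 2 * y 2) *
        (x 0 * y 0 * M 0 0 + x 0 * y 1 * M 0 1 + x 0 * y 2 * M 0 2 +
        (x 1 * y 0 * M 1 0 + x 1 * y 1 * M 1 1 + x 1 * y 2 * M 1 2) +
        (x 2 * y 0 * M 2 0 + x 2 * y 1 * M 2 1 + x 2 * y 2 * M 2 2) +
        (y 0 * x 0 * M 0 0 + y 0 * x 1 * M 0 1 + y 0 * x 2 * M 0 2 +
        (y 1 * x 0 * M 1 0 + y 1 * x 1 * M 1 1 + y 1 * x 2 * M 1 2) +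
        (y 2 * x 0 * M 2 0 + y 2 * x 1 * M 2 1 + y 2 * x 2 * M 2 2))) := by
    simp only [nn_eq, qq_eq, tt_eq, xx]
    simp
    ring
  rw [hd] at key
  linarith

theorem cross2n (x y : Fin 3 → ℝ) (hd : x 0 * y 0 + x 1 * y 1 + x 2 * y 2 = 0) :
    nn x * nn y = nn (xx x y) := by
  have key : nn x * nn y - (x 0 * y 0 + x 1 * y 1 + x 2 * y 2) ^ 2 = nn (xx x y) := by
    simp only [nn_eq, xx]
    simp
    ring
  rw [hd] at key
  linarith

/-- the case of orthogonal vectors -/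
theorem L2o (M : Fin 3 → Fin 3 → ℝ) (m κ : ℝ) (h1 : ∀ z, -m * nn z ≤ qq M z)
    (h2 : ∀ z, 4 * κ * nn z ≤ tt M * nn z + qq M z) (x y : Fin 3 → ℝ)
    (hd : x 0 * y 0 + x 1 * y 1 + x 2 * y 2 = 0) (hxy : nn y ≤ nn x) :
    2 * κ * (nn x + nn y) - 2 * (κ + m) * (nn x - nn y) ≤ tt M * (nn x + nn y) - qq M x - qq M y := by
  rcases (nn_nonneg y).lt_or_eq with hy | hy
  · have hx : 0 < nn x := lt_of_lt_of_le hy hxy
    have e1 := cross2 M x y hd
    have e2 := cross2n x y hd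
    have h3 := h2 (xx x y)
    have h4 := h1 (xx x y)
    have h5 := h1 y
    have hp : 0 < nn x * nn y := mul_pos hx hy
    rw [← e2] at h3 h4
    -- multiply by `nn x * nn y`
    have goal : 0 ≤ (nn x * nn y) * (tt M * (nn x + nn y) - qq M x - qq M y -
        (2 * κ * (nn x + nn y) - 2 * (κ + m) * (nn x - nn y))) := by
      have e3 : qq M x * nn y = tt M * (nn x * nn y) - qq M y * nn x - qq M (xx x y) := by
        linarith
      have e4 : (nn x * nn y) * (tt M * (nn x + nn y) - qq M x - qq M y -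
          (2 * κ * (nn x + nn y) - 2 * (κ + m) * (nn x - nn y))) =
          nn y * ((tt M * (nn x * nn y) + qq M (xx x y)) - 4 * κ * (nn x * nn y)) +
          (nn x - nn y) * ((qq M (xx x y) + m * (nn x * nn y)) +
            nn x * (qq M y + m * nn y)) := by
        have e5 : (nn x * nn y) * (tt M * (nn x + nn y) - qq M x - qq M y -
          (2 * κ * (nn x + nn y) - 2 * (κ + m) * (nn x - nn y))) =
          (nn x * nn y) * (tt M * (nn x + nn y)) - nn x * (qq M x * nn y) -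
          (nn x * nn y) * qq M y - (nn x * nn y) *
          (2 * κ * (nn x + nn y) - 2 * (κ + m) * (nn x - nn y)) := by ring
        rw [e5, e3]
        ring
      rw [e4]
      have t1 : 0 ≤ nn y * ((tt M * (nn x * nn y) + qq M (xx x y)) - 4 * κ * (nn x * nn y)) :=
        mul_nonneg hy.le (by linarith)
      have t2 : 0 ≤ (nn x - nn y) * ((qq M (xx x y) + m * (nn x * nn y)) +
            nn x * (qq M y + m * nn y)) := by
        refine mul_nonneg (by linarith) (add_nonneg (by linarith) (mul_nonneg hx.le (by linarith)))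
      linarith
    have := nonneg_of_mul_nonneg_right goal hp
    linarith
  · have hy0 : ∀ i, y i = 0 := by
      intro i
      have h6 : y i ^ 2 ≤ nn y := Finset.single_le_sum (f := fun i => y i ^ 2)
        (fun _ _ => sq_nonneg _) (Finset.mem_univ i)
      have h7 : y i ^ 2 = 0 := le_antisymm (by rw [hy]; exact h6) (sq_nonneg _)
      exact pow_eq_zero_iff (two_ne_zero) |>.1 h7
    have hq : qq M y = 0 := by
      rw [qq_eq]; simp [hy0]
    have h8 := L1 M (-m) h1 x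
    rw [hq, ← hy]
    linarith

/-- general vectors -/
theorem L2 (M : Fin 3 → Fin 3 → ℝ) (m κ : ℝ) (h1 : ∀ z, -m * nn z ≤ qq M z)
    (h2 : ∀ z, 4 * κ * nn z ≤ tt M * nn z + qq M z) (x y : Fin 3 → ℝ) :
    2 * κ * (nn x + nn y) - 2 * (κ + m) *
      √((nn x - nn y) ^ 2 + 4 * (x 0 * y 0 + x 1 * y 1 + x 2 * y 2) ^ 2) ≤
      tt M * (nn x + nn y) - qq M x - qq M y := by
  set w : ℂ := ⟨nn x - nn y, 2 * (x 0 * y 0 + x 1 * y 1 + x 2 * y 2)⟩ with hw
  set D : ℝ := √((nn x - nn y) ^ 2 + 4 * (x 0 * y 0 + x 1 * y 1 + x 2 * y 2) ^ 2) with hD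
  have hDw : ‖w‖ = D := by
    rw [hD, Complex.norm_eq_sqrt_sq_add_sq]
    congr 1
    rw [hw]
    ring
  set t : ℝ := Complex.arg w / 2 with ht
  have hc : D * Real.cos (2 * t) = nn x - nn y := by
    rw [ht, mul_div_cancel₀ _ two_ne_zero, ← hDw, Complex.norm_mul_cos_arg]
  have hs : D * Real.sin (2 * t) = 2 * (x 0 * y 0 + x 1 * y 1 + x 2 * y 2) := by
    rw [ht, mul_div_cancel₀ _ two_ne_zero, ← hDw, Complex.norm_mul_sin_arg]
  rw [Real.cos_two_mul'] at hc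
  rw [Real.sin_two_mul] at hs
  set c : ℝ := Real.cos t with hcd
  set s : ℝ := Real.sin t with hsd
  have hcs : s ^ 2 + c ^ 2 = 1 := Real.sin_sq_add_cos_sq t
  set X : Fin 3 → ℝ := fun i => c * x i + s * y i with hX
  set Y : Fin 3 → ℝ := fun i => -s * x i + c * y i with hY
  have k1 : nn X + nn Y = nn x + nn y := by
    have : nn X + nn Y = (s ^ 2 + c ^ 2) * (nn x + nn y) := by
      simp only [nn_eq, hX, hY]
      ring
    rw [this, hcs, one_mul]
  have k2 : qq M X + qq M Y = qq M x + qq M y := by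
    have : qq M X + qq M Y = (s ^ 2 + c ^ 2) * (qq M x + qq M y) := by
      simp only [qq_eq, hX, hY]
      ring
    rw [this, hcs, one_mul]
  have k3 : nn X - nn Y = D := by
    have : nn X - nn Y = (c ^ 2 - s ^ 2) * (nn x - nn y) +
        2 * s * c * (2 * (x 0 * y 0 + x 1 * y 1 + x 2 * y 2)) := by
      simp only [nn_eq, hX, hY]
      ring
    rw [this, ← hc, ← hs]
    have e : (c ^ 2 - s ^ 2) * (D * (c ^ 2 - s ^ 2)) + 2 * s * c * (D * (2 * s * c)) =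
        D * (s ^ 2 + c ^ 2) ^ 2 := by ring
    rw [e, hcs, one_pow, mul_one]
  have k4 : X 0 * Y 0 + X 1 * Y 1 + X 2 * Y 2 = 0 := by
    have e : 2 * (X 0 * Y 0 + X 1 * Y 1 + X 2 * Y 2) = -(2 * s * c) * (nn x - nn y) +
        (c ^ 2 - s ^ 2) * (2 * (x 0 * y 0 + x 1 * y 1 + x 2 * y 2)) := by
      simp only [nn_eq, hX, hY]
      ring
    rw [← hc, ← hs] at e
    have e' : -(2 * s * c) * (D * (c ^ 2 - s ^ 2)) + (c ^ 2 - s ^ 2) * (D * (2 * s * c)) = 0 := by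
      ring
    linarith
  have hD0 : 0 ≤ D := Real.sqrt_nonneg _
  have key := L2o M m κ h1 h2 X Y k4 (by linarith)
  rw [k1, k3] at key
  linarith

theorem scale (M : Fin 3 → Fin 3 → ℝ) (a : ℝ) (h : ∀ x, nn x = 1 → a ≤ qq M x) (x : Fin 3 → ℝ) :
    a * nn x ≤ qq M x := by
  rcases (nn_nonneg x).lt_or_eq with hx | hx
  · have hs : 0 < √(nn x) := Real.sqrt_pos.2 hx
    have hss : √(nn x) ^ 2 = nn x := Real.sq_sqrt hx.le
    have e1 : nn (fun i => x i / √(nn x)) = 1 := by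
      have : nn (fun i => x i / √(nn x)) = nn x / √(nn x) ^ 2 := by
        rw [nn_eq, nn_eq x]
        field_simp
      rw [this, hss, div_self hx.ne']
    have e2 : qq M (fun i => x i / √(nn x)) = qq M x / √(nn x) ^ 2 := by
      rw [qq_eq, qq_eq]
      field_simp
    have h1 := h _ e1
    rw [e2, hss, le_div_iff₀ hx] at h1
    exact h1
  · have hy0 : ∀ i, x i = 0 := by
      intro i
      have h6 : x i ^ 2 ≤ nn x := Finset.single_le_sum (f := fun i => x i ^ 2)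
        (fun _ _ => sq_nonneg _) (Finset.mem_univ i)
      have h7 : x i ^ 2 = 0 := le_antisymm (by rw [hx]; exact h6) (sq_nonneg _)
      exact pow_eq_zero_iff (two_ne_zero) |>.1 h7
    have hq : qq M x = 0 := by
      rw [qq_eq]; simp [hy0]
    rw [hq, ← hx, mul_zero]

theorem unit_ee (i : Fin 3) : nn (ee i) = 1 := by
  rw [nn_eq]
  fin_cases i <;> simp [ee]

theorem tt_ge (M : Fin 3 → Fin 3 → ℝ) (a : ℝ) (h : ∀ x, nn x = 1 → a ≤ qq M x) : 3 * a ≤ tt M := by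
  have h0 := h _ (unit_ee 0)
  have h1 := h _ (unit_ee 1)
  have h2 := h _ (unit_ee 2)
  have e : tt M = qq M (ee 0) + qq M (ee 1) + qq M (ee 2) := by
    simp only [tt_eq, qq_eq, ee]
    simp
  linarith

theorem minima (M M' : Fin 3 → Fin 3 → ℝ) (m κ : ℝ) (h1 : ∀ x, nn x = 1 → -m ≤ qq M x)
    (h2 : ∀ x, nn x = 1 → -m ≤ qq M' x)
    (h3 : ∀ x y, nn x = 1 → nn y = 1 → 2 * κ ≤ qq M x + qq M' y) :
    ∃ a b : ℝ, -m ≤ a ∧ -m ≤ b ∧ 2 * κ ≤ a + b ∧ (∀ x, nn x = 1 → a ≤ qq M x) ∧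
      ∀ x, nn x = 1 → b ≤ qq M' x := by
  have n1 : ((fun x => qq M x) '' {x | nn x = 1}).Nonempty := ⟨_, ee 0, unit_ee 0, rfl⟩
  have n2 : ((fun x => qq M' x) '' {x | nn x = 1}).Nonempty := ⟨_, ee 0, unit_ee 0, rfl⟩
  have b1 : BddBelow ((fun x => qq M x) '' {x | nn x = 1}) :=
    ⟨-m, by rintro _ ⟨x, hx, rfl⟩; exact h1 x hx⟩
  have b2 : BddBelow ((fun x => qq M' x) '' {x | nn x = 1}) :=
    ⟨-m, by rintro _ ⟨x, hx, rfl⟩; exact h2 x hx⟩
  refine ⟨sInf ((fun x => qq M x) '' {x | nn x = 1}), sInf ((fun x => qq M' x) '' {x | nn x = 1}),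
    ?_, ?_, ?_, ?_, ?_⟩
  · exact le_csInf n1 (by rintro _ ⟨x, hx, rfl⟩; exact h1 x hx)
  · exact le_csInf n2 (by rintro _ ⟨x, hx, rfl⟩; exact h2 x hx)
  · have h4 : 2 * κ - sInf ((fun x => qq M x) '' {x | nn x = 1}) ≤
        sInf ((fun x => qq M' x) '' {x | nn x = 1}) := by
      refine le_csInf n2 ?_
      rintro _ ⟨y, hy, rfl⟩
      have h5 : 2 * κ - qq M' y ≤ sInf ((fun x => qq M x) '' {x | nn x = 1}) := by
        refine le_csInf n1 ?_
        rintro _ ⟨x, hx, rfl⟩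
        have := h3 x y hx hy
        simp only
        linarith
      simp only
      linarith
    linarith
  · intro x hx
    exact csInf_le b1 ⟨x, hx, rfl⟩
  · intro x hx
    exact csInf_le b2 ⟨x, hx, rfl⟩

theorem t_ge (t a b κ : ℝ) (h1 : 3 * a ≤ t) (h2 : 3 * b ≤ t)
    (h3 : 2 * κ ≤ a + b) : 4 * κ ≤ t + a := by
  rcases le_total κ a with h | h
  · linarith
  · linarith

end Wp

open Wp in
theorem s_wp (h1 : S_SD) (h2 : S_WPA) : S_WP := by
  intro R κ c hR hκ hc hK hO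
  obtain ⟨w1, w2, w3, w4⟩ := h2 R hR
  have g1 : ∀ x, nn x = 1 → -(c * κ) ≤ qq (MM R 1) x := by
    intro x hx
    have h := w4 (2 * (c * κ)) 1 x (by norm_num) hO
    rw [AA_qq] at h
    have hx' : ∑ i, x i ^ 2 = 1 := hx
    rw [hx'] at h
    linarith
  have g2 : ∀ x, nn x = 1 → -(c * κ) ≤ qq (MM R (-1)) x := by
    intro x hx
    have h := w4 (2 * (c * κ)) (-1) x (by norm_num) hO
    rw [AA_qq] at h
    have hx' : ∑ i, x i ^ 2 = 1 := hx
    rw [hx'] at h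
    linarith
  have g3 : ∀ x y, nn x = 1 → nn y = 1 → 2 * κ ≤ qq (MM R 1) x + qq (MM R (-1)) y := by
    intro x y hx hy
    have h := w3 κ hK x y hx hy
    rwa [AA_qq, AA_qq] at h
  obtain ⟨a, b, ha, hb, hab, ha', hb'⟩ := minima _ _ _ _ g1 g2 g3
  have ta := tt_ge _ _ ha'
  have tb := tt_ge _ _ hb'
  have hrc : ∀ (l : ℝ) (x : Fin 3 → ℝ), l ^ 2 = 1 →
      rc R (sd l x) = 2 * (tt (MM R l) * nn x - qq (MM R l) x) := by
    intro l x hl
    rw [w1 l x hl, AA_qq, trA_tt]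
    rfl
  have htr : tt (MM R 1) = tt (MM R (-1)) := w2
  have hip : ∀ (l : ℝ) (x : Fin 3 → ℝ), l ^ 2 = 1 → ip (sd l x) (sd l x) = nn x := by
    intro l x hl
    rw [(h1 l hl).2.1]
    unfold nn
    exact Finset.sum_congr rfl fun i _ => (sq (x i)).symm
  have l1 : (1 : ℝ) ^ 2 = 1 := by norm_num
  have l2 : (-1 : ℝ) ^ 2 = 1 := by norm_num
  refine ⟨⟨a, b, ha, hb, hab, ?_, ?_⟩, ?_⟩
  · intro u hu hu'
    obtain ⟨x, rfl⟩ := (h1 1 l1).1 u hu (by rw [hu', one_smul])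
    rw [hip 1 x l1, hrc 1 x l1]
    have := L1 _ a (scale _ _ ha') x
    linarith
  · intro u hu hu'
    obtain ⟨x, rfl⟩ := (h1 (-1) l2).1 u hu (by rw [hu', neg_one_smul])
    rw [hip (-1) x l2, hrc (-1) x l2]
    have := L1 _ b (scale _ _ hb') x
    linarith
  · intro l hl u v hu hv hu' hv'
    obtain ⟨x, rfl⟩ := (h1 l hl).1 u hu hu'
    obtain ⟨y, rfl⟩ := (h1 l hl).1 v hv hv'
    have hipxy : ip (sd l x) (sd l y) = x 0 * y 0 + x 1 * y 1 + x 2 * y 2 := by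
      rw [(h1 l hl).2.1, Fin.sum_univ_three]
    rw [hip l x hl, hip l y hl, hrc l x hl, hrc l y hl, hipxy]
    have hl' : l = 1 ∨ l = -1 := by
      have : (l - 1) * (l + 1) = 0 := by nlinarith
      rcases mul_eq_zero.1 this with h | h
      · left; linarith
      · right; linarith
    have key : ∃ A : ℝ, (∀ z, nn z = 1 → A ≤ qq (MM R l) z) ∧ -(c * κ) ≤ A ∧
        4 * κ ≤ tt (MM R l) + A := by
      rcases hl' with rfl | rfl
      · exact ⟨a, ha', ha, t_ge _ a b κ ta (by rw [htr]; exact tb) hab⟩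
      · exact ⟨b, hb', hb, t_ge _ b a κ tb (by rw [← htr]; exact ta) (by linarith)⟩
    obtain ⟨A, hA1, hA2, hA3⟩ := key
    have h5 := L2 (MM R l) (c * κ) κ (fun z => by
      have h6 := scale _ _ hA1 z
      have h7 := nn_nonneg z
      nlinarith) (fun z => by
      have h6 := scale _ _ hA1 z
      have h7 := nn_nonneg z
      nlinarith) x y
    have e : 4 * κ * (1 + c) *
        √((nn x - nn y) ^ 2 + 4 * (x 0 * y 0 + x 1 * y 1 + x 2 * y 2) ^ 2) =
        2 * (2 * (κ + c * κ) *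
        √((nn x - nn y) ^ 2 + 4 * (x 0 * y 0 + x 1 * y 1 + x 2 * y 2) ^ 2)) := by ring
    rw [e]
    linarith

end Pool.Agent.H781.DF
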