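import Pool.Agent.H781.DF.A
import Pool.Agent.H781.H6.L4

/-!
Project DF, part WPA: the Weitzenböck form on (anti-)self-dual 2-forms of `ℝ⁴`.
-/

set_option autoImplicit false
set_option synthInstance.maxHeartbeats 400000
set_option maxHeartbeats 4000000
set_option linter.unusedSectionVars false

open MeasureTheory Filter
open scoped Topology ContDiff

noncomputable section

namespace Pool.Agent.H781.DF

open Pool.Agent.H781.NG Pool.Agent.H781.CM Pool.Agent.H781.H6 Pool.Agent.H781.KP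

namespace Wpa

/-! ### contraction of `sd l x` -/

theorem sd_card (l : ℝ) (x : Fin 3 → ℝ) (S : Finset (Fin 4)) (hS : S.card ≠ 2) :
    sd l x S = 0 := by
  unfold sd
  rw [if_neg (by rintro rfl; exact hS (by decide)), if_neg (by rintro rfl; exact hS (by decide)),
    if_neg (by rintro rfl; exact hS (by decide)), if_neg (by rintro rfl; exact hS (by decide)),
    if_neg (by rintro rfl; exact hS (by decide)), if_neg (by rintro rfl; exact hS (by decide))]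

theorem an_card {k : ℕ} {u : Fk 4 ℝ} (hu : ∀ S : Finset (Fin 4), S.card ≠ k + 1 → u S = 0)
    (a : Fin 4) (S : Finset (Fin 4)) (hS : S.card ≠ k) : an a u S = 0 := by
  rw [an_apply]
  split_ifs with h
  · rfl
  · rw [hu _ (by rw [Finset.card_insert_of_notMem h]; omega), mul_zero]

theorem zero_vac {v : Fk 4 ℝ} (hv : ∀ S : Finset (Fin 4), S.card ≠ 0 → v S = 0) :
    v = v ∅ • vac := by
  funext S
  rw [Pi.smul_apply, smul_eq_mul]
  by_cases h : S = ∅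
  · subst h
    simp [vac]
  · rw [hv S (by rwa [Ne, Finset.card_eq_zero]), vac, if_neg h, mul_zero]

theorem vac_vac : ip (vac : Fk 4 ℝ) vac = 1 := by
  unfold ip vac
  simp

theorem ip_one {v w : Fk 4 ℝ} (hv : ∀ S : Finset (Fin 4), S.card ≠ 1 → v S = 0) :
    ip v w = ∑ k : Fin 4, v {k} * w {k} := by
  unfold ip
  symm
  refine Finset.sum_of_injOn (fun k : Fin 4 => ({k} : Finset (Fin 4))) ?_ ?_ ?_ ?_
  · intro i _ j _ hij
    exact Finset.singleton_injective hij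
  · intro i _
    simp
  · intro S _ hS
    rw [hv S, zero_mul]
    intro hc
    obtain ⟨k, rfl⟩ := Finset.card_eq_one.1 hc
    exact hS ⟨k, by simp, rfl⟩
  · intro i _
    rfl

theorem an_empty (k : Fin 4) (v : Fk 4 ℝ) : an k v ∅ = v {k} := by
  rw [an_apply, if_neg (Finset.notMem_empty k)]
  simp [sg]

theorem sg_single (a b : Fin 4) : sg a ({b} : Finset (Fin 4)) = if b < a then -1 else 1 := by
  unfold sg
  rw [Finset.filter_singleton]
  split_ifs <;> simp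

theorem an_single (l : ℝ) (x : Fin 3 → ℝ) (a b : Fin 4) :
    an a (sd l x) {b} = JJ l x a b / √2 := by
  rw [an_apply, sg_single]
  fin_cases a <;> fin_cases b <;> simp (decide := true) [sd, JJ] <;> ring

theorem an_an_sd (l : ℝ) (x : Fin 3 → ℝ) (a b : Fin 4) :
    an b (an a (sd l x)) = (JJ l x a b / √2) • (vac : Fk 4 ℝ) := by
  have h := zero_vac (v := an b (an a (sd l x)))
    (an_card (an_card (k := 1) (sd_card l x) a) b)
  rw [h, an_empty, an_single]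

/-! ### `JJ` -/

theorem sqrt_mul (u v : ℝ) : u / √2 * (v / √2) = u * v / 2 := by
  rw [div_mul_div_comm, Real.mul_self_sqrt (by norm_num)]

theorem pm {l : ℝ} (hl : l ^ 2 = 1) : l = 1 ∨ l = -1 :=
  mul_self_eq_one_iff.1 (by rw [← sq]; exact hl)

theorem JJ_sum (l : ℝ) (hl : l ^ 2 = 1) (x : Fin 3 → ℝ) (a c : Fin 4) :
    ∑ k, JJ l x a k * JJ l x c k = if a = c then ∑ i, x i ^ 2 else 0 := by
  rcases pm hl with rfl | rfl <;> fin_cases a <;> fin_cases c <;>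
    simp [JJ, Fin.sum_univ_four, Fin.sum_univ_three] <;> ring

theorem ee (l : ℝ) (hl : l ^ 2 = 1) (x : Fin 3 → ℝ) (a b c d : Fin 4) :
    ip (cr b (an a (sd l x))) (cr d (an c (sd l x))) =
      (if b = d then (if a = c then (∑ i, x i ^ 2) / 2 else 0) else 0) -
        JJ l x a d * JJ l x c b / 2 := by
  rw [ip_cr, an_cr, ip_sub_right, ← ip_an, an_an_sd, an_an_sd, ip_smul_left, ip_smul_right,
    vac_vac, mul_one, sqrt_mul]
  congr 1
  split_ifs with h1 h2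
  · subst h2
    rw [ip_one (an_card (sd_card l x) a)]
    simp only [an_single, sqrt_mul]
    rw [← Finset.sum_div, JJ_sum l hl, if_pos rfl]
  · rw [ip_one (an_card (sd_card l x) a)]
    simp only [an_single, sqrt_mul]
    rw [← Finset.sum_div, JJ_sum l hl, if_neg h2, zero_div]
  · exact ip_zero_right _

/-! ### sums over the components -/

theorem j00 (l : ℝ) (x : Fin 3 → ℝ) : JJ l x 0 0 = 0 := rfl
theorem j01 (l : ℝ) (x : Fin 3 → ℝ) : JJ l x 0 1 = x 0 := rfl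
theorem j02 (l : ℝ) (x : Fin 3 → ℝ) : JJ l x 0 2 = x 1 := rfl
theorem j03 (l : ℝ) (x : Fin 3 → ℝ) : JJ l x 0 3 = x 2 := rfl
theorem j10 (l : ℝ) (x : Fin 3 → ℝ) : JJ l x 1 0 = - x 0 := rfl
theorem j11 (l : ℝ) (x : Fin 3 → ℝ) : JJ l x 1 1 = 0 := rfl
theorem j12 (l : ℝ) (x : Fin 3 → ℝ) : JJ l x 1 2 = - (l * x 2) := rfl
theorem j13 (l : ℝ) (x : Fin 3 → ℝ) : JJ l x 1 3 = l * x 1 := rfl
theorem j20 (l : ℝ) (x : Fin 3 → ℝ) : JJ l x 2 0 = - x 1 := rfl
theorem j21 (l : ℝ) (x : Fin 3 → ℝ) : JJ l x 2 1 = l * x 2 := rfl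
theorem j22 (l : ℝ) (x : Fin 3 → ℝ) : JJ l x 2 2 = 0 := rfl
theorem j23 (l : ℝ) (x : Fin 3 → ℝ) : JJ l x 2 3 = - (l * x 0) := rfl
theorem j30 (l : ℝ) (x : Fin 3 → ℝ) : JJ l x 3 0 = - x 2 := rfl
theorem j31 (l : ℝ) (x : Fin 3 → ℝ) : JJ l x 3 1 = - (l * x 1) := rfl
theorem j32 (l : ℝ) (x : Fin 3 → ℝ) : JJ l x 3 2 = l * x 0 := rfl
theorem j33 (l : ℝ) (x : Fin 3 → ℝ) : JJ l x 3 3 = 0 := rfl

theorem z12 {R : T4 4} (h : IsAC R) (a c d : Fin 4) : R a a c d = 0 := by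
  have := h.a12 a a c d
  linarith

theorem z34 {R : T4 4} (h : IsAC R) (a b c : Fin 4) : R a b c c = 0 := by
  have := h.a34 a b c c
  linarith

/-- the sum of `R` against a product of two skew-symmetric matrices -/
theorem sum_skew {R : T4 4} (h : IsAC R) (V W : Fin 4 → Fin 4 → ℝ) (hV : ∀ a b, V a b = - V b a)
    (hW : ∀ a b, W a b = - W b a) :
    ∑ a, ∑ b, ∑ c, ∑ d, R a b c d * V a b * W c d =
      4 * (R 0 1 0 1 * V 0 1 * W 0 1 + R 0 1 0 2 * V 0 1 * W 0 2 + R 0 1 0 3 * V 0 1 * W 0 3 +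
        R 0 1 1 2 * V 0 1 * W 1 2 + R 0 1 1 3 * V 0 1 * W 1 3 + R 0 1 2 3 * V 0 1 * W 2 3 +
        R 0 2 0 1 * V 0 2 * W 0 1 + R 0 2 0 2 * V 0 2 * W 0 2 + R 0 2 0 3 * V 0 2 * W 0 3 +
        R 0 2 1 2 * V 0 2 * W 1 2 + R 0 2 1 3 * V 0 2 * W 1 3 + R 0 2 2 3 * V 0 2 * W 2 3 +
        R 0 3 0 1 * V 0 3 * W 0 1 + R 0 3 0 2 * V 0 3 * W 0 2 + R 0 3 0 3 * V 0 3 * W 0 3 +
        R 0 3 1 2 * V 0 3 * W 1 2 + R 0 3 1 3 * V 0 3 * W 1 3 + R 0 3 2 3 * V 0 3 * W 2 3 +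
        R 1 2 0 1 * V 1 2 * W 0 1 + R 1 2 0 2 * V 1 2 * W 0 2 + R 1 2 0 3 * V 1 2 * W 0 3 +
        R 1 2 1 2 * V 1 2 * W 1 2 + R 1 2 1 3 * V 1 2 * W 1 3 + R 1 2 2 3 * V 1 2 * W 2 3 +
        R 1 3 0 1 * V 1 3 * W 0 1 + R 1 3 0 2 * V 1 3 * W 0 2 + R 1 3 0 3 * V 1 3 * W 0 3 +
        R 1 3 1 2 * V 1 3 * W 1 2 + R 1 3 1 3 * V 1 3 * W 1 3 + R 1 3 2 3 * V 1 3 * W 2 3 +
        R 2 3 0 1 * V 2 3 * W 0 1 + R 2 3 0 2 * V 2 3 * W 0 2 + R 2 3 0 3 * V 2 3 * W 0 3 +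
        R 2 3 1 2 * V 2 3 * W 1 2 + R 2 3 1 3 * V 2 3 * W 1 3 + R 2 3 2 3 * V 2 3 * W 2 3) := by
  have hVz : ∀ a, V a a = 0 := fun a => by
    have := hV a a
    linarith
  have hWz : ∀ a, W a a = 0 := fun a => by
    have := hW a a
    linarith
  have key : ∀ (T : Fin 4 → Fin 4 → ℝ), (∀ a b, T a b = - T b a) → ∀ X : Fin 4 → Fin 4 → ℝ,
      (∀ a b, X a b = - X b a) → ∑ a, ∑ b, T a b * X a b = 2 * (T 0 1 * X 0 1 + T 0 2 * X 0 2 +
        T 0 3 * X 0 3 + T 1 2 * X 1 2 + T 1 3 * X 1 3 + T 2 3 * X 2 3) := by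
    intro T hT X hX
    have hXz : ∀ a, X a a = 0 := fun a => by
      have := hX a a
      linarith
    simp only [Fin.sum_univ_four, hXz]
    rw [hT 1 0, hT 2 0, hT 3 0, hT 2 1, hT 3 1, hT 3 2, hX 1 0, hX 2 0, hX 3 0, hX 2 1, hX 3 1,
      hX 3 2]
    ring
  have e1 : ∀ a b, ∑ c, ∑ d, R a b c d * V a b * W c d = (2 * (R a b 0 1 * W 0 1 +
      R a b 0 2 * W 0 2 + R a b 0 3 * W 0 3 + R a b 1 2 * W 1 2 + R a b 1 3 * W 1 3 +
      R a b 2 3 * W 2 3)) * V a b := by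
    intro a b
    rw [← key (R a b) (h.a34 a b) W hW, Finset.sum_mul]
    refine Finset.sum_congr rfl fun c _ => ?_
    rw [Finset.sum_mul]
    refine Finset.sum_congr rfl fun d _ => ?_
    ring
  simp only [e1]
  rw [key (fun a b => 2 * (R a b 0 1 * W 0 1 + R a b 0 2 * W 0 2 + R a b 0 3 * W 0 3 +
    R a b 1 2 * W 1 2 + R a b 1 3 * W 1 3 + R a b 2 3 * W 2 3)) _ V hV]
  · ring
  · intro a b
    rw [h.a12 a b 0 1, h.a12 a b 0 2, h.a12 a b 0 3, h.a12 a b 1 2, h.a12 a b 1 3, h.a12 a b 2 3]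
    ring

theorem JJ_skew (l : ℝ) (x : Fin 3 → ℝ) (a b : Fin 4) : JJ l x a b = - JJ l x b a := by
  fin_cases a <;> fin_cases b <;> simp [JJ]

theorem AA_eq {R : T4 4} (h : IsAC R) (l : ℝ) (hl : l ^ 2 = 1) (x : Fin 3 → ℝ) :
    AA R l x x = -(1 / 2) * (
      x 0 ^ 2 * (R 0 1 0 1 + R 2 3 2 3 - 2 * l * R 0 1 2 3) +
      x 1 ^ 2 * (R 0 2 0 2 + R 1 3 1 3 + 2 * l * R 0 2 1 3) +
      x 2 ^ 2 * (R 0 3 0 3 + R 1 2 1 2 - 2 * l * R 0 3 1 2) +
      2 * x 0 * x 1 * (R 0 1 0 2 + l * R 0 1 1 3 - l * R 0 2 2 3 - R 1 3 2 3) +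
      2 * x 0 * x 2 * (R 0 1 0 3 - l * R 0 1 1 2 - l * R 0 3 2 3 + R 1 2 2 3) +
      2 * x 1 * x 2 * (R 0 2 0 3 - l * R 0 2 1 2 + l * R 0 3 1 3 - R 1 2 1 3)) := by
  unfold AA
  rw [sum_skew h _ _ (JJ_skew l x) (JJ_skew l x)]
  simp only [j01, j02, j03, j12, j13, j23]
  rw [h.pr 0 2 0 1, h.pr 0 3 0 1, h.pr 0 3 0 2, h.pr 1 2 0 1, h.pr 1 2 0 2, h.pr 1 2 0 3,
    h.pr 1 3 0 1, h.pr 1 3 0 2, h.pr 1 3 0 3, h.pr 1 3 1 2, h.pr 2 3 0 1, h.pr 2 3 0 2,
    h.pr 2 3 0 3, h.pr 2 3 1 2, h.pr 2 3 1 3]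
  rcases pm hl with rfl | rfl <;> ring

theorem f01 : ((0 : Fin 3) = 1) = False := by simp
theorem f02 : ((0 : Fin 3) = 2) = False := by simp
theorem f10 : ((1 : Fin 3) = 0) = False := by simp
theorem f12 : ((1 : Fin 3) = 2) = False := by simp
theorem f20 : ((2 : Fin 3) = 0) = False := by simp
theorem f21 : ((2 : Fin 3) = 1) = False := by simp

theorem trA_eq {R : T4 4} (h : IsAC R) (l : ℝ) (hl : l ^ 2 = 1) :
    trA R l = -(1 / 2) * (R 0 1 0 1 + R 0 2 0 2 + R 0 3 0 3 + R 1 2 1 2 + R 1 3 1 3 +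
      R 2 3 2 3) := by
  unfold trA
  simp only [AA_eq h l hl, Fin.sum_univ_three]
  have hb := h.bi 0 1 2 3
  rw [h.a12 2 0 1 3, h.pr 1 2 0 3] at hb
  simp only [if_true, if_false, f01, f02, f10, f12, f20, f21]
  linear_combination l * hb

/-- the Weitzenböck form -/
theorem rc_eq {R : T4 4} (h : IsAC R) (l : ℝ) (hl : l ^ 2 = 1) (x : Fin 3 → ℝ) :
    rc R (sd l x) = 2 * (trA R l * ∑ i, x i ^ 2 - AA R l x x) := by
  have e1 : rc R (sd l x) = -(∑ a, ∑ b, R a b a b * ((∑ i, x i ^ 2) / 2)) +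
      (∑ a, ∑ b, ∑ c, ∑ d, R a b c d * (JJ l x a d * JJ l x c b)) / 2 := by
    unfold rc
    simp only [ee l hl, mul_sub, Finset.sum_sub_distrib, mul_ite, mul_zero, Finset.sum_ite_eq,
      Finset.mem_univ, if_true]
    have e2 : ∑ a, ∑ b, ∑ c, ∑ d, R a b c d * (JJ l x a d * JJ l x c b / 2) =
        (∑ a, ∑ b, ∑ c, ∑ d, R a b c d * (JJ l x a d * JJ l x c b)) / 2 := by
      simp only [Finset.sum_div, mul_div_assoc]
    rw [e2]
    ring
  have hb := h.bi 0 1 2 3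
  rw [h.a12 2 0 1 3, h.pr 1 2 0 3] at hb
  rw [e1, trA_eq h l hl, AA_eq h l hl]
  simp only [Fin.sum_univ_four, Fin.sum_univ_three, z12 h, z34 h, zero_mul, mul_zero, add_zero,
    zero_add, j00, j01, j02, j03, j10, j11, j12, j13, j20, j21, j22, j23, j30, j31, j32, j33]
  simp only [h.a12 1 0, h.a12 2 0, h.a12 3 0, h.a12 2 1, h.a12 3 1, h.a12 3 2]
  have k10 : ∀ a b, R a b 1 0 = - R a b 0 1 := fun a b => h.a34 a b 1 0
  have k20 : ∀ a b, R a b 2 0 = - R a b 0 2 := fun a b => h.a34 a b 2 0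
  have k30 : ∀ a b, R a b 3 0 = - R a b 0 3 := fun a b => h.a34 a b 3 0
  have k21 : ∀ a b, R a b 2 1 = - R a b 1 2 := fun a b => h.a34 a b 2 1
  have k31 : ∀ a b, R a b 3 1 = - R a b 1 3 := fun a b => h.a34 a b 3 1
  have k32 : ∀ a b, R a b 3 2 = - R a b 2 3 := fun a b => h.a34 a b 3 2
  have hb' : R 0 3 1 2 = R 0 2 1 3 - R 0 1 2 3 := by linarith
  simp only [k10, k20, k30, k21, k31, k32]
  simp only [h.pr 0 2 0 1, h.pr 0 3 0 1, h.pr 0 3 0 2, h.pr 1 2 0 1, h.pr 1 2 0 2, h.pr 1 2 0 3,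
    h.pr 1 3 0 1, h.pr 1 3 0 2, h.pr 1 3 0 3, h.pr 1 3 1 2, h.pr 2 3 0 1, h.pr 2 3 0 2,
    h.pr 2 3 0 3, h.pr 2 3 1 2, h.pr 2 3 1 3, hb']
  rcases pm hl with rfl | rfl <;> ring

/-! ### sectional curvature -/

theorem R4_12 {R : T4 4} (h : IsAC R) (x y z w : Fin 4 → ℝ) : R4 R x y z w = - R4 R y x z w := by
  unfold R4
  rw [Finset.sum_comm, ← Finset.sum_neg_distrib]
  refine Finset.sum_congr rfl fun a _ => ?_
  rw [← Finset.sum_neg_distrib]
  refine Finset.sum_congr rfl fun b _ => ?_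
  rw [← Finset.sum_neg_distrib]
  refine Finset.sum_congr rfl fun c _ => ?_
  rw [← Finset.sum_neg_distrib]
  refine Finset.sum_congr rfl fun d _ => ?_
  rw [h.a12 b a c d]
  ring

theorem R4_34 {R : T4 4} (h : IsAC R) (x y z w : Fin 4 → ℝ) : R4 R x y z w = - R4 R x y w z := by
  unfold R4
  rw [← Finset.sum_neg_distrib]
  refine Finset.sum_congr rfl fun a _ => ?_
  rw [← Finset.sum_neg_distrib]
  refine Finset.sum_congr rfl fun b _ => ?_
  rw [Finset.sum_comm, ← Finset.sum_neg_distrib]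
  refine Finset.sum_congr rfl fun c _ => ?_
  rw [← Finset.sum_neg_distrib]
  refine Finset.sum_congr rfl fun d _ => ?_
  rw [h.a34 a b d c]
  ring

theorem plane {R : T4 4} (h : IsAC R) (u v : Fin 4 → ℝ) :
    ∑ a, ∑ b, ∑ c, ∑ d, R a b c d * (u a * v b - v a * u b) * (u c * v d - v c * u d) =
      -4 * R4 R u v v u := by
  have e : ∑ a, ∑ b, ∑ c, ∑ d, R a b c d * (u a * v b - v a * u b) * (u c * v d - v c * u d) =
      R4 R u v u v - R4 R u v v u - R4 R v u u v + R4 R v u v u := by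
    unfold R4
    simp only [← Finset.sum_add_distrib, ← Finset.sum_sub_distrib]
    refine Finset.sum_congr rfl fun a _ => ?_
    refine Finset.sum_congr rfl fun b _ => ?_
    refine Finset.sum_congr rfl fun c _ => ?_
    refine Finset.sum_congr rfl fun d _ => ?_
    ring
  have e1 := R4_34 h u v u v
  have e2 := R4_12 h v u u v
  have e3 := R4_12 h v u v u
  linarith

theorem compl {g : Fin 4 → Fin 4 → ℝ} (hg : ON g) (a b : Fin 4) :
    ∑ i, g i a * g i b = if a = b then 1 else 0 := by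
  have h1 : (Matrix.of g) * (Matrix.of g).transpose = 1 := by
    ext i j
    rw [Matrix.mul_apply, Matrix.one_apply]
    exact hg i j
  have h2 : (Matrix.of g).transpose * (Matrix.of g) = 1 := mul_eq_one_comm.1 h1
  have h3 := congrFun (congrFun h2 a) b
  rw [Matrix.mul_apply, Matrix.one_apply] at h3
  exact h3

theorem entry {g : Fin 4 → Fin 4 → ℝ} (hg : ON g) (A : Matrix (Fin 4) (Fin 4) ℝ) (a b : Fin 4) :
    A a b = ∑ i, (A.mulVec (g i)) a * g i b := by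
  have e : ∀ i, (A.mulVec (g i)) a * g i b = ∑ c, A a c * (g i c * g i b) := by
    intro i
    rw [Matrix.mulVec, dotProduct, Finset.sum_mul]
    refine Finset.sum_congr rfl fun c _ => ?_
    ring
  simp only [e]
  rw [Finset.sum_comm]
  simp only [← Finset.mul_sum, compl hg]
  simp

theorem kge {R : T4 4} (h : IsAC R) (κ : ℝ) (hk : KGE R κ) (x y : Fin 3 → ℝ)
    (hx : ∑ i, x i ^ 2 = 1) (hy : ∑ i, y i ^ 2 = 1) : 2 * κ ≤ AA R 1 x x + AA R (-1) y y := by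
  rw [Fin.sum_univ_three] at hx hy
  obtain ⟨g, hg, a0, a1, a2, a3, b0, b1, b2, b3⟩ := L4.frame (L4.JA y) (L4.JB x) (L4.JA_t y)
    (L4.JB_t x) (L4.JA_sq y hy) (L4.JB_sq x hx) (L4.J_comm y x) (L4.J_ne y x hy) (L4.J_ne' y x hy)
  have eA : ∀ a b, JJ (-1) y a b = (g 1 a * g 0 b - g 0 a * g 1 b) +
      (g 3 a * g 2 b - g 2 a * g 3 b) := by
    intro a b
    have e : JJ (-1) y a b = L4.JA y a b := by
      fin_cases a <;> fin_cases b <;> simp [JJ, L4.JA]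
    rw [e, entry hg (L4.JA y) a b, Fin.sum_univ_four, a0, a1, a2, a3]
    simp only [Pi.neg_apply]
    ring
  have eB : ∀ a b, JJ 1 x a b = (g 1 a * g 0 b - g 0 a * g 1 b) -
      (g 3 a * g 2 b - g 2 a * g 3 b) := by
    intro a b
    have e : JJ 1 x a b = L4.JB x a b := by
      fin_cases a <;> fin_cases b <;> simp [JJ, L4.JB]
    rw [e, entry hg (L4.JB x) a b, Fin.sum_univ_four, b0, b1, b2, b3]
    simp only [Pi.neg_apply]
    ring
  have e1 := plane h (g 1) (g 0)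
  have e2 := plane h (g 3) (g 2)
  have k1 := hk (g 1) (g 0) (by simpa using hg 1 1) (by simpa using hg 0 0)
    (by simpa using hg 1 0)
  have k2 := hk (g 3) (g 2) (by simpa using hg 3 3) (by simpa using hg 2 2)
    (by simpa using hg 3 2)
  have e3 : (∑ a, ∑ b, ∑ c, ∑ d, R a b c d * JJ 1 x a b * JJ 1 x c d) +
      (∑ a, ∑ b, ∑ c, ∑ d, R a b c d * JJ (-1) y a b * JJ (-1) y c d) =
      2 * (∑ a, ∑ b, ∑ c, ∑ d, R a b c d * (g 1 a * g 0 b - g 0 a * g 1 b) *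
        (g 1 c * g 0 d - g 0 c * g 1 d)) +
      2 * (∑ a, ∑ b, ∑ c, ∑ d, R a b c d * (g 3 a * g 2 b - g 2 a * g 3 b) *
        (g 3 c * g 2 d - g 2 c * g 3 d)) := by
    simp only [eA, eB, Finset.mul_sum, ← Finset.sum_add_distrib]
    refine Finset.sum_congr rfl fun a _ => ?_
    refine Finset.sum_congr rfl fun b _ => ?_
    refine Finset.sum_congr rfl fun c _ => ?_
    refine Finset.sum_congr rfl fun d _ => ?_
    ring
  unfold AA
  rw [e1, e2] at e3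
  linarith

theorem cop {R : T4 4} (ε l : ℝ) (x : Fin 3 → ℝ) (hl : l ^ 2 = 1) (hR : COp R ε) :
    - (ε / 2) * ∑ i, x i ^ 2 ≤ AA R l x x := by
  have h1 := hR (JJ l x) (JJ_skew l x)
  have h2 : ∑ a, ∑ b, JJ l x a b ^ 2 = 4 * ∑ i, x i ^ 2 := by
    have h3 : ∀ a, ∑ b, JJ l x a b ^ 2 = ∑ i, x i ^ 2 := by
      intro a
      have h4 := JJ_sum l hl x a a
      rw [if_pos rfl] at h4
      rw [← h4]
      refine Finset.sum_congr rfl fun k _ => ?_
      ring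
    simp only [h3]
    simp
  rw [h2] at h1
  unfold AA
  linarith

end Wpa

theorem s_wpa (_h : S_SD) : S_WPA := by
  intro R hR
  refine ⟨fun l x hl => Wpa.rc_eq hR l hl x, ?_, fun κ hk x y hx hy => Wpa.kge hR κ hk x y hx hy,
    fun ε l x hl hc => Wpa.cop ε l x hl hc⟩
  rw [Wpa.trA_eq hR 1 (by norm_num), Wpa.trA_eq hR (-1) (by norm_num)]

end Pool.Agent.H781.DF
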