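import Pool.Agent.H781.DF.A
import Pool.Agent.H781.KP.Kax
import Pool.Agent.H781.CM.Base

/-!
Project DF: transfer of the lower bounds of the Weitzenböck term to the manifold (`S_WPC`).
-/

set_option autoImplicit false
set_option synthInstance.maxHeartbeats 400000
set_option maxHeartbeats 4000000
set_option linter.unusedSectionVars false

open MeasureTheory Filter
open scoped Topology ContDiff

noncomputable section

namespace Pool.Agent.H781.DF

open Pool.Agent.H781.NG Pool.Agent.H781.CM Pool.Agent.H781.H6 Pool.Agent.H781.KP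

namespace Wpc

variable {M : Type} [TopologicalSpace M] [CompactSpace M] [MeasurableSpace M] [BorelSpace M]
  {N n : ℕ} (C : CD M N) {q : M} {b : Fin n → Fin N → ℝ} {τ : Fk n ℝ →ₗ[ℝ] Fk N ℝ}

/-- horizontal forms at a point -/
theorem range (hτ : IsTau b τ) (hP : ∀ a c, C.ev q (C.P a c) = ∑ i, b i a * b i c)
    {u : Fk N C.A} (hu : Hor C u) : ∃ u', τ u' = evF C q u := by
  refine hτ.range _ fun c' => ?_
  rw [← evF_an, hu c', evF_sum]
  refine Finset.sum_congr rfl fun a _ => ?_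
  rw [evF_smul, evF_an, hP]

theorem inj (hτ : IsTau b τ) {s t : Fk n ℝ} (h : τ s = τ t) : s = t := by
  have e1 : NG.ip (s - t) (s - t) = 0 := by
    rw [← hτ.ip, map_sub, h, sub_self, ip_zero_left]
  exact sub_eq_zero.1 (ip_self_eq_zero e1)

theorem ricT (h2 : S_RCT) (h4 : S_RMP) (hτ : IsTau b τ)
    (hP : ∀ a c, C.ev q (C.P a c) = ∑ i, b i a * b i c) {u : Fk N C.A} {u' : Fk n ℝ}
    (hu : τ u' = evF C q u) : C.ev q (ric C.F u) = rc (Rb C q b) u' := by
  obtain ⟨φ, hφ⟩ : ∃ φ : C.A →+* ℝ, ∀ g, φ g = C.ev q g :=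
    ⟨(C.ev q : C.A →ₐ[ℝ] ℝ).toRingHom, fun _ => rfl⟩
  have hmp : ∀ w : Fk N C.A, evF C q w = Kax.mp φ w :=
    fun w => funext fun S => (hφ (w S)).symm
  obtain ⟨r1, r2, r3, r4⟩ := h4 M N C
  have e1 : C.ev q (ric C.F u) = rc (Rq C q) (evF C q u) := by
    rw [← hφ, Kax.mp_ric φ C.F u, hmp]
    unfold rc Rq
    simp only [hφ]
  have e2 := h2 N n b τ (Rq C q) hτ (by
    intro a' e' c' d'
    have h5 : ∀ f, (∑ i, b i e' * b i f) * Rq C q a' f c' d' =
        - C.ev q (C.P e' f * Rm C.F f a' c' d') := by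
      intro f
      unfold Rq
      rw [← hP e' f, map_mul, r3 a' f c' d', map_neg]
      ring
    rw [Finset.sum_congr rfl fun f _ => h5 f, Finset.sum_neg_distrib, ← map_sum, r2]
    unfold Rq
    rw [r3 a' e' c' d', map_neg]) (by
    intro a' e' c' d'
    have h5 : ∀ f, (∑ i, b i c' * b i f) * Rq C q a' e' f d' =
        C.ev q (C.P c' f * Rm C.F a' e' f d') := by
      intro f
      unfold Rq
      rw [← hP c' f, map_mul]
    have h6 : ∀ f, (∑ i, b i d' * b i f) * Rq C q a' e' c' f =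
        C.ev q (C.P d' f * Rm C.F a' e' c' f) := by
      intro f
      unfold Rq
      rw [← hP d' f, map_mul]
    rw [Finset.sum_congr rfl fun f _ => h5 f, Finset.sum_congr rfl fun f _ => h6 f,
      ← map_sum, ← map_sum, r1]) u'
  rw [e1, ← hu, e2]
  rfl

theorem cop (hb : ON b) (hP : ∀ a c, C.ev q (C.P a c) = ∑ i, b i a * b i c) {ε : ℝ}
    (hcurv : CurvGE C ε) : COp (Rb C q b) ε := by
  intro w hw
  have e1 := hcurv q (Kax.WW b w) (Kax.WW_skew b hw) (fun a' e' => by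
    rw [← Kax.WW_P hb w a' e']
    exact Finset.sum_congr rfl fun c' _ => by rw [hP a' c'])
  rw [Kax.WW_sq hb w, Kax.WW_R b w fun a b c d => C.ev q (Rm C.F a b c d)] at e1
  exact e1

theorem degT (hτ : IsTau b τ) {p : ℕ} {u : Fk N C.A} (hu : Deg p u) {u' : Fk n ℝ}
    (h : τ u' = evF C q u) : Deg p u' := by
  rw [← hτ.deg, h]
  intro S hS
  show C.ev q (u S) = 0
  rw [hu S hS, map_zero]

/-- forms of top degree -/
theorem top {w : Fk 4 ℝ} (hw : Deg 4 w) : w = w Finset.univ • Gam 4 := by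
  funext S
  show w S = w Finset.univ * (if S = Finset.univ then 1 else 0)
  by_cases h : S = Finset.univ
  · rw [h, if_pos rfl, mul_one]
  · rw [if_neg h, mul_zero]
    apply hw
    intro hc
    apply h
    apply Finset.eq_univ_of_card
    rw [hc, Fintype.card_fin]

theorem ip_top (s : ℝ) : NG.ip (s • Gam 4 : Fk 4 ℝ) (s • Gam 4) = s ^ 2 := by
  unfold NG.ip
  rw [Finset.sum_eq_single Finset.univ]
  · show s * (if Finset.univ = Finset.univ then 1 else 0) *
      (s * (if Finset.univ = Finset.univ then 1 else 0)) = s ^ 2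
    rw [if_pos rfl]
    ring
  · intro S _ hS
    show s * (if S = Finset.univ then 1 else 0) * (s * (if S = Finset.univ then 1 else 0)) = 0
    rw [if_neg hS]
    ring
  · intro h
    exact absurd (Finset.mem_univ _) h

theorem smul_l (s : ℝ) (u v : Fk 4 ℝ) : mulF (s • u) v = s • mulF u v := by
  funext R
  show ∑ S, (sg2 S (symmDiff S R) : ℝ) * (s * u S) * v (symmDiff S R) =
    s * ∑ S, (sg2 S (symmDiff S R) : ℝ) * u S * v (symmDiff S R)
  rw [Finset.mul_sum]
  exact Finset.sum_congr rfl fun S _ => by ring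

end Wpc

open Wpc in
theorem s_wpc (h1 : S_TAU) (h2 : S_RCT) (h3 : S_TMUL) (h4 : S_RMP) (h5 : S_WP) : S_WPC := by
  intro M _ _ _ _ N C W κ c hW hκ hc hpt hcurv q
  obtain ⟨b, hb, hP, hAC, hK⟩ := hpt q
  obtain ⟨τ, hτ⟩ := h1 N 4 b hb
  have hCO : COp (Rb C q b) (2 * (c * κ)) := cop C hb hP hcurv
  obtain ⟨⟨x, y, hx, hy, hxy, hA1, hA2⟩, hB⟩ := h5 (Rb C q b) κ c hAC hκ hc hK hCO
  -- the volume form
  obtain ⟨W', hW'⟩ := range C hτ hP hW.hor
  have hWd : Deg 4 W' := degT C hτ hW.deg hW'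
  obtain ⟨s, hs⟩ : ∃ s, s = W' Finset.univ := ⟨_, rfl⟩
  have hWt : W' = s • Gam 4 := by rw [hs]; exact top hWd
  have hs2 : s ^ 2 = 1 := by
    rw [← ip_top s, ← hWt, ← hτ.ip, hW', ← ev_ip, hW.one, map_one]
  -- transfer of the forms
  have key : ∀ (l : ℝ) (u : Fk N C.A), Hor C u → Deg 2 u → mulF W u = l • u →
      ∃ u' : Fk 4 ℝ, τ u' = evF C q u ∧ Deg 2 u' ∧ mulF (Gam 4) u' = (s * l) • u' ∧
        C.ev q (ric C.F u) = rc (Rb C q b) u' := by
    intro l u hu hd hl
    obtain ⟨u', hu'⟩ := range C hτ hP hu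
    refine ⟨u', hu', degT C hτ hd hu', ?_, ricT C h2 h4 hτ hP hu'⟩
    have e1 : mulF W' u' = l • u' := by
      apply inj hτ
      rw [h3 N 4 b τ hτ, hW', hu', ← evF_mulF, hl, evF_smulR, map_smul, hu']
    rw [hWt, smul_l] at e1
    have e2 : s • (s • mulF (Gam 4) u') = s • (l • u') := by rw [e1]
    rw [smul_smul, smul_smul, ← sq, hs2, one_smul] at e2
    exact e2
  have hip : ∀ (u v : Fk N C.A) (u' v' : Fk 4 ℝ), τ u' = evF C q u → τ v' = evF C q v →
      C.ev q (NG.ip u v) = NG.ip u' v' := by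
    intro u v u' v' hu hv
    rw [ev_ip, ← hu, ← hv, hτ.ip]
  refine ⟨?_, ?_⟩
  · rcases sq_eq_one_iff.1 hs2 with hs1 | hs1
    · refine ⟨x, y, hx, hy, hxy, ?_, ?_⟩
      · intro u hu hd hWu
        obtain ⟨u', a1, a2, a3, a4⟩ := key 1 u hu hd (by rw [one_smul]; exact hWu)
        rw [hs1, one_mul, one_smul] at a3
        rw [hip u u u' u' a1 a1, a4]
        exact hA1 u' a2 a3
      · intro u hu hd hWu
        obtain ⟨u', a1, a2, a3, a4⟩ := key (-1) u hu hd (by rw [neg_smul, one_smul]; exact hWu)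
        rw [hs1, one_mul, neg_smul, one_smul] at a3
        rw [hip u u u' u' a1 a1, a4]
        exact hA2 u' a2 a3
    · refine ⟨y, x, hy, hx, by linarith, ?_, ?_⟩
      · intro u hu hd hWu
        obtain ⟨u', a1, a2, a3, a4⟩ := key 1 u hu hd (by rw [one_smul]; exact hWu)
        rw [hs1, mul_one, neg_smul, one_smul] at a3
        rw [hip u u u' u' a1 a1, a4]
        exact hA2 u' a2 a3
      · intro u hu hd hWu
        obtain ⟨u', a1, a2, a3, a4⟩ := key (-1) u hu hd (by rw [neg_smul, one_smul]; exact hWu)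
        rw [hs1, neg_one_mul, neg_neg, one_smul] at a3
        rw [hip u u u' u' a1 a1, a4]
        exact hA1 u' a2 a3
  · intro l hl u v hu hv hdu hdv hWu hWv
    obtain ⟨u', a1, a2, a3, a4⟩ := key l u hu hdu hWu
    obtain ⟨v', b1, b2, b3, b4⟩ := key l v hv hdv hWv
    have := hB (s * l) (by rw [mul_pow, hs2, hl, one_mul]) u' v' a2 b2 a3 b3
    rw [hip u u u' u' a1 a1, hip v v v' v' b1 b1, hip u v u' v' a1 b1, a4, b4]
    exact this

end Pool.Agent.H781.DF
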