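import Pool.Agent.H781.KP.AllK
import Pool.Agent.H781.CM.AllN
import Pool.Agent.H781.DF.Wpc
import Pool.Agent.H781.DF.Wp
import Pool.Agent.H781.DF.Wpa
import Pool.Agent.H781.DF.Kt
import Pool.Agent.H781.DF.Ktc
import Pool.Agent.H781.DF.Poinn
import Pool.Agent.H781.DF.Lichn
import Pool.Agent.H781.DF.Defa
import Pool.Agent.H781.DF.Defb
import Pool.Agent.H781.DF.Ken
import Pool.Agent.H781.DF.L2
import Pool.Agent.H781.DF.Pair
import Pool.Agent.H781.DF.Def
import Pool.Agent.H781.DF.Sd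
import Pool.Agent.H781.DF.Main4

/-!
Assembly of project DF.
-/

set_option autoImplicit false

namespace Pool.Agent.H781.DF

open Pool.Agent.H781.CM Pool.Agent.H781.H6 Pool.Agent.H781.KP

theorem kt : S_KTC :=
  s_ktc s_tau (s_tmul clif) (s_kt s_sd) w4 clim ddh

theorem wpc : S_WPC := s_wpc s_tau s_rct (s_tmul clif) rmp (s_wp s_sd (s_wpa s_sd))

theorem def4 : S_DEF :=
  s_def (s_poinn (s_lichn s_bochf rmp) spec ddh) (s_defa wpc (s_ken kt ddh) s_l2)
    (s_defb wpc (s_pair kt ddh)) (s_harm spec ddh) w4 (s_stk w4 clif clim ddh) ddh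

theorem main4 : S_MAIN4 := s_main4 def4

end Pool.Agent.H781.DF
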