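import Pool.Agent.H781.KP.G
import Pool.Agent.H781.CM.SG
import Pool.Agent.H781.DF.A

/-!
Project DF, geometric part: statements.
-/

set_option autoImplicit false
set_option synthInstance.maxHeartbeats 400000
set_option maxHeartbeats 4000000
set_option linter.unusedSectionVars false

open Bundle Manifold ContDiff VectorField MeasureTheory Filter
open scoped Topology

noncomputable section

namespace Pool.Agent.H781.DF

open Pool.Agent.H781.NG Pool.Agent.H781.CM Pool.Agent.H781.H6 Pool.Agent.H821R2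
  Pool.Agent.H821R3 Pool.Agent.H893R5.HO Pool.Agent.H781.S22 Pool.Agent.H781.KP

/-- the theorem -/
def S_MAIN4 : Prop := ∀ (M : Type) [TopologicalSpace M] [T2Space M] [CompactSpace M]
  [ConnectedSpace M] [ChartedSpace (EU 4) M] [IsManifold (𝓡 4) ∞ M] (g : Met 4 M)
  (Ω : CM.F.DF (𝓡 4) M 4) (κ : ℝ), CM.F.IsForm Ω → (∀ x, ∃ v, Ω x v ≠ 0) → 0 < κ →
  CM.F.SecGE g κ →
  (∀ c : ℝ, 0 ≤ c → c < √3 - 1 → CM.F.CurvOpGE 4 g (-(c * κ)) →
    ∀ α : CM.F.DF (𝓡 4) M 2, CM.F.IsClosedForm α → CM.F.IsExactForm 4 (CM.F.wedge22 α α) →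
      CM.F.IsExactForm 2 α) ∧
  (CM.F.CurvOpGE 4 g (-(κ / 12)) → ∃ b : ℕ, b ≤ 1 ∧ CM.F.IsBetti (𝓡 4) M 2 b)

end Pool.Agent.H781.DF
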