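import Pool.Agent.H781.DF.A

/-!
Project DF: the (anti-)self-dual 2-forms in coordinates.
-/

set_option autoImplicit false
set_option synthInstance.maxHeartbeats 400000
set_option maxHeartbeats 4000000
set_option linter.unusedSectionVars false

open MeasureTheory Filter
open scoped Topology ContDiff

noncomputable section

namespace Pool.Agent.H781.DF

open Pool.Agent.H781.NG Pool.Agent.H781.CM Pool.Agent.H781.H6 Pool.Agent.H781.KP

namespace Sd

theorem sd01 (l : ℝ) (x : Fin 3 → ℝ) : sd l x {0, 1} = x 0 / √2 := by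
  unfold sd
  rw [if_pos rfl]

theorem sd23 (l : ℝ) (x : Fin 3 → ℝ) : sd l x {2, 3} = - (l * x 0) / √2 := by
  unfold sd
  rw [if_neg (by decide), if_pos rfl]

theorem sd02 (l : ℝ) (x : Fin 3 → ℝ) : sd l x {0, 2} = x 1 / √2 := by
  unfold sd
  rw [if_neg (by decide), if_neg (by decide), if_pos rfl]

theorem sd13 (l : ℝ) (x : Fin 3 → ℝ) : sd l x {1, 3} = l * x 1 / √2 := by
  unfold sd
  rw [if_neg (by decide), if_neg (by decide), if_neg (by decide), if_pos rfl]

theorem sd03 (l : ℝ) (x : Fin 3 → ℝ) : sd l x {0, 3} = x 2 / √2 := by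
  unfold sd
  rw [if_neg (by decide), if_neg (by decide), if_neg (by decide), if_neg (by decide), if_pos rfl]

theorem sd12 (l : ℝ) (x : Fin 3 → ℝ) : sd l x {1, 2} = - (l * x 2) / √2 := by
  unfold sd
  rw [if_neg (by decide), if_neg (by decide), if_neg (by decide), if_neg (by decide),
    if_neg (by decide), if_pos rfl]

theorem sd_other (l : ℝ) (x : Fin 3 → ℝ) {S : Finset (Fin 4)} (h01 : S ≠ {0, 1})
    (h23 : S ≠ {2, 3}) (h02 : S ≠ {0, 2}) (h13 : S ≠ {1, 3}) (h03 : S ≠ {0, 3})
    (h12 : S ≠ {1, 2}) : sd l x S = 0 := by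
  unfold sd
  rw [if_neg h01, if_neg h23, if_neg h02, if_neg h13, if_neg h03, if_neg h12]

theorem card_ne : ∀ S : Finset (Fin 4), S ≠ {0, 1} → S ≠ {2, 3} → S ≠ {0, 2} → S ≠ {1, 3} →
    S ≠ {0, 3} → S ≠ {1, 2} → S.card ≠ 2 := by decide

theorem mul_gam (u : Fk 4 ℝ) (R : Finset (Fin 4)) :
    mulF (Gam 4) u R = (sg2 Finset.univ (symmDiff Finset.univ R) : ℝ) *
      u (symmDiff Finset.univ R) := by
  unfold mulF
  rw [Finset.sum_eq_single (Finset.univ : Finset (Fin 4))]
  · unfold Gam
    rw [if_pos rfl, mul_one]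
  · intro S _ hS
    unfold Gam
    rw [if_neg hS, mul_zero, zero_mul]
  · intro h
    exact absurd (Finset.mem_univ _) h

theorem sum6 (f : Finset (Fin 4) → ℝ) (hf : ∀ S : Finset (Fin 4), S ≠ {0, 1} → S ≠ {2, 3} →
    S ≠ {0, 2} → S ≠ {1, 3} → S ≠ {0, 3} → S ≠ {1, 2} → f S = 0) :
    ∑ S, f S = f {0, 1} + (f {2, 3} + (f {0, 2} + (f {1, 3} + (f {0, 3} + f {1, 2})))) := by
  have h : ∑ S, f S = ∑ S ∈ ({{0, 1}, {2, 3}, {0, 2}, {1, 3}, {0, 3}, {1, 2}} :
      Finset (Finset (Fin 4))), f S := by
    symm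
    refine Finset.sum_subset (Finset.subset_univ _) fun S _ hS => ?_
    simp only [Finset.mem_insert, Finset.mem_singleton, not_or] at hS
    exact hf S hS.1 hS.2.1 hS.2.2.1 hS.2.2.2.1 hS.2.2.2.2.1 hS.2.2.2.2.2
  rw [h, Finset.sum_insert (by decide), Finset.sum_insert (by decide),
    Finset.sum_insert (by decide), Finset.sum_insert (by decide), Finset.sum_insert (by decide),
    Finset.sum_singleton]

theorem an_ne {a b : Fin 4} (w : Fk 4 ℝ) {c : ℤ} {S : Finset (Fin 4)}
    (hab : a ∉ ({b} : Finset (Fin 4))) (hc : sg a {b} = c) (hS : insert a {b} = S) : an a w {b} = (c : ℝ) * w S := by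
  rw [an_apply, if_neg hab, hc, hS]

theorem an_eq {a : Fin 4} (w : Fk 4 ℝ) : an a w {a} = 0 := by
  rw [an_apply, if_pos (Finset.mem_singleton_self a)]

end Sd

open Sd

theorem s_sd : S_SD := by
  intro l hl
  have h2 : (0:ℝ) < √2 := Real.sqrt_pos.2 two_pos
  have h22 : √2 * √2 = (2:ℝ) := Real.mul_self_sqrt two_pos.le
  have hne : √2 ≠ (0:ℝ) := h2.ne'
  refine ⟨fun u hu hg => ?_, fun x y => ?_, fun T hT => ?_⟩
  · have e01 : l * u {0, 1} = - u {2, 3} := by
      have h := congrFun hg {0, 1}
      rw [mul_gam, show symmDiff Finset.univ ({0, 1} : Finset (Fin 4)) = {2, 3} by decide,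
        show sg2 (Finset.univ : Finset (Fin 4)) {2, 3} = -1 by decide] at h
      rw [Pi.smul_apply, smul_eq_mul] at h
      rw [← h]
      push_cast
      ring
    have e02 : l * u {0, 2} = u {1, 3} := by
      have h := congrFun hg {0, 2}
      rw [mul_gam, show symmDiff Finset.univ ({0, 2} : Finset (Fin 4)) = {1, 3} by decide,
        show sg2 (Finset.univ : Finset (Fin 4)) {1, 3} = 1 by decide] at h
      rw [Pi.smul_apply, smul_eq_mul] at h
      rw [← h]
      push_cast
      ring
    have e03 : l * u {0, 3} = - u {1, 2} := by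
      have h := congrFun hg {0, 3}
      rw [mul_gam, show symmDiff Finset.univ ({0, 3} : Finset (Fin 4)) = {1, 2} by decide,
        show sg2 (Finset.univ : Finset (Fin 4)) {1, 2} = -1 by decide] at h
      rw [Pi.smul_apply, smul_eq_mul] at h
      rw [← h]
      push_cast
      ring
    refine ⟨![√2 * u {0, 1}, √2 * u {0, 2}, √2 * u {0, 3}], ?_⟩
    funext S
    by_cases h01 : S = {0, 1}
    · subst h01
      rw [sd01]
      change _ = √2 * u {0, 1} / √2
      rw [mul_div_assoc, mul_div_cancel₀ _ hne]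
    by_cases h23 : S = {2, 3}
    · subst h23
      rw [sd23]
      change _ = - (l * (√2 * u {0, 1})) / √2
      rw [eq_div_iff hne]
      linear_combination √2 * e01
    by_cases h02 : S = {0, 2}
    · subst h02
      rw [sd02]
      change _ = √2 * u {0, 2} / √2
      rw [mul_div_assoc, mul_div_cancel₀ _ hne]
    by_cases h13 : S = {1, 3}
    · subst h13
      rw [sd13]
      change _ = l * (√2 * u {0, 2}) / √2
      rw [eq_div_iff hne]
      linear_combination (-√2) * e02
    by_cases h03 : S = {0, 3}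
    · subst h03
      rw [sd03]
      change _ = √2 * u {0, 3} / √2
      rw [mul_div_assoc, mul_div_cancel₀ _ hne]
    by_cases h12 : S = {1, 2}
    · subst h12
      rw [sd12]
      change _ = - (l * (√2 * u {0, 3})) / √2
      rw [eq_div_iff hne]
      linear_combination √2 * e03
    rw [sd_other l _ h01 h23 h02 h13 h03 h12]
    exact hu S (card_ne S h01 h23 h02 h13 h03 h12)
  · unfold ip
    rw [sum6 _ fun S h01 h23 h02 h13 h03 h12 => by
      rw [sd_other l x h01 h23 h02 h13 h03 h12, zero_mul]]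
    rw [sd01, sd01, sd23, sd23, sd02, sd02, sd13, sd13, sd03, sd03, sd12, sd12,
      Fin.sum_univ_three]
    simp only [div_mul_div_comm, h22]
    linear_combination ((x 0 * y 0 + x 1 * y 1 + x 2 * y 2) / 2) * hl
  · have ev : ∀ b : Fin 4, an 0 (sd l (T 0)) {b} + an 1 (sd l (T 1)) {b} +
        an 2 (sd l (T 2)) {b} + an 3 (sd l (T 3)) {b} = 0 := by
      intro b
      have h := congrFun hT {b}
      rw [Finset.sum_apply, Fin.sum_univ_four] at h
      exact h
    have k0 := ev 0
    have k1 := ev 1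
    have k2 := ev 2
    have k3 := ev 3
    rw [an_eq, an_ne (a := 1) (b := 0) (c := -1) (S := {0, 1}) _ (by decide) (by decide) (by decide),
      an_ne (a := 2) (b := 0) (c := -1) (S := {0, 2}) _ (by decide) (by decide) (by decide),
      an_ne (a := 3) (b := 0) (c := -1) (S := {0, 3}) _ (by decide) (by decide) (by decide),
      sd01, sd02, sd03] at k0
    rw [an_eq, an_ne (a := 0) (b := 1) (c := 1) (S := {0, 1}) _ (by decide) (by decide) (by decide),
      an_ne (a := 2) (b := 1) (c := -1) (S := {1, 2}) _ (by decide) (by decide) (by decide),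
      an_ne (a := 3) (b := 1) (c := -1) (S := {1, 3}) _ (by decide) (by decide) (by decide),
      sd01, sd12, sd13] at k1
    rw [an_eq, an_ne (a := 0) (b := 2) (c := 1) (S := {0, 2}) _ (by decide) (by decide) (by decide),
      an_ne (a := 1) (b := 2) (c := 1) (S := {1, 2}) _ (by decide) (by decide) (by decide),
      an_ne (a := 3) (b := 2) (c := -1) (S := {2, 3}) _ (by decide) (by decide) (by decide),
      sd02, sd12, sd23] at k2
    rw [an_eq, an_ne (a := 0) (b := 3) (c := 1) (S := {0, 3}) _ (by decide) (by decide) (by decide),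
      an_ne (a := 1) (b := 3) (c := 1) (S := {1, 3}) _ (by decide) (by decide) (by decide),
      an_ne (a := 2) (b := 3) (c := 1) (S := {2, 3}) _ (by decide) (by decide) (by decide),
      sd03, sd13, sd23] at k3
    push_cast at k0 k1 k2 k3
    refine ⟨?_, ?_, ?_, ?_⟩
    · have h : (T 1 0 + T 2 1 + T 3 2) / √2 = 0 := by
        linear_combination -k0
      exact (div_eq_zero_iff.1 h).resolve_right hne
    · have h : (T 0 0 + l * T 2 2 - l * T 3 1) / √2 = 0 := by
        linear_combination k1
      exact (div_eq_zero_iff.1 h).resolve_right hne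
    · have h : (T 0 1 - l * T 1 2 + l * T 3 0) / √2 = 0 := by
        linear_combination k2
      exact (div_eq_zero_iff.1 h).resolve_right hne
    · have h : (T 0 2 + l * T 1 1 - l * T 2 0) / √2 = 0 := by
        linear_combination k3
      exact (div_eq_zero_iff.1 h).resolve_right hne

end Pool.Agent.H781.DF
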